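import Pool.Agent.helper15.P2.SpecA2
import Pool.Agent.helper37.P2.DefsD

set_option autoImplicit false

/-! Project P2: `ARE_stmt` of `helper37/P2/DefsD` from `ARE_stmt` of `helper15/P2/SpecA2`. -/

open scoped ContDiff Topology
open MeasureTheory Filter Set Metric MvPolynomial Pool.Agent.helper37.QA

namespace Pool.Agent.P2A

theorem AreBridge (h : P2A.ARE_stmt) : P2.ARE_stmt := by
  intro d f Us K hd hC
  obtain ⟨J0, hJ⟩ := h d f Us K hd hC
  refine ⟨Us J0, (hC.trap J0).1, ?_, ?_⟩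
  · rw [hC.inter]; exact Set.iInter_subset _ _
  · intro κ s ε3 hκ hκ1 hs hε
    obtain ⟨nA, hA⟩ := hJ ε3 hε
    exact ⟨nA, fun ι c γ n N hc hn hN hγ ht => hA n N ι c κ s γ hn hN hc hκ (by linarith) hs hγ ht⟩

end Pool.Agent.P2A
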