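import Pool.Agent.helper15.P2.SpecI

set_option autoImplicit false

open scoped ContDiff Topology ComplexConjugate
open MeasureTheory Filter Set Metric

namespace Pool.Agent.P2I

open Pool.Agent.P2

theorem ISA_det (A : ℂ →L[ℂ] ℂ) : (A.restrictScalars ℝ).det = Complex.normSq (A 1) := by
  have h1 : (A.restrictScalars ℝ).det = LinearMap.det ((A : ℂ →ₗ[ℂ] ℂ).restrictScalars ℝ) := rfl
  rw [h1, LinearMap.det_restrictScalars, Algebra.norm_complex_apply, LinearMap.det_ring]
  rfl

theorem ISA_cov (G : ℂ → ℂ) (Ω : Set ℂ) (hΩ : IsOpen Ω) (hG : DifferentiableOn ℂ G Ω)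
    (hinj : InjOn G Ω) (u : ℂ → ℝ) :
    ∫ z in G '' Ω, u z = ∫ w in Ω, Complex.normSq (deriv G w) * u (G w) := by
  have hf : ∀ x ∈ Ω, HasFDerivWithinAt G ((fderiv ℂ G x).restrictScalars ℝ) Ω x := by
    intro x hx
    exact ((hG.differentiableAt (hΩ.mem_nhds hx)).hasFDerivAt.restrictScalars ℝ).hasFDerivWithinAt
  rw [integral_image_eq_integral_abs_det_fderiv_smul volume hΩ.measurableSet hf hinj]
  refine setIntegral_congr_fun hΩ.measurableSet fun w _ => ?_
  rw [ISA_det, fderiv_apply_one_eq_deriv, abs_of_nonneg (Complex.normSq_nonneg _), smul_eq_mul]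

theorem ISA_lapcont (T : ℂ → ℝ) (t : ℂ) (h : ContDiffAt ℝ ∞ T t) : ContinuousAt (lap T) t := by
  have h1 : ContinuousAt (iteratedFDeriv ℝ 2 T) t := by
    have h2 : ContDiffAt ℝ 0 (iteratedFDeriv ℝ 2 T) t :=
      h.iteratedFDeriv_right (by rw [zero_add]; exact WithTop.coe_le_coe.2 (le_top : (2 : ℕ∞) ≤ ⊤))
    exact h2.continuousAt
  have h3 : ∀ v : Fin 2 → ℂ, ContinuousAt (fun z => iteratedFDeriv ℝ 2 T z v) t := by
    intro v
    exact (ContinuousMultilinearMap.apply ℝ (fun _ : Fin 2 => ℂ) ℝ v).continuous.continuousAt.comp h1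
  exact ((h3 _).add (h3 _)).const_mul _

theorem ISA_lapadd (f g : ℂ → ℝ) (t : ℂ) (hf : ContDiffAt ℝ ∞ f t) (hg : ContDiffAt ℝ ∞ g t) :
    lap (f + g) t = lap f t + lap g t := by
  unfold lap
  rw [iteratedFDeriv_add_apply (hf.of_le (WithTop.coe_le_coe.2 (le_top : (2 : ℕ∞) ≤ ⊤)))
    (hg.of_le (WithTop.coe_le_coe.2 (le_top : (2 : ℕ∞) ≤ ⊤)))]
  simp only [add_apply]
  ring

theorem ISA_int (θ T : ℂ → ℝ) (hθ : Continuous θ) (hc : HasCompactSupport θ)
    (hs : tsupport θ ⊆ ball 0 1) (hT : ∀ t ∈ ball (0 : ℂ) 1, ContDiffAt ℝ ∞ T t) :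
    Integrable (fun t => θ t * lap T t) := by
  have hsub : Function.support (fun t => θ t * lap T t) ⊆ Function.support θ := by
    intro t ht
    rw [Function.mem_support] at ht ⊢
    exact fun h => ht (by rw [h, zero_mul])
  have hts : tsupport (fun t => θ t * lap T t) ⊆ tsupport θ := closure_mono hsub
  have hcont : Continuous (fun t => θ t * lap T t) := by
    apply continuous_of_tsupport
    intro t ht
    exact hθ.continuousAt.mul (ISA_lapcont T t (hT t (hs (hts ht))))
  exact hcont.integrable_of_hasCompactSupport (hc.mono' (hsub.trans subset_closure))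

theorem ISA_laptheta (θ : ℂ → ℝ) (hθ : ContDiff ℝ ∞ θ) :
    Function.support (lap θ) ⊆ tsupport θ := by
  intro t ht
  by_contra hn
  apply ht
  have h2 : iteratedFDeriv ℝ 2 θ t = 0 := by
    by_contra h
    exact hn (support_iteratedFDeriv_subset 2 h)
  unfold lap
  rw [h2]
  simp

theorem ISA (hCH1 : CH1_stmt) (hIB1 : IB1_stmt) (hBRA : BRA_stmt) : ISA_stmt := by
  obtain ⟨θb, hθ1, hθ2⟩ : ∃ f : ContDiffBump (0 : ℂ), f.rIn = 1 / 2 ∧ f.rOut = 3 / 4 :=
    ⟨⟨1 / 2, 3 / 4, by norm_num, by norm_num⟩, rfl, rfl⟩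
  obtain ⟨θ, hθd⟩ : ∃ θ : ℂ → ℝ, θ = θb := ⟨_, rfl⟩
  have hθs : ContDiff ℝ ∞ θ := by
    rw [hθd]
    exact θb.contDiff
  have hθc : HasCompactSupport θ := by
    rw [hθd]
    exact θb.hasCompactSupport
  have hθt : tsupport θ ⊆ ball 0 1 := by
    rw [hθd, θb.tsupport_eq, hθ2]
    exact closedBall_subset_ball (by norm_num)
  have hθ0 : ∀ t, 0 ≤ θ t := by
    intro t
    rw [hθd]
    exact θb.nonneg
  have hθone : ∀ t ∈ ball (0 : ℂ) (1 / 2), θ t = 1 := by
    intro t ht
    rw [hθd]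
    apply θb.one_of_mem_closedBall
    rw [hθ1]
    exact ball_subset_closedBall ht
  have hIθ : Integrable θ := hθs.continuous.integrable_of_hasCompactSupport hθc
  have hlapθ : Integrable (fun t => |lap θ t|) := by
    have h1 : Continuous (lap θ) := by
      rw [continuous_iff_continuousAt]
      intro t
      exact ISA_lapcont θ t hθs.contDiffAt
    have h2 : HasCompactSupport (lap θ) := hθc.mono' (ISA_laptheta θ hθs)
    exact (h1.integrable_of_hasCompactSupport h2).abs
  have hC0 : 0 ≤ ∫ t, θ t := integral_nonneg hθ0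
  have hC1 : 0 ≤ ∫ t, |lap θ t| := integral_nonneg (fun t => abs_nonneg _)
  refine ⟨(∫ t, θ t) + (∫ t, |lap θ t|) + 1, by linarith, ?_⟩
  intro P Q V B r z X hA hV hlap hB hVU hz hr hr1 hBr
  obtain ⟨hX, hX0, hXt⟩ := hBr
  obtain ⟨-, hinj, hX2⟩ := (hBRA P Q hA z hz).2.1 r X hr ⟨hX, hX0, hXt⟩
  obtain ⟨hUs, hUl⟩ := hCH1.2 (ball 0 1) P Q isOpen_ball hA.1 hA.2.1 hA.2.2
  -- the rescaled branch
  obtain ⟨Y, hY⟩ : ∃ Y : ℂ → ℂ, Y = fun t => X ((r : ℂ) * t) := ⟨_, rfl⟩
  have hmem : ∀ t ∈ ball (0 : ℂ) 1, (r : ℂ) * t ∈ ball (0 : ℂ) r := by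
    intro t ht
    rw [mem_ball_zero_iff] at ht ⊢
    rw [norm_mul, Complex.norm_real, Real.norm_eq_abs, abs_of_pos hr]
    calc r * ‖t‖ < r * 1 := mul_lt_mul_of_pos_left ht hr
      _ = r := mul_one r
  have hYb : ∀ t ∈ ball (0 : ℂ) 1, Y t ∈ ball (0 : ℂ) 1 := by
    intro t ht
    rw [hY]
    exact (hXt _ (hmem t ht)).1
  have hYd : ∀ t ∈ ball (0 : ℂ) 1, HasDerivAt Y (deriv X ((r : ℂ) * t) * r) t := by
    intro t ht
    rw [hY]
    have h1 : HasDerivAt (fun s : ℂ => (r : ℂ) * s) (r : ℂ) t := by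
      have := (hasDerivAt_id t).const_mul (r : ℂ)
      simpa using this
    have h2 := (hX.differentiableAt (isOpen_ball.mem_nhds (hmem t ht))).hasDerivAt
    exact HasDerivAt.comp t h2 h1
  have hYD : DifferentiableOn ℂ Y (ball 0 1) :=
    fun t ht => (hYd t ht).differentiableAt.differentiableWithinAt
  have hYs : ∀ t ∈ ball (0 : ℂ) 1, ContDiffAt ℝ ∞ Y t := by
    intro t ht
    have h1 : AnalyticAt ℂ Y t := hYD.analyticAt (isOpen_ball.mem_nhds ht)
    exact (h1.contDiffAt (n := ∞)).restrict_scalars ℝ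
  have hr0 : (r : ℂ) ≠ 0 := by exact_mod_cast hr.ne'
  have hYinj : InjOn Y (ball 0 1) := by
    intro s hs t ht h
    rw [hY] at h
    have := hinj (hmem s hs) (hmem t ht) h
    exact mul_left_cancel₀ hr0 this
  have himg : X '' ball 0 (r / 2) = Y '' ball 0 (1 / 2) := by
    ext w
    constructor
    · rintro ⟨t, ht, rfl⟩
      refine ⟨t / r, ?_, ?_⟩
      · rw [mem_ball_zero_iff] at ht ⊢
        rw [norm_div, Complex.norm_real, Real.norm_eq_abs, abs_of_pos hr, div_lt_iff₀ hr]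
        linarith
      · rw [hY]
        simp only
        rw [mul_div_cancel₀ _ hr0]
    · rintro ⟨t, ht, rfl⟩
      refine ⟨(r : ℂ) * t, ?_, ?_⟩
      · rw [mem_ball_zero_iff] at ht ⊢
        rw [norm_mul, Complex.norm_real, Real.norm_eq_abs, abs_of_pos hr]
        calc r * ‖t‖ < r * (1 / 2) := mul_lt_mul_of_pos_left ht hr
          _ = r / 2 := by ring
      · rw [hY]
  have hhalf : ball (0 : ℂ) (1 / 2) ⊆ ball 0 1 := ball_subset_ball (by norm_num)
  -- smoothness of the compositions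
  have hVc : ∀ t ∈ ball (0 : ℂ) 1, ContDiffAt ℝ ∞ (fun s => V (Y s)) t := by
    intro t ht
    have h1 : ContDiffAt ℝ ∞ V (Y t) := hV.contDiffAt (isOpen_ball.mem_nhds (hYb t ht))
    exact h1.comp t (hYs t ht)
  have hUc : ∀ t ∈ ball (0 : ℂ) 1, ContDiffAt ℝ ∞ (fun s => Up P Q (Y s)) t := by
    intro t ht
    have h1 : ContDiffAt ℝ ∞ (Up P Q) (Y t) := hUs.contDiffAt (isOpen_ball.mem_nhds (hYb t ht))
    exact h1.comp t (hYs t ht)
  obtain ⟨T, hT⟩ : ∃ T : ℂ → ℝ, T = fun s => V (Y s) - Up P Q (Y s) := ⟨_, rfl⟩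
  have hTc : ∀ t ∈ ball (0 : ℂ) 1, ContDiffAt ℝ ∞ T t := by
    intro t ht
    rw [hT]
    exact (hVc t ht).sub (hUc t ht)
  -- Laplacians
  have hlV : ∀ t ∈ ball (0 : ℂ) 1, lap (fun s => V (Y s)) t =
      Complex.normSq (deriv Y t) * lap V (Y t) := by
    intro t ht
    apply hCH1.1 (ball 0 1) Y V t isOpen_ball hYD ht
    exact (hV.contDiffAt (isOpen_ball.mem_nhds (hYb t ht))).of_le (WithTop.coe_le_coe.2 (le_top : (2 : ℕ∞) ≤ ⊤))
  have hlU : ∀ t ∈ ball (0 : ℂ) 1, lap (fun s => Up P Q (Y s)) t =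
      Complex.normSq (deriv Y t) * (sph P Q (Y t) / 2) := by
    intro t ht
    rw [← hUl (Y t) (hYb t ht)]
    apply hCH1.1 (ball 0 1) Y (Up P Q) t isOpen_ball hYD ht
    exact (hUs.contDiffAt (isOpen_ball.mem_nhds (hYb t ht))).of_le (WithTop.coe_le_coe.2 (le_top : (2 : ℕ∞) ≤ ⊤))
  have hlU2 : ∀ t ∈ ball (0 : ℂ) 1, lap (fun s => Up P Q (Y s)) t ≤ 1 := by
    intro t ht
    rw [hlU t ht, (hYd t ht).deriv]
    have h1 := (hX2 _ (hmem t ht)).2.2.2
    have e : Y t = X ((r : ℂ) * t) := by rw [hY]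
    rw [e, Complex.normSq_mul, Complex.normSq_ofReal]
    have h2 : 0 ≤ Complex.normSq (deriv X ((r : ℂ) * t)) * sph P Q (X ((r : ℂ) * t)) := by
      apply mul_nonneg (Complex.normSq_nonneg _)
      unfold sph
      exact div_nonneg (Complex.normSq_nonneg _) (sq_nonneg _)
    have h3 : 1 ≤ (1 + Complex.normSq ((r : ℂ) * t)) ^ 2 := by
      have := Complex.normSq_nonneg ((r : ℂ) * t)
      nlinarith
    have h4 : Complex.normSq (deriv X ((r : ℂ) * t)) * sph P Q (X ((r : ℂ) * t)) ≤ 1 := by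
      nlinarith
    have h5 : r * r ≤ 1 := by nlinarith
    have h6 : 0 ≤ r * r := by positivity
    calc Complex.normSq (deriv X ((r : ℂ) * t)) * (r * r) * (sph P Q (X ((r : ℂ) * t)) / 2)
        = (r * r) * (Complex.normSq (deriv X ((r : ℂ) * t)) * sph P Q (X ((r : ℂ) * t))) / 2 := by
          ring
      _ ≤ 1 * 1 / 2 := by
          apply div_le_div_of_nonneg_right _ (by norm_num)
          exact mul_le_mul h5 h4 h2 (by norm_num)
      _ ≤ 1 := by norm_num
  have hlsum : ∀ t ∈ ball (0 : ℂ) 1, lap (fun s => V (Y s)) t =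
      lap (fun s => Up P Q (Y s)) t + lap T t := by
    intro t ht
    rw [← ISA_lapadd _ _ t (hUc t ht) (hTc t ht)]
    have : (fun s => Up P Q (Y s)) + T = fun s => V (Y s) := by
      funext s
      rw [hT]
      simp only [Pi.add_apply]
      ring
    rw [this]
  have hout : ∀ t, t ∉ ball (0 : ℂ) 1 → θ t = 0 := by
    intro t ht
    by_contra h
    exact ht (hθt (subset_closure h))
  have iV := ISA_int θ (fun s => V (Y s)) hθs.continuous hθc hθt hVc
  have iU := ISA_int θ (fun s => Up P Q (Y s)) hθs.continuous hθc hθt hUc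
  have iT := ISA_int θ T hθs.continuous hθc hθt hTc
  rw [himg, ISA_cov Y (ball 0 (1 / 2)) isOpen_ball (hYD.mono hhalf) (hYinj.mono hhalf)]
  calc ∫ w in ball (0 : ℂ) (1 / 2), Complex.normSq (deriv Y w) * lap V (Y w)
      = ∫ w in ball (0 : ℂ) (1 / 2), θ w * lap (fun s => V (Y s)) w := by
        refine setIntegral_congr_fun measurableSet_ball fun w hw => ?_
        show Complex.normSq (deriv Y w) * lap V (Y w) = θ w * lap (fun s => V (Y s)) w
        rw [hθone w hw, one_mul, hlV w (hhalf hw)]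
    _ ≤ ∫ w, θ w * lap (fun s => V (Y s)) w := by
        apply setIntegral_le_integral iV
        filter_upwards with t
        by_cases ht : t ∈ ball (0 : ℂ) 1
        · simp only [Pi.zero_apply]
          rw [hlV t ht]
          exact mul_nonneg (hθ0 t) (mul_nonneg (Complex.normSq_nonneg _) (hlap _ (hYb t ht)))
        · simp only [Pi.zero_apply]
          rw [hout t ht, zero_mul]
    _ = (∫ w, θ w * lap (fun s => Up P Q (Y s)) w) + ∫ w, θ w * lap T w := by
        rw [← integral_add iU iT]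
        congr 1
        funext t
        by_cases ht : t ∈ ball (0 : ℂ) 1
        · rw [hlsum t ht]
          ring
        · rw [hout t ht]
          ring
    _ ≤ (∫ t, θ t) + B * ∫ t, |lap θ t| := by
        apply add_le_add
        · refine integral_mono iU hIθ fun t => ?_
          show θ t * lap (fun s => Up P Q (Y s)) t ≤ θ t
          by_cases ht : t ∈ ball (0 : ℂ) 1
          · calc θ t * lap (fun s => Up P Q (Y s)) t ≤ θ t * 1 :=
                mul_le_mul_of_nonneg_left (hlU2 t ht) (hθ0 t)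
              _ = θ t := mul_one _
          · rw [hout t ht, zero_mul]
        · have hTo : ContDiffOn ℝ ∞ T (ball 0 1) := fun t ht => (hTc t ht).contDiffWithinAt
          rw [hIB1 (ball 0 1) θ T isOpen_ball hθs hθc hθt hTo]
          have hb : ∀ᵐ t : ℂ, ‖lap θ t * T t‖ ≤ B * |lap θ t| := by
            filter_upwards with t
            rw [Real.norm_eq_abs, abs_mul]
            by_cases ht : t ∈ ball (0 : ℂ) 1
            · have h1 : |T t| ≤ B := by
                rw [hT]
                exact hVU _ (hYb t ht)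
              rw [mul_comm]
              exact mul_le_mul_of_nonneg_right h1 (abs_nonneg _)
            · have h2 : lap θ t = 0 := by
                by_contra h
                exact ht (hθt (ISA_laptheta θ hθs h))
              rw [h2]
              simp
          have h3 := norm_integral_le_of_norm_le (hlapθ.const_mul B) hb
          rw [Real.norm_eq_abs, integral_const_mul] at h3
          exact (le_abs_self _).trans h3
    _ ≤ ((∫ t, θ t) + (∫ t, |lap θ t|) + 1) * (1 + B) := by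
        nlinarith [mul_nonneg hC0 hB, mul_nonneg hC1 hB]

end Pool.Agent.P2I
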