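import Pool.Agent.helper37.P2.DefsC

set_option autoImplicit false

/-!
# Project P2 (MP_063734_an): the area of `f^j` on the sheets near `K` is small (`ARE_stmt`)

Rows `p2:..`: prove `X_stmt` in `Pool/Agent/<seat>/P2/X.lean`, `import Pool.Agent.helper15.P2.SpecA2`, `namespace Pool.Agent.P2A`,
`open Pool.Agent.P2`, auxiliary lemmas prefixed `X_`; the rows after the word from are hypotheses, in this order.

* `psj f j N Z = (1/2) log |f^j Z|² - d^j u_N(Z)` is bounded on the cone of `U` for `j ≤ N` and admissible (`Adm`) of level `N`; `psn` is the sum over `j < n`.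
* The trick of `MAN_stmt` works for `psn f n N` for ALL `n ≤ N`, because the supremum cannot drop: so `∑_(j<n) ∫ eh f N (psj f j N) ≤ C` near `K`, uniformly in `n ≤ N`.
* The terms with `N ≥ j + nA` are, up to `ε`, independent of `N`; a convergent series has small terms.
-/

open scoped ContDiff Topology
open MeasureTheory Filter Set Metric MvPolynomial Pool.Agent.helper37.QA

namespace Pool.Agent.P2A

open Pool.Agent.P2

/-- `(1/2) log |f^j Z|² - d^j u_N(Z)` -/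
noncomputable def psj {d : ℕ} (f : Endo 2 d) (j N : ℕ) (Z : E3) : ℝ := (1 / 2) * Real.log (nq (It f j Z)) - (d : ℝ) ^ j * un f N Z

/-- the sum of `psj` over `j < n` -/
noncomputable def psn {d : ℕ} (f : Endo 2 d) (n N : ℕ) (Z : E3) : ℝ := ∑ j ∈ Finset.range n, psj f j N Z

/-- cut-off of the box with centre `(x0,y0)` and radius `ρ`: `1` on the ball of radius `ρ/2`, with support in the ball of radius `4ρ/5` (sup norm) -/
noncomputable def bxc (x0 y0 : ℂ) (ρ : ℝ) (p : ℂ × ℂ) : ℝ := eta ((ρ : ℂ)⁻¹ * (p.1 - x0)) ^ 2 * eta ((ρ : ℂ)⁻¹ * (p.2 - y0)) ^ 2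

/-- area of `f^j` on the sheets of level `N` in a box of the chart `ι`, with cut-off -/
noncomputable def bx {d : ℕ} (f : Endo 2 d) (j N : ℕ) (ι : Fin 2) (x0 y0 : ℂ) (ρ : ℝ) : ℝ :=
  ∫ p : ℂ × ℂ, bxc x0 y0 ρ p * ed f N (psj f j N) (cht ι p.1 p.2)

/-- Row APS (from UN1 CHN LSE MAU). Proof. Bound for `j ≤ N`: `psj = [(1/2) log nq(It f j Z) - d^j u_j(Z)] + d^j (u_j(Z) - u_N(Z))`, both terms are bounded by `C` (`UN1`, fourth and first part). Smooth on the cone: `It f j Z ≠ 0`, `pq(It f N Z) > 0` (`UN1`). Degree `0`: `It f j (c Z) = c^(d^j) It f j Z`. Levi form in a direction `E` with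
`cc f N Z E = 0`: `lev un = (1/2)|cc f N Z E|²/pq²/d^N = 0` (`MAU`, second part, for `P(s,z) = It f N (Z + sE) 0`, direction `(1,0)`; see also the row `PSC`, file `helper80/P2/PSC.lean`), and `lev ((1/2) log nq∘It f j) ≥ 0` (divide by a component which is not `0` at the point and use `LSE` with `B = 0`). The sum `psn` of admissible functions is admissible
(bound `C n`). `It f (j+1) Z = It f j (It f 1 Z)` (`pmap_iter_add`; second part of the row): `psj f (j+1) (N+1) Z = psj f j N (It f 1 Z)`, so `psn f (n+1) (N+1) Z = psj f 0 (N+1) Z + psn f n N (It f 1 Z)`. -/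
def APS_stmt : Prop :=
  ∀ (d : ℕ) (f : Endo 2 d) (U : Set (PP 2)), 2 ≤ d → Good0 f U → ∃ C : ℝ, 1 ≤ C ∧
    (∀ j N : ℕ, j ≤ N → Adm f U N (psj f j N) C) ∧
    (∀ j N : ℕ, ∀ Z ∈ cone U, psj f (j + 1) (N + 1) Z = psj f j N (It f 1 Z)) ∧
    (∀ n N : ℕ, n ≤ N → Adm f U N (psn f n N) (C * (n + 1)) ∧ ∀ Z ∈ cone U, psn f (n + 1) (N + 1) Z ≤ psn f n N (It f 1 Z) + C)

/-- Row ALB: a one variable estimate. Proof. `g = η²Ψ` (smooth on the plane, support in `|z|² ≤ 5/8`). `|lap g| ≤ |Ψ||lap η²| + (1/2)|∇η²||∇Ψ| + η²|lap Ψ|`. First integral `≤ C B`. `lap (Ψ²) = 2 Ψ lap Ψ + (1/2)|∇Ψ|²`, and `∫ η² lap(Ψ²) = ∫ lap(η²) Ψ² ≤ C B²` (integrate by parts twice), so `∫ η²|∇Ψ|² ≤ C B² + 4 B M`; as `|∇η²| = 2|η||∇η|`,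
by Cauchy-Schwarz `∫ |∇η²||∇Ψ| ≤ C (B² + B M)^(1/2) ≤ C (B + M)`. -/
def ALB_stmt : Prop :=
  ∃ C : ℝ, 0 < C ∧ ∀ (Ψ : ℂ → ℝ) (B M : ℝ), ContDiffOn ℝ ∞ Ψ (ball 0 1) → 0 ≤ B → (∀ z ∈ ball (0 : ℂ) 1, |Ψ z| ≤ B) →
    ∫ z, eta z ^ 2 * |lap Ψ z| ≤ M → ∫ z, |lap (fun z => eta z ^ 2 * Ψ z) z| ≤ C * (B + M)

/-- Row ALV (from UN1 CHN LSE MSS APS ALB): change of the level. Proof. `v = u_(N+1)∘Z - u_N∘Z`, `|v| ≤ C d^(-N)` (`UN1`). `Ψ = psn f n N∘Z`, `Ψ' = psn f n (N+1)∘Z = Ψ - S v`, `S = ∑_(j<n) d^j ≤ d^n`. `I = ∫ η²Ψ tau_N`, `I' = ∫ η² Ψ' tau_(N+1)`, `m, m'` the masses, `|m - m'| = |∫ lap(η²) v| ≤ C d^(-N)` (`MSS`). `I' - I = -S ∫ η² v tau_(N+1) + ∫ η²Ψ (tau_(N+1) - tau_N)`; the first term is at most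
`C d^(n-N) m'`, the second is `∫ lap(η²Ψ) v` (`MSS` with `χ = η²Ψ`), at most `C d^(-N) ∫ |lap(η²Ψ)|`. Now `lap Ψ = ∑_(j<n) (lap g_j - d^j tau_N)`, `g_j = (1/2) log nq(It f j∘Z)`, both `≥ 0` (`CHN`, `LSE`), and `∫ η² lap g_j = ∫ lap(η²) psj + d^j m ≤ C + d^j m`, so `∫ η²|lap Ψ| ≤ C n + 2 d^n m ≤ C d^n m` (`m ≥ 1`, `n ≤ d^n`); with `|Ψ| ≤ C(n+1)`,
`ALB` gives `∫|lap(η²Ψ)| ≤ C d^n m`. So `|I' - I| ≤ C m`. Finally `|I'/m' - I/m| ≤ |I' - I|/m' + |I||m - m'|/(m m')`, `|I| ≤ C(n+1) m`, `(n+1) d^(-N) ≤ C`. -/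
def ALV_stmt : Prop :=
  ∀ (d : ℕ) (f : Endo 2 d) (U : Set (PP 2)), 2 ≤ d → Good0 f U → ∃ C : ℝ, 1 ≤ C ∧
    ∀ (n N : ℕ) (Z : ℂ → E3), n ≤ N → Dsc U Z → C ≤ mass f N Z →
      Jf f N (psn f n N) Z ≤ Jf f (N + 1) (psn f n (N + 1)) Z + C

/-- Row AMA (from RIE QRE DMS RAD): the Manye trick for one function. Proof. `U = Us 0`, `r` of `RAD`; `N0`, `𝒱`, `c`, `C` of `QRE` (replace `𝒱` by `𝒱 ∩ Us 0`). Enlarge `B` so that `B ≥ 1`. Let `S(M) = sup {Jf f (N+N0+1) (Ψ (N0+1)) Z : Z disc in U, mass f (N+N0+1) Z ≥ M}`: it is in `[-B, B]` (there are such discs: images `F^k` of a charged disc, `DMS`), decreasing in `M`; let `S` be its infimum and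
choose `M` with `S(M) ≤ S + 1`. By the last hypothesis all discs `Z` in `U` with `mass f N Z ≥ M'` have `Jf f N (Ψ 0) Z ≤ b := S + 1 + c1`. Choose `Z₀` in `U` with `Jf f (N+N0+1) (Ψ (N0+1)) Z₀ ≥ S - 1`, of mass so large that all discs below have mass `≥ M'`, `≥` all constants, and all errors `C1 B mass^(-1/2)` are `≤ 1`. `Z = F Z₀` is a disc in `f(U)` with
`Jf f (N+N0) (Ψ N0) Z ≥ S - 1 - c0` (second hypothesis and `DMS`). Random steps `Z ↦ F(A Z)`: for every disc `Y` in `f(U)` of large mass `Jf f (N+j+1) (Ψ (j+1)) Y ≤ ∫ rho(r/8)(A) Jf f (N+j) (Ψ j) (F(AY)) + c0 + 1` (`RIE` (1), hypothesis, `DMS`; all functions of `A` are continuous on the support of `rho`). For a disc `Y` in `f(U)` of large mass `RIE` (2) gives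
`Occ (r/64) h Y ≤ mass(Y) C1 (b - Jf f N (Ψ 0) Y + 1)`, `h = eh f N (Ψ 0)` (put `h = 0` outside the cone of `U`: it is measurable and homogeneous). By induction on `j` `(stp f (r/8))^[j] (Occ (r/64) h) Y ≤ C_j mass f (N+j) Y (b + j(c0 + 1) + 1 - Jf f (N+j) (Ψ j) Y)` for discs `Y` in `f(U)` of large mass (masses: `DMS`). For `j = N0`, `Y = Z`: the right side is
at most `C mass (b + N0 (c0+1) + 1 - (S - 1 - c0)) ≤ C' mass (1 + c0 + c1)`, the left side is at least `c mass ∫ h` (`QRE` with `n = N`). This is the main step of the row `MAN` (`helper75`), compare `Pool/Agent/helper75/P2/MAN.lean` if it exists. -/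
def AMA_stmt : Prop :=
  ∀ (d : ℕ) (f : Endo 2 d) (Us : ℕ → Set (PP 2)) (K : Set (PP 2)), 2 ≤ d → Core f Us K →
    ∃ (N0 : ℕ) (𝒱 : Set (PP 2)) (C : ℝ), IsOpen 𝒱 ∧ K ⊆ 𝒱 ∧ 𝒱 ⊆ Us 0 ∧ 0 < C ∧
      ∀ (N : ℕ) (Ψ : ℕ → E3 → ℝ) (B c0 c1 : ℝ), 0 ≤ c0 → 0 ≤ c1 → (∀ j ≤ N0 + 1, Adm f (Us 0) (N + j) (Ψ j) B) →
        (∀ j ≤ N0, ∀ Z ∈ cone (Us 0), Ψ (j + 1) Z ≤ Ψ j (It f 1 Z) + c0) →
        (∀ M : ℝ, ∃ M' : ℝ, ∀ Z : ℂ → E3, Dsc (Us 0) Z → M' ≤ mass f N Z → ∃ Z' : ℂ → E3, Dsc (Us 0) Z' ∧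
          M ≤ mass f (N + N0 + 1) Z' ∧ Jf f N (Ψ 0) Z ≤ Jf f (N + N0 + 1) (Ψ (N0 + 1)) Z' + c1) →
        ∫⁻ Y in closedBall (0 : E3) 1 ∩ cone 𝒱, ENNReal.ofReal (eh f N (Ψ 0) Y) ≤ ENNReal.ofReal (C * (1 + c0 + c1))

/-- Row AMB (from DMS RAD APS ALV AMA). Proof. `AMA` with `Ψ j = psn f (n+j) (N+j)`, `B = C(n+N0+2)`, `c0 = C` (`APS`). Last hypothesis with `Z' = Z`: for a disc `Z` in `Us 0` of large mass `Jf f N (psn f n N) Z ≤ Jf f (N+1) (psn f n (N+1)) Z + C ≤ Jf f (N+1) (psn f (n+1) (N+1)) Z + 2C` (`ALV`; `psn f (n+1) (N+1) - psn f n (N+1) = psj f n (N+1) ≥ -C` by `APS`, and `tau ≥ 0`); repeat this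
`N0 + 1` times: `c1 = 2C(N0+1)`; the masses of the different levels differ by at most `C` (`DMS`, with some `r` of `RAD`). -/
def AMB_stmt : Prop :=
  ∀ (d : ℕ) (f : Endo 2 d) (Us : ℕ → Set (PP 2)) (K : Set (PP 2)), 2 ≤ d → Core f Us K →
    ∃ (𝒱 : Set (PP 2)) (C : ℝ), IsOpen 𝒱 ∧ K ⊆ 𝒱 ∧ 𝒱 ⊆ Us 0 ∧ 0 < C ∧ ∀ n N : ℕ, n ≤ N →
      ∫⁻ Y in closedBall (0 : E3) 1 ∩ cone 𝒱, ENNReal.ofReal (eh f N (psn f n N) Y) ≤ ENNReal.ofReal C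

/-- Row ABX (from ENC APS): boxes. Proof. `lev` is additive for smooth functions, so on the cone of `U` `ed f N (psn f n N) = ∑_(j<n) ed f N (psj f j N)`, with terms `≥ 0` (`ENC`, `APS`). Let `‖cht ι p‖ ≤ R` for `p` in the box (`R ≥ 1`). The map `(a, x, y) ↦ a • cht ι x y` is injective on `{1/(2R) < |a| < 1/R} × box`, with values in `closedBall 0 1 ∩ cone 𝒱`, with real Jacobian
`|a|⁴ ≥ (2R)⁻⁴` (Fubini: for fixed `a` it is a linear change of two variables); `eh` is homogeneous of degree `0` and `eh = nq³ ed ≥ ed` at `cht ι x y`, as `nq ≥ 1` there. So `∫_box ed f N (psn f n N) (cht ι p) ≤ C_R ∫_(closedBall 0 1 ∩ cone 𝒱) eh`. (Continuity of `ed f N (psj f j N)` on the cone gives the measurability.) -/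
def ABX_stmt : Prop :=
  ∀ (d : ℕ) (f : Endo 2 d) (U 𝒱 : Set (PP 2)) (C0 : ℝ), 2 ≤ d → Good0 f U → IsOpen 𝒱 → 𝒱 ⊆ U →
    (∀ n N : ℕ, n ≤ N → ∫⁻ Y in closedBall (0 : E3) 1 ∩ cone 𝒱, ENNReal.ofReal (eh f N (psn f n N) Y) ≤ ENNReal.ofReal C0) →
    ∀ (ι : Fin 2) (x0 y0 : ℂ) (ρ : ℝ), 0 < ρ → (∀ p ∈ ball (x0, y0) ρ, cht ι p.1 p.2 ∈ cone 𝒱) → ∃ C : ℝ, 0 < C ∧ ∀ n N : ℕ, n ≤ N →
      ∑ j ∈ Finset.range n, ∫⁻ p in ball (x0, y0) ρ, ENNReal.ofReal (ed f N (psj f j N) (cht ι p.1 p.2)) ≤ ENNReal.ofReal C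

/-- Row ACL (from UN1 STO MAU CHN LSE ENC APS): change of the level in a box. Proof. `P, Q` = the first two components of `It f N (cht ι p)`, `u_N = uu P Q d^N = un f N (cht ι p)`. `ENC` for `X = ∂_x`, `Y = ∂_y` (`Z ⬝ᵥ crs X Y = ±1` at `Z = cht ι x y`) and `cc(X) = w1`, `cc(Y) = w2`: `ed f N (psj f j N) (cht ι p) = (1/2) om lev (psj∘cht) p (ev P Q p)/d^N = MA (psj∘cht) u_N p`
(`CHN`, `MAU`) `= MA g_j u_N p`, `g_j = (1/2) log nq(It f j (cht ι p))`, because `MA u_N u_N = 0` (`MAU`). With the smooth cut-off `χ = bxc x0 y0 ρ` (support in the box) `STO` gives `bx f j N = ∫ χ MA u_N g_j = ∫ u_N MA χ g_j`, hence `bx f j N' - bx f j N = ∫ (u_N' - u_N) MA χ g_j`, at most `C d^(-N) ∫ |MA χ g_j|`. `g_j` is plurisubharmonic (`LSE`), so `|MA χ g_j| ≤ C (lev g_j (1,0) + lev g_j (0,1))`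
on the support of `χ` and `0` outside; with a second cut-off in one variable (`1` on the support of `χ`) and Fubini the integral of `lev g_j (1,0)` over the support is at most `C sup |g_j| ≤ C' d^j` (`|g_j - d^j u_j| ≤ C`, `|u_j - (1/2) log nq(cht)| ≤ C`, `UN1`, and `1 ≤ nq(cht) ≤ R²`). -/
def ACL_stmt : Prop :=
  ∀ (d : ℕ) (f : Endo 2 d) (U : Set (PP 2)), 2 ≤ d → Good0 f U → ∀ (ι : Fin 2) (x0 y0 : ℂ) (ρ : ℝ), 0 < ρ →
    (∀ p ∈ ball (x0, y0) ρ, cht ι p.1 p.2 ∈ cone U) → ∃ C : ℝ, 0 < C ∧ ∀ j N N' : ℕ, j ≤ N → N ≤ N' →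
      |bx f j N' ι x0 y0 ρ - bx f j N ι x0 y0 ρ| ≤ C * (d : ℝ) ^ j / (d : ℝ) ^ N

/-- Row AST (from ENC APS ABX ACL): the terms are small. Proof. `0 ≤ bxc ≤ 1`, support in the box, `ed ≥ 0` continuous: `bx ≥ 0` and `∑_(j<n) bx f j N ≤ C` for `n ≤ N` (`ABX`). For fixed `j` the sequence `bx f j N` is Cauchy (`ACL`), let `b_j` be its limit: `∑_(j<n) b_j ≤ C` for all `n`, so `b_j → 0`; let `b_j ≤ ε/2` for `j ≥ nA`. `|bx f j N - b_j| ≤ C d^(j-N) ≤ ε/2` if `N ≥ j + nA` and `nA` is large.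
As `bxc = 1` on the ball of radius `ρ/2`, the integral in the conclusion is `≤ bx f j N`. -/
def AST_stmt : Prop :=
  ∀ (d : ℕ) (f : Endo 2 d) (U 𝒱 : Set (PP 2)) (C0 : ℝ), 2 ≤ d → Good0 f U → IsOpen 𝒱 → 𝒱 ⊆ U →
    (∀ n N : ℕ, n ≤ N → ∫⁻ Y in closedBall (0 : E3) 1 ∩ cone 𝒱, ENNReal.ofReal (eh f N (psn f n N) Y) ≤ ENNReal.ofReal C0) →
    ∀ (ι : Fin 2) (x0 y0 : ℂ) (ρ : ℝ), 0 < ρ → (∀ p ∈ ball (x0, y0) ρ, cht ι p.1 p.2 ∈ cone 𝒱) → ∀ ε : ℝ, 0 < ε → ∃ nA : ℕ, ∀ j N : ℕ, nA ≤ j → j + nA ≤ N →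
      ∫⁻ p in ball (x0, y0) (ρ / 2), ENNReal.ofReal (ed f N (psj f j N) (cht ι p.1 p.2)) ≤ ENNReal.ofReal ε

/-- Row ARE (from UN1 MAU CHN ENC APS AMB AST): FINAL STATEMENT. Proof. `𝒱₀`, `C` of `AMB`. For `ι = 0, 1` the set `K_ι = {(x,y) : |x| ≤ 3, cht ι x y ∈ cone K}` is compact (`nq ≤ C pq` on the cone, `UN1`, so `|y|` is bounded), it is covered by finitely many balls `ball (x0,y0) (ρ/2)` with `ball (x0,y0) ρ` in the chart of `𝒱₀`; let `W_ι` be the union of these half balls. The compact sets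
`{(x,y) : |x| ≤ 3, cht ι x y ∈ cone (closure (Us m))}` decrease to `K_ι`, so for some `J0` the one for `m = J0` is contained in `W_ι` (`ι = 0, 1`). Take `nA` = the maximum of the numbers of `AST` for the boxes, with `ε' = ε/(number of boxes + 1)`. Let `γ`, `s` be as in the statement. The integrand of `QA` is `η(ξ)² κ² ed f j..`: precisely `lev (g_j∘gp) (ξ,v) (ev gP gQ) om/(2 d^N) = en f N (psj f j N) Z X Y` with
`Z = gp (ξ,v)`, `X = ∂_ξ gp = (0,κ,γ')`, `Y = ∂_v gp = (0,0,1)` (in the chart `ι = 0`; `CHN`, and `lev un` vanishes on these vectors by `MAU`), and by `ENC` this is `κ² ed f N (psj f j N) Z` (`|Z ⬝ᵥ crs X Y| = κ`). Hence, by Fubini and the translations `v ↦ γ(ξ) + v`, `x = c + κξ` (`|x| < 3`), `0 ≤ QA ≤ ∫` of `ed f N (psj f j N) (cht ι x y)` over `W_ι`, at most `ε`. -/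
def ARE_stmt : Prop :=
  ∀ (d : ℕ) (f : Endo 2 d) (Us : ℕ → Set (PP 2)) (K : Set (PP 2)), 2 ≤ d → Core f Us K →
    ∃ J0 : ℕ, ∀ ε : ℝ, 0 < ε → ∃ nA : ℕ, ∀ (j N : ℕ) (ι : Fin 2) (c : ℂ) (κ s : ℝ) (γ : ℂ → ℂ), nA ≤ j → j + nA ≤ N → ‖c‖ ≤ 2 → 0 < κ → κ ≤ 1 → 0 < s →
      DifferentiableOn ℂ γ (ball 0 1) → (∀ ξ ∈ ball (0 : ℂ) 1, ∀ v ∈ ball (0 : ℂ) s, gp ι c κ γ (ξ, v) ∈ cone (Us J0)) →
      QA f j s N ι c κ γ ≤ ε

end Pool.Agent.P2A
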