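import Pool.Agent.helper15.P2.SpecI
import Pool.Agent.helper56.P2.SpecU

set_option autoImplicit false

/-!
# Project P2 (MP_063734_an), block BAND, part 1: from unfolded sheets to bands (own level)

Rows `p2:B..`: prove `X_stmt` in `Pool/Agent/<seat>/P2/X.lean`, `import Pool.Agent.helper15.P2.SpecB`, `namespace Pool.Agent.P2B`,
`open Pool.Agent.P2 Pool.Agent.P2I`, auxiliary lemmas prefixed `X_`. Rows listed after the word from are hypotheses, in this order; rows of other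
blocks keep their names (`Pool.Agent.P2I.IS1_stmt` is written `IS1_stmt`).

Normalised data: `P, Q` holomorphic on the unit bidisc, `|(1/2) log(|P|²+|Q|²)| ≤ E`. `sl P v` is the slice function `x ↦ P (x, v)`. The SHEET of `(x0, 0)` is
the curve `P Q(x0,0) = Q P(x0,0)`. A BAND is a holomorphic family of inverse branches of `P/Q` on the slices, in the tangent coordinate `t` around the point
`(P (x0,0) : Q (x0,0))`. Result: `BOW`: the unfolded points without a band of radius `κ/4` have own level measure at most `C E κ² + 4`.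
-/

open scoped ContDiff Topology ComplexConjugate ENNReal
open MeasureTheory Filter Set Metric

namespace Pool.Agent.P2B

open Pool.Agent.P2 Pool.Agent.P2I

/-- the unit bidisc -/
abbrev BI : Set (ℂ × ℂ) := ball (0 : ℂ) 1 ×ˢ ball (0 : ℂ) 1

/-- slices -/
def sl (P : ℂ × ℂ → ℂ) (v x : ℂ) : ℂ := P (x, v)

/-- normalised data -/
structure ND (P Q : ℂ × ℂ → ℂ) (E : ℝ) : Prop where
  hE : 1 ≤ E
  dP : DifferentiableOn ℂ P BI
  dQ : DifferentiableOn ℂ Q BI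
  ne : ∀ p ∈ BI, P p ≠ 0 ∨ Q p ≠ 0
  bd : ∀ p ∈ BI, |Up (sl P p.2) (sl Q p.2) p.1| ≤ E

/-- `X` is the sheet of `(x0, 0)`: a graph over the unit disc of the `v`-axis, transversal to the slices, with values in `ball 0 (1/2)` -/
def Sht (P Q : ℂ × ℂ → ℂ) (x0 : ℂ) (X : ℂ → ℂ) : Prop :=
  DifferentiableOn ℂ X (ball 0 1) ∧ X 0 = x0 ∧ ∀ v ∈ ball (0 : ℂ) 1, X v ∈ ball (0 : ℂ) (1 / 2) ∧
    P (X v, v) * Q (x0, 0) = Q (X v, v) * P (x0, 0) ∧ Wr (sl P v) (sl Q v) (X v) ≠ 0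

/-- `Y` is a band through `(x0, 0)` of radii `κ` (in `t`) and `r` (in `v`) with values in `S` -/
def Band (P Q : ℂ × ℂ → ℂ) (S : Set ℂ) (κ r : ℝ) (x0 : ℂ) (Y : ℂ × ℂ → ℂ) : Prop :=
  DifferentiableOn ℂ Y (ball (0 : ℂ) κ ×ˢ ball (0 : ℂ) r) ∧ Y (0, 0) = x0 ∧ ∀ t ∈ ball (0 : ℂ) κ, ∀ v ∈ ball (0 : ℂ) r, Y (t, v) ∈ S ∧
    P (Y (t, v), v) * (Q (x0, 0) + t * conj (P (x0, 0))) = Q (Y (t, v), v) * (P (x0, 0) - t * conj (Q (x0, 0)))

/-! ### Tools -/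

/-- Row BJE (Jensen, area form). Proof: circle averages: `log‖f c‖ ≤` circle average of `log‖f‖` over `|z - c| = s` (Mathlib: `circleAverage_log_norm`, circle integrability of `log‖f‖`) for `0 < s ≤ R`; `log⁺` is bounded, so by Tonelli in polar
coordinates `log‖f‖` is integrable on `ball c R`, and the average over the disc is an average of the circle averages. (Compare row `LGA`.) -/
def BJE_stmt : Prop :=
  ∀ (f : ℂ → ℂ) (c : ℂ) (R R' : ℝ), 0 < R → R < R' → DifferentiableOn ℂ f (ball c R') → f c ≠ 0 →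
    IntegrableOn (fun z => Real.log ‖f z‖) (ball c R) ∧ Real.log ‖f c‖ ≤ ⨍ z in ball c R, Real.log ‖f z‖

/-- Row BPI (implicit function along a compact disc, with a parameter). Proof: at every `t₁` with `|t₁| ≤ R'` the implicit function theorem at `(X t₁, t₁, p₀)` gives `ε₁, δ₁ > 0` and a holomorphic `Y₁(t, p)` on `ball t₁ δ₁ × ball p₀ δ₁` such that for these `(t, p)` and `x ∈ ball (X t₁) ε₁`: `(x,t,p) ∈ O`,
the derivative in `x` is not zero, and `Φ(x,t,p) = 0` iff `x = Y₁(t,p)`. Finitely many of the discs `ball t₁ (δ₁/2)` (with `δ₁` so small that `X` moves by less than `ε₁/2` on `ball t₁ δ₁`) cover the closed disc of radius `R'`; take `ε` below all `ε₁/2` and then `δ` so small that `|Y₁(t,p) - X t| < ε` for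
`|p - p₀| < δ`. The functions agree on overlaps by the uniqueness. -/
def BPI_stmt : Prop :=
  ∀ (Φ : ℂ × ℂ × ℂ → ℂ) (O : Set (ℂ × ℂ × ℂ)) (X : ℂ → ℂ) (p₀ : ℂ) (R R' : ℝ), IsOpen O → DifferentiableOn ℂ Φ O → 0 < R' → R' < R →
    DifferentiableOn ℂ X (ball 0 R) → (∀ t ∈ ball (0 : ℂ) R, (X t, t, p₀) ∈ O ∧ Φ (X t, t, p₀) = 0 ∧ fderiv ℂ Φ (X t, t, p₀) (1, 0, 0) ≠ 0) →
    ∃ (ε δ : ℝ) (Y : ℂ × ℂ → ℂ), 0 < ε ∧ 0 < δ ∧ DifferentiableOn ℂ Y (ball (0 : ℂ) R' ×ˢ ball p₀ δ) ∧ (∀ t ∈ ball (0 : ℂ) R', Y (t, p₀) = X t) ∧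
      ∀ t ∈ ball (0 : ℂ) R', ∀ p ∈ ball p₀ δ, (Y (t, p), t, p) ∈ O ∧ Φ (Y (t, p), t, p) = 0 ∧ fderiv ℂ Φ (Y (t, p), t, p) (1, 0, 0) ≠ 0 ∧
        Y (t, p) ∈ ball (X t) ε ∧ ∀ x ∈ ball (X t) ε, (x, t, p) ∈ O → Φ (x, t, p) = 0 → x = Y (t, p)

/-- Row BSL. Slices: elementary. `Adm` for every slice; `w1 = Wr` of the slices; the Levi form in the direction `(1,0)`. Proof: unfold; `fderiv ℂ P (x,v) (1,0)` is the derivative of the slice (chain rule with `x ↦ (x, v)`). -/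
def BSL_stmt : Prop :=
  ∀ (P Q : ℂ × ℂ → ℂ) (E : ℝ), ND P Q E → ∀ v ∈ ball (0 : ℂ) 1, Adm (sl P v) (sl Q v) ∧ (∀ x ∈ ball (0 : ℂ) 1, |Up (sl P v) (sl Q v) x| ≤ E) ∧
    (∀ x ∈ ball (0 : ℂ) 1, w1 P Q (x, v) = Wr (sl P v) (sl Q v) x ∧ w2 P Q (x, v) = Q (x, v) * deriv (fun w => P (x, w)) v - P (x, v) * deriv (fun w => Q (x, w)) v) ∧
    ContinuousOn (fun p : ℂ × ℂ => sph (sl P p.2) (sl Q p.2) p.1) BI

/-! ### Bands and sheets -/

/-- Row BUQ (from BRA BSL): structure of bands. Proof: (1) as in `BRA`: the equation says `t (P P̄₀ + Q Q̄₀) = Q P₀ - P Q₀` at `(Y(t,v), v)`, the bracket does not vanish; differentiate in `t` at fixed `v`: `W Y_t (...) ≠ 0`. In particular for fixed `v` the map `Y(·,v)` is injective, and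
`|Y_t|² sph (1+|t|²)² = 1` because `sph` is the pull-back of the spherical metric (`BRA` for the slice; the frame at `(Y(0,v),v)` is a multiple of the frame at `(x0,0)`). (2) `(P,Q)(Y(0,v),v) = μ (P₀,Q₀)`, `μ ≠ 0`, and with `l = conj(μ)/μ` the equation of `Br` for the slice holds for `Y(l s, v)`.
(3) If two bands agree at one point `(t,v)` (in both domains) then they agree on the intersection of the domains: the set where they agree is closed and open in the connected product, since locally the equation has one solution (`W ≠ 0`). Two bands at `x0` agree at `(0,0)`. -/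
def BUQ_stmt : Prop :=
  ∀ (P Q : ℂ × ℂ → ℂ) (E : ℝ), ND P Q E → ∀ x0 ∈ ball (0 : ℂ) 1, ∀ (κ r : ℝ) (Y : ℂ × ℂ → ℂ), 0 < κ → 0 < r → r ≤ 1 → Band P Q (ball 0 1) κ r x0 Y →
    (∀ t ∈ ball (0 : ℂ) κ, ∀ v ∈ ball (0 : ℂ) r, Wr (sl P v) (sl Q v) (Y (t, v)) ≠ 0 ∧
      P (Y (t, v), v) * conj (P (x0, 0)) + Q (Y (t, v), v) * conj (Q (x0, 0)) ≠ 0 ∧
      Complex.normSq (deriv (fun t => Y (t, v)) t) * sph (sl P v) (sl Q v) (Y (t, v)) * (1 + Complex.normSq t) ^ 2 = 1) ∧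
    (∀ v ∈ ball (0 : ℂ) r, InjOn (fun t => Y (t, v)) (ball 0 κ) ∧ ∃ l : ℂ, ‖l‖ = 1 ∧ Br (sl P v) (sl Q v) (ball 0 1) (Y (0, v)) κ (fun t => Y (l * t, v))) ∧
    (∀ (κ' r' : ℝ) (Y' : ℂ × ℂ → ℂ), r' ≤ 1 → Band P Q (ball 0 1) κ' r' x0 Y' → ∀ t ∈ ball (0 : ℂ) κ, ∀ v ∈ ball (0 : ℂ) r, t ∈ ball (0 : ℂ) κ' → v ∈ ball (0 : ℂ) r' → Y (t, v) = Y' (t, v))

/-- Row BBS (from BUQ): change of the base point of a band. Proof: as `BRS` (rotation of the sphere); `x0' = Y(t₀, v₀)` with `v₀ = 0`. -/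
def BBS_stmt : Prop :=
  ∀ (P Q : ℂ × ℂ → ℂ) (E : ℝ), ND P Q E → ∀ x0 ∈ ball (0 : ℂ) 1, ∀ (S : Set ℂ) (κ r : ℝ) (Y : ℂ × ℂ → ℂ), S ⊆ ball 0 1 → 0 < r → r ≤ 1 → κ ≤ 1 → Band P Q S κ r x0 Y →
    ∀ t₀ ∈ ball (0 : ℂ) κ, ∃ l : ℂ, ‖l‖ = 1 ∧ ∀ κ' : ℝ, (∀ s ∈ ball (0 : ℂ) κ', ‖s + t₀‖ < κ * ‖1 - conj t₀ * s‖) →
      Band P Q S κ' r (Y (t₀, 0)) (fun p => Y ((l * p.1 + t₀) / (1 - conj t₀ * (l * p.1)), p.2))

/-- Row BSM (from BSL BPI BRA): the sheet map. Proof. (1) UNIQUENESS: two sheets `X, X'` of `x0, x0'` over the same value (`P(x0,0) Q(x0',0) = Q(x0,0) P(x0',0)`) that agree at one `v` agree everywhere (`W ≠ 0`, connectedness). Choose `Ξ(x0, ·)` = the sheet of `x0`. (2) Let `O_R` be the set of `x0 ∈ ball 0 (1/2)` with a sheet over `ball 0 R` (same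
properties). For `R' < R` every point of `O_R` is interior to `O_(R')`, and the sheets over `ball 0 R'` depend holomorphically on `x0`: `BPI` with unknown `x`, variable `v`, parameter `x0`, `Φ = P(x,v) Q(x0,0) - Q(x,v) P(x0,0)` on `{|x| < 1/2, |v| < 1, |x0| < 1}`; its `x`-derivative along the sheet is `W` up to a nonzero factor. So
`A = ⋂ₙ int O_(1-1/n)` is measurable and `Ξ` is continuous on `A × ball 0 1`. (3) For fixed `v` the map `φ = Ξ(·, v)` on `A` is injective (uniqueness) and near each point of `A` it is the restriction of a holomorphic map with `h_v ∘ φ = h_0`, so `|φ'|² sph_v(φ) = sph_0`: change of variables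
`lintegral_image_eq_lintegral_abs_det_fderiv_mul`. -/
def BSM_stmt : Prop :=
  ∀ (P Q : ℂ × ℂ → ℂ) (E : ℝ), ND P Q E → ∃ (A : Set ℂ) (Ξ : ℂ × ℂ → ℂ), MeasurableSet A ∧ (∀ x0, x0 ∈ A ↔ x0 ∈ ball (0 : ℂ) (1 / 2) ∧ ∃ X : ℂ → ℂ, Sht P Q x0 X) ∧
    (∀ x0 ∈ A, ∀ X : ℂ → ℂ, Sht P Q x0 X → ∀ v ∈ ball (0 : ℂ) 1, Ξ (x0, v) = X v) ∧ ContinuousOn Ξ (A ×ˢ ball (0 : ℂ) 1) ∧
    ∀ v ∈ ball (0 : ℂ) 1, ∀ g : ℂ → ℝ≥0∞, Measurable g →
      ∫⁻ x0 in A, ENNReal.ofReal (sph (sl P 0) (sl Q 0) x0) * g (Ξ (x0, v)) ≤ ∫⁻ x in ball (0 : ℂ) (1 / 2), ENNReal.ofReal (sph (sl P v) (sl Q v) x) * g x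

/-- Row BJL (from BSL BPI BRA BRC BRS): the univalence radius of the slices is jointly lower semicontinuous. Proof: let `0 ≤ c < τ < rh` at `(x*, v*)`, `X` the branch of radius `rh` on the slice `v*`, `(a, b) = (P,Q)(x*,v*)`. `BPI` with unknown `x`, variable `t`, parameter `v`, `Φ = P(x,v)(b + t ā) - Q(x,v)(a - t b̄)` on
`{|x| < 1, |v| < 1}`: a holomorphic family `Y(t,v)` on `ball 0 τ × ball v* δ`. For `(x,v)` near `(x*,v*)` the coordinate `t₀ = Hz`-type quotient of `(x,v)` in the frame `(a,b)` is near `0`, and `x = Y(t₀,v)` by the uniqueness in `BPI`. After rotation of the frame (the frame of `(Y(0,v),v)` is a multiple of `(a,b)`) `BRS` gives a branch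
through `x` of any radius `< τ` when `t₀` is small. -/
def BJL_stmt : Prop :=
  ∀ (P Q : ℂ × ℂ → ℂ) (E : ℝ), ND P Q E → (∀ c : ℝ, IsOpen {p : ℂ × ℂ | p ∈ BI ∧ c < rh (sl P p.2) (sl Q p.2) p.1}) ∧
    Measurable (fun p : ℂ × ℂ => (BI).indicator (fun p : ℂ × ℂ => rh (sl P p.2) (sl Q p.2) p.1) p)

/-- Row BLC (from BSL IS1): layer cake. Proof: `log⁺(κ/ρ) ≤ ∑_(m ≥ 0) 1[ρ ≤ κ 2^(-m)]` for `ρ > 0` (if `κ 2^(-n-1) < ρ ≤ κ 2^(-n)` then `log(κ/ρ) ≤ n + 1`); by `IS1` the sum of the measures is at most `∑ C E κ² 4^(-m)`. Where `ρ = 0` the critical points of the slice lie (a null set; there `log(κ/0) = 0` in Lean). -/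
def BLC_stmt : Prop :=
  ∃ C : ℝ, 0 < C ∧ ∀ (P Q : ℂ × ℂ → ℂ) (E κ : ℝ), ND P Q E → 0 < κ → κ < 1 → ∀ v ∈ ball (0 : ℂ) 1, 4 ≤ ∫ x in ball (0 : ℂ) (1 / 2), sph (sl P v) (sl Q v) x →
    ∫⁻ x in ball (0 : ℂ) (1 / 2), ENNReal.ofReal (sph (sl P v) (sl Q v) x) * ENNReal.ofReal (Real.log (κ / rh (sl P v) (sl Q v) x)) ≤ ENNReal.ofReal (C * E * κ ^ 2)

/-- Row BHA (from BJE BPI BRA BRC BSL BUQ): the Hartogs argument. Proof. Let `(a,b) = (P,Q)(x0,0)` and `R(v) = rh` of the slice `v` at `X v` (positive). `(P,Q)(X v, v) = μ(v) (a,b)`, so after a rotation of `t` the branch of radius `R(v)` is a holomorphic `Y_v` on `ball 0 (R v)`, values in the unit disc, `Y_v(0) = X v`, with the equation of `Band` (frame `(a,b)`). By `BPI`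
(variable `t`, parameter `v`) it is jointly holomorphic near `t = 0`, locally in `v`; so the Taylor coefficients `a_k(v)` are holomorphic on `ball 0 1`, and `|a_k(v)| ≤ R(v)^(-k)` (Cauchy). For `|v| < 1/4`, `a_k(v) ≠ 0`: `BJE` on `ball v (7/10)`:
`log|a_k(v)| ≤ average of k log(1/R) ≤ k log(1/κ) + k · average of log⁺(κ/R) ≤ k (log(1/κ) + 1/49)`. So `|a_k(v)| ≤ (e^(1/49)/κ)^k` on `ball 0 (1/4)`; the series `Y(t,v) = ∑ a_k(v) t^k` converges locally uniformly on `ball 0 (κ/4) × ball 0 (1/4)`, is holomorphic, and `|Y(t,v) - X v| ≤ q/(1-q) < 1/2`, `q = e^(1/49)/4`: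
`|Y| < 1`. The equation holds for small `t`, hence for all `t ∈ ball 0 (κ/4)` (identity theorem in `t` for fixed `v`). (In Lean the average of `log(1/R)`: use `log(1/R) ≤ log(1/κ) + log⁺(κ/R)`, and the hypothesis in the form of a lower integral.) -/
def BHA_stmt : Prop :=
  ∀ (P Q : ℂ × ℂ → ℂ) (E κ : ℝ) (x0 : ℂ) (X : ℂ → ℂ), ND P Q E → 0 < κ → κ < 1 → Sht P Q x0 X →
    ∫⁻ v in ball (0 : ℂ) 1, ENNReal.ofReal (Real.log (κ / rh (sl P v) (sl Q v) (X v))) ≤ ENNReal.ofReal (Real.pi / 100) →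
    ∃ Y : ℂ × ℂ → ℂ, Band P Q (ball 0 1) (κ / 4) (1 / 4) x0 Y

/-- Row BOW (from BSM BJL BLC BHA BSL): own level. Proof: `A`, `Ξ` from `BSM`. If `∫_A sph_0 ≤ 4` there is nothing to do. Otherwise `∫_(ball 0 (1/2)) sph_v ≥ ∫_A sph_0 ≥ 4` for every `v` (`BSM`, `g = 1`), so by `BSM` (with `g x = log⁺(κ/rh_v x)`) and `BLC`
`∫_A sph_0(x0) log⁺(κ/rh_v(Ξ(x0,v))) dx0 ≤ C E κ²` for every `v`. Tonelli (`(x0,v) ↦ rh_v(Ξ(x0,v))` is measurable on `A × ball 0 1`: `BJL` and continuity of `Ξ`): `∫_A sph_0(x0) (∫_v log⁺ ...) ≤ π C E κ²`. By Markov the set of `x0 ∈ A` with `∫_v log⁺ > π/100` has measure `≤ 100 C E κ²`, and for the other `x0` there is a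
band by `BHA`. -/
def BOW_stmt : Prop :=
  ∃ C : ℝ, 0 < C ∧ ∀ (P Q : ℂ × ℂ → ℂ) (E κ : ℝ), ND P Q E → 0 < κ → κ < 1 →
    ∫⁻ x0 in {x0 : ℂ | x0 ∈ ball (0 : ℂ) (1 / 2) ∧ (∃ X : ℂ → ℂ, Sht P Q x0 X) ∧ ¬ ∃ Y : ℂ × ℂ → ℂ, Band P Q (ball 0 1) (κ / 4) (1 / 4) x0 Y},
      ENNReal.ofReal (sph (sl P 0) (sl Q 0) x0) ≤ ENNReal.ofReal (C * E * κ ^ 2 + 4)

/-! ### The shear (coordinates of helper56: `TB 4 τ`) -/

/-- Row BSH (from UGRN UAFW UJAC UHX UUNI USHR UMEA UNUL USNG): unshearing. All in the coordinates of `SpecU`. Proof. Let `A` be the set of `x0`, `|x0| < 1/2`, `cx^b(x0,0) ≠ 0`, `x0 ∉ NN^b(s/4)`, `P/Q(x0, b x0)` finite and not a critical value (`USNG`, `UNUL`, the preimage of a null set under a nonconstant holomorphic map is null where `cx^b ≠ 0`). For `x0 ∈ A` let `X` be the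
branch over `ball 0 (s/4)` of `(sh b P, sh b Q)`; `cx^b ≠ 0` along `X` (otherwise also `cv^b = 0`, a critical point). `|X'| ≤ 20/s` on `ball 0 (s/5)` (Cauchy), `|b| < s²`, `s ≤ 1/40`: for `|v| < s/6` the equation `w = v - b X(w)` has exactly one solution `w(v)` in `ball 0 (s/5)`, holomorphic in `v`, and `X̃(v) = X(w(v))` is a branch for
`(P, Q)` over `ball 0 (s/6)` through `x1 = X̃(0) =: j(x0)`, `|x1 - x0| ≤ 20 s`. `j` is injective on fibres of `P/Q` (two branches which meet agree, `UUNI` and its proof). For a radial cut-off `χ` (smooth, `1` on `ball 0 (2/5)`, support in `ball 0 (9/20)`, Lipschitz constant `K`), with the area formula `UAFW` (`F = P/Q` on the slice, weight `gz(F) χ`):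
`∫_G χ dν_Γ ≥ ∫_A χ(j x0) dν_b ≥ ∫ χ dν_b - D β - 20 K s ν_b(ball 0 (1/2))` where `G` = complement of `NN P Q (s/6)` in `ball 0 (1/2)` (measurable, `UMEA`), `ν_Γ`, `ν_b` = measures `‖cx‖² om` on the slices `v = 0`, `w = 0`. By `UGRN` `|∫ χ dν_Γ - ∫ χ dν_b| ≤ C (D s^(2α) + 1)` (potentials differ by `|U(x,0) - U(x,bx)| ≤ D C0 (2s²)^α + 2 C0`), `1 ≤ D s`, and
`ν_b(ball 0 (1/2)) ≤ C D` (`UHX`-type estimate for the sheared pair). So `∫_(NN P Q (s/6)) χ dν_Γ = ∫ χ dν_Γ - ∫_G χ dν_Γ ≤ D β + C D s^α`. -/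
def BSH_stmt : Prop :=
  ∀ C0 α : ℝ, 1 ≤ C0 → 0 < α → α ≤ 1 → ∃ C : ℝ, 0 < C ∧ ∀ (P Q : ℂ × ℂ → ℂ) (u : ℂ × ℂ → ℝ) (D τ : ℝ), P2U.Dat P Q u D C0 α τ → τ ≤ 1 →
    ∀ s β : ℝ, 0 < s → s ≤ 1 / 40 → s ≤ τ / 4 → 1 / s ≤ D → 0 ≤ β → ∀ b : ℂ, ‖b‖ < s ^ 2 → MeasurableSet (P2U.NN (P2U.sh b P) (P2U.sh b Q) (s / 4)) →
    ∫⁻ x in P2U.NN (P2U.sh b P) (P2U.sh b Q) (s / 4), ENNReal.ofReal (‖P2U.cx (P2U.sh b P) (P2U.sh b Q) (x, 0)‖ ^ 2 * P2U.om (P2U.sh b P) (P2U.sh b Q) (x, 0)) ≤ ENNReal.ofReal (D * β) →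
    ∫⁻ x in P2U.NN P Q (s / 6) ∩ ball 0 (2 / 5), ENNReal.ofReal (‖P2U.cx P Q (x, 0)‖ ^ 2 * P2U.om P Q (x, 0)) ≤ ENNReal.ofReal (D * (β + C * s ^ α))

end Pool.Agent.P2B
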