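import Pool.Agent.helper15.P2.SpecB

set_option autoImplicit false

/-!
# Project P2 (MP_063734_an), block BAND, part 2: transfer of the existence of bands to the finer level

Rows `p2:B..`: prove `X_stmt` in `Pool/Agent/<seat>/P2/X.lean`, `import Pool.Agent.helper15.P2.SpecC`, `namespace Pool.Agent.P2B`,
`open Pool.Agent.P2 Pool.Agent.P2I`, auxiliary lemmas prefixed `X_`.

Idea: in the affine coordinate `ζ = P/Q` the band through `(x,0)` is a power series `∑ c_ij(x) ζ^i v^j`, the coefficients `c_ij = cf P Q i j` are holomorphic functions of `x` where the slice `v = 0` has no critical point, so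
`Φ = max(0, sup (1/(i+j)) log(|c_ij| κ^i r^j))` is subharmonic there, and `Φ + 4 log|W|` is subharmonic everywhere. A band of radii `(κ, r)` exists if `Φ = 0` (up to constants), a band of radii
`(κ, r) e^(-L)` if `Φ ≤ L`: a cut-off of slope `1/L` (`CUT`) transfers the own level estimate to the finer level. Result: `BTR`.
-/

open scoped ContDiff Topology ComplexConjugate ENNReal
open MeasureTheory Filter Set Metric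

namespace Pool.Agent.P2B

open Pool.Agent.P2 Pool.Agent.P2I

/-- derivative in `ζ = P/Q` at fixed `v` -/
noncomputable def D1 (P Q g : ℂ × ℂ → ℂ) (p : ℂ × ℂ) : ℂ := Q p ^ 2 / w1 P Q p * fderiv ℂ g p (1, 0)

/-- derivative in `v` at fixed `ζ = P/Q` -/
noncomputable def D2 (P Q g : ℂ × ℂ → ℂ) (p : ℂ × ℂ) : ℂ := fderiv ℂ g p (0, 1) - w2 P Q p / w1 P Q p * fderiv ℂ g p (1, 0)

/-- coefficients of the affine band through `(x, 0)` -/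
noncomputable def cf (P Q : ℂ × ℂ → ℂ) (i j : ℕ) (x : ℂ) : ℂ :=
  ((D1 P Q)^[i] ((D2 P Q)^[j] Prod.fst)) (x, 0) / ((i.factorial : ℂ) * (j.factorial : ℂ))

/-- affine band -/
def AB (P Q : ℂ × ℂ → ℂ) (S : Set ℂ) (κ r : ℝ) (x0 : ℂ) (Y : ℂ × ℂ → ℂ) : Prop :=
  DifferentiableOn ℂ Y (ball (0 : ℂ) κ ×ˢ ball (0 : ℂ) r) ∧ Y (0, 0) = x0 ∧ ∀ z ∈ ball (0 : ℂ) κ, ∀ v ∈ ball (0 : ℂ) r, Y (z, v) ∈ S ∧
    P (Y (z, v), v) = (P (x0, 0) / Q (x0, 0) + z) * Q (Y (z, v), v)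

/-- `max(L, sup (1/(i+j)) log(|c_ij| κ^i r^j))` -/
noncomputable def Ph (P Q : ℂ × ℂ → ℂ) (κ r L : ℝ) (x : ℂ) : ℝ :=
  max L (⨆ n : {n : ℕ × ℕ // n ≠ 0}, Real.log (‖cf P Q n.1.1 n.1.2 x‖ * κ ^ n.1.1 * r ^ n.1.2) / ((n.1.1 : ℝ) + n.1.2))

/-- Row BCF (from BSL). Proof. (1) `D1`, `D2` preserve holomorphy on `{p ∈ BI | w1 ≠ 0}`; restrict to `v = 0`. (2) Along an affine band `Q(Y,v) ≠ 0` (otherwise also `P = 0`), and differentiating the equation: `w1(Y,v) Y_ζ = Q(Y,v)²`, `w1 Y_v + w2 = 0`; so for every holomorphic `g` near the band: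
`∂_ζ (g(Y,v)) = (D1 g)(Y,v)`, `∂_v (g(Y,v)) = (D2 g)(Y,v)`. By induction `(D1^i D2^j fst)(Y(ζ,v),v) = ∂_ζ^i ∂_v^j Y(ζ,v)`. Cauchy estimates (twice, on discs of radii tending to `κ`, `r`; values in the unit disc). -/
def BCF_stmt : Prop :=
  ∀ (P Q : ℂ × ℂ → ℂ) (E : ℝ), ND P Q E →
    (∀ i j : ℕ, DifferentiableOn ℂ (cf P Q i j) {x : ℂ | x ∈ ball (0 : ℂ) 1 ∧ Wr (sl P 0) (sl Q 0) x ≠ 0}) ∧
    (∀ x0 ∈ ball (0 : ℂ) 1, Q (x0, 0) ≠ 0 → ∀ (κ r : ℝ) (Y : ℂ × ℂ → ℂ), 0 < κ → 0 < r → r ≤ 1 → AB P Q (ball 0 1) κ r x0 Y →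
      Wr (sl P 0) (sl Q 0) x0 ≠ 0 ∧ (∀ i j : ℕ, ‖cf P Q i j x0‖ ≤ κ⁻¹ ^ i * r⁻¹ ^ j) ∧
      ∀ i j : ℕ, iteratedDeriv i (fun z => iteratedDeriv j (fun v => Y (z, v)) 0) 0 = (i.factorial : ℂ) * (j.factorial : ℂ) * cf P Q i j x0)

/-- Row BCC (from BSL BCF): converse. Proof: `w1(x0,0) ≠ 0`, `Q(x0,0) ≠ 0`: the implicit function theorem for `P(x,v) - (h₀ + ζ) Q(x,v) = 0` (derivative in `x` at the point: `w1/Q ≠ 0`) gives a small affine band `Y₀`, whose Taylor coefficients are the `cf` (`BCF`, third claim; the iterated derivatives are the coefficients of the double power series).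
The series `Y = ∑ cf i j ζ^i v^j` converges for `|ζ| < κ/(8K)`, `|v| < r/(8K)`, holomorphic, and `|Y - x0| ≤ ∑_((i,j) ≠ 0) 8^(-i-j) = (8/7)² - 1 < 1/3`, so `(Y, v) ∈ BI`; the equation holds near `(0,0)` where `Y = Y₀`, hence everywhere by the identity theorem. -/
def BCC_stmt : Prop :=
  ∀ (P Q : ℂ × ℂ → ℂ) (E : ℝ), ND P Q E → ∀ x0 ∈ ball (0 : ℂ) (1 / 2), Q (x0, 0) ≠ 0 → Wr (sl P 0) (sl Q 0) x0 ≠ 0 → ∀ κ r K : ℝ, 0 < κ → 0 < r → r ≤ 1 → 1 ≤ K →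
    (∀ i j : ℕ, (i, j) ≠ (0, 0) → ‖cf P Q i j x0‖ ≤ (K / κ) ^ i * (K / r) ^ j) →
    ∃ Y : ℂ × ℂ → ℂ, AB P Q (ball 0 1 ∩ ball x0 (1 / 3)) (κ / (8 * K)) (r / (8 * K)) x0 Y

/-- Row BI2 (from BSL BRA): a quantitative lower bound. Proof: `δ = 1-|x0|`, `(a,b) = (P,Q)(x0,0)`, `|a|²+|b|² ∈ [e^(-2E), e^(2E)]`, `|P|,|Q| ≤ e^E`; `H(x,v) = (Q a - P b)/(P ā + Q b̄)`. For `|x-x0|, |v| < δ₁ := δ e^(-4E)/64` the denominator differs from `|a|²+|b|²` by at most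
`8 e^(2E) δ₁/δ` (Cauchy estimates), so it is at least half of it and `|H| ≤ M := 2e^(2E)`. On half of this bidisc `|H_xx| ≤ 8M/δ₁²`, `|H_xv| ≤ 4M/δ₁²`, `|H_v| ≤ 2M/δ₁`. `A = |H_x(x0,0)| = |W|/(|a|²+|b|²) ≥ |W| e^(-2E)`, `A ≤ 2M/δ₁`. For `|x-x0|, |v| ≤ s₁ := A δ₁²/(32M)` (`≤ δ₁/16`): `|H_x - H_x(x0,0)| ≤ (3/8) A`, so for
`|t|, |v| < ρ₀ := A² δ₁³/(256 M²)` the map `x ↦ x - (H(x,v) - t)/H_x(x0,0)` is a contraction of the closed disc of radius `s₁` around `x0` (`|H(x0,v)| ≤ (2M/δ₁)|v|`); its fixed point `Y(t,v)` is unique, hence holomorphic in `(t,v)` (implicit function theorem), `Y(0,0) = x0`. `ρ₀ ≥ |W|² δ³ e^(-20E)/2²⁸ ≥ e^(-100E) δ⁴ |W|²`. -/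
def BI2_stmt : Prop :=
  ∀ (P Q : ℂ × ℂ → ℂ) (E : ℝ), ND P Q E → ∀ x0 ∈ ball (0 : ℂ) 1, Wr (sl P 0) (sl Q 0) x0 ≠ 0 →
    ∃ (ρ : ℝ) (Y : ℂ × ℂ → ℂ), ρ = Real.exp (-(100 * E)) * (1 - ‖x0‖) ^ 4 * ‖Wr (sl P 0) (sl Q 0) x0‖ ^ 2 ∧ 0 < ρ ∧ ρ ≤ 1 ∧ Band P Q (ball 0 1) ρ ρ x0 Y

/-- Row BTC: charts. Proof: `h₀ = P₀/Q₀`, `q = conj(Q₀)/Q₀`: the point with tangent coordinate `t` has `ζ - h₀ = -tq(1+|h₀|²)/(1+tq conj(h₀))`, and conversely `-tq = ζ'/(1+|h₀|²+ζ' conj(h₀))`, `ζ' = ζ - h₀`. (1) if `|ζ'| < 3κ/4 ≤ 3/4` then `|1+|h₀|²+ζ' conj(h₀)| ≥ 1 - 9/64`, so `|t| < κ`; compose. (2) `|h₀| ≤ 1`, `|t| < κ/4 ≤ 1/4`: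
`|ζ'| ≤ 2|t|/(1-|t|) < κ`. In both cases the equation of the other kind follows by multiplication with `Q₀ (1 + tq conj(h₀)) = Q₀ + t conj(P₀)`. (3) trivial: replace `t` by `-t`; `Up` is symmetric. -/
def BTC_stmt : Prop :=
  ∀ (P Q : ℂ × ℂ → ℂ) (E : ℝ), ND P Q E → ND Q P E ∧ ∀ x0 ∈ ball (0 : ℂ) 1, ∀ (S : Set ℂ) (κ r : ℝ) (Y : ℂ × ℂ → ℂ), S ⊆ ball 0 1 → 0 < κ → κ ≤ 1 → 0 < r → r ≤ 1 →
    (Q (x0, 0) ≠ 0 → Band P Q S κ r x0 Y → ∃ Y' : ℂ × ℂ → ℂ, AB P Q S (3 * κ / 4) r x0 Y') ∧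
    (‖P (x0, 0)‖ ≤ ‖Q (x0, 0)‖ → AB P Q S κ r x0 Y → ∃ Y' : ℂ × ℂ → ℂ, Band P Q S (κ / 4) r x0 Y') ∧
    (Band P Q S κ r x0 Y → Band Q P S κ r x0 (fun p => Y (-p.1, p.2)))

/-- Row BSB (from FAT LGW BJE BSL BCF BI2 BTC): the subharmonic function. Let `W` be the Wronskian of the slice `v = 0`. Proof. (1) If `W x ≠ 0`, `Q(x,0) ≠ 0` then by `BI2`, `BTC`, `BCF`: `‖c_ij(x)‖ ≤ M^(i+j)`, `M = 4/(3ρ)`, and by continuity the same if only `W x ≠ 0` (`Q(·,0)` is not identically zero, otherwise `W = 0`, and its zeros are isolated). So the supremum is finite, `Ph ≤ max(L, 100E - 4 log(1-|x|) - 2 log|W x| + 1)`; hence on `ball 0 (4/5)`: `4 log|W| ≤ S ≤ C E + 4|log|W||`. (2) Each function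
`(1/(i+j)) log(|c_ij| κ^i r^j)` is `-∞`-valued subharmonic off `{W = 0}`: `BJE` gives the sub-mean value inequality over small discs (where `c_ij(x) = 0` the Lean value is `0 ≤ L`: no problem, `Ph ≥ L`), so `Ph x ≤` average of `Ph` over every disc `ball x s` in `{W ≠ 0}` (`Ph ≥ L` everywhere; the averages of `max(L, f)` dominate `max(L, average f)`), same for `4 log|W|` (`BJE`).
(3) `FAT` with `g = 0`, `Ω = ball 0 R`, `R < 1`, `φ = max(S, -K)` where `W ≠ 0` and `-K` elsewhere (bounded; uniform `δ`: where `S > -K` one has `|W| ≥ c(K,R,E) > 0` by (1)); `K → ∞`. Integrability from `LGW`. -/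
def BSB_stmt : Prop :=
  ∃ C : ℝ, 0 < C ∧ ∀ (P Q : ℂ × ℂ → ℂ) (E κ r L : ℝ), ND P Q E → 0 < κ → κ ≤ 1 → 0 < r → r ≤ 1 → 0 ≤ L → L ≤ E →
    4 ≤ ∫ x in ball (0 : ℂ) (1 / 2), sph (sl P 0) (sl Q 0) x →
    (∀ x ∈ ball (0 : ℂ) 1, Wr (sl P 0) (sl Q 0) x ≠ 0 →
      BddAbove (range fun n : {n : ℕ × ℕ // n ≠ 0} => Real.log (‖cf P Q n.1.1 n.1.2 x‖ * κ ^ n.1.1 * r ^ n.1.2) / ((n.1.1 : ℝ) + n.1.2))) ∧
    Measurable (fun x => ({x : ℂ | x ∈ ball (0 : ℂ) 1 ∧ Wr (sl P 0) (sl Q 0) x ≠ 0}).indicator (Ph P Q κ r L) x) ∧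
    IntegrableOn (fun x => Ph P Q κ r L x + 4 * Real.log ‖Wr (sl P 0) (sl Q 0) x‖) (ball 0 (4 / 5)) ∧
    ∫ x in ball (0 : ℂ) (4 / 5), |Ph P Q κ r L x + 4 * Real.log ‖Wr (sl P 0) (sl Q 0) x‖| ≤ C * E ∧
    ∀ χ : ℂ → ℝ, ContDiff ℝ ∞ χ → HasCompactSupport χ → tsupport χ ⊆ ball 0 (4 / 5) → (∀ x, 0 ≤ χ x) →
      0 ≤ ∫ x, lap χ x * (Ph P Q κ r L x + 4 * Real.log ‖Wr (sl P 0) (sl Q 0) x‖)

/-- Row BTR (from CH1 IB1 CUT BSL BCF BCC BTC BSB): transfer. Proof. `χ` smooth, `1` on `ball 0 (1/6)`, support in `ball 0 (1/5)`. If `∫_(ball 0 (1/2)) sph < 4` take `Bd = univ`: `∫_(ball 0 (1/6)) lap V ≤ ∫ χ lap Up + ∫ χ lap(V-Up) ≤ 2 + C B` (`IB1`, `CH1`), and `1 ≤ E/L`. Otherwise put `κ' = 3κ/4`, `S₁ = Ph(κ',r,0) + 4 log|W|`, `S₂ = Ph(κ',r,L) - L + 4 log|W|` (subtracting a constant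
does no harm, `∫ lap χ = 0`), `l = 1/L`: `H = l(S₁ - S₂) = min(Φ, L)/L`, `Φ = Ph(κ',r,0)`. If `Q(x,0) ≠ 0` and there is a band of radii `(κ,r)` at `x` then `AB` of radii `(κ',r)` (`BTC`), so `Φ(x) = 0` (`BCF`); so `∫ χ H sph ≤ γ` (zeros of `Q(·,0)` are a null set: `Q(·,0)` is not identically zero, otherwise `W = 0` and the mass is `0`). `CUT`: `∫ χ H lap V ≤ γ/2 + C B (1 + C E/L)` (`lap Up = sph/2`). `H = 1` where `Φ ≥ L`. Same for the pair `(Q,P)`. `Bd = {Φ_PQ > L} ∪ {Φ_QP > L} ∪ {W = 0}` inside the disc (measurable by `BSB`; the last set is a null set). If `x ∈ ball 0 (1/6)`, `x ∉ Bd` and `|P(x,0)| ≤ |Q(x,0)|`: all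
`‖c_ij‖ ≤ (e^L/κ')^i (e^L/r)^j`, so `BCC` with `K = e^L` and `BTC (2)` give a band of radii `κ' e^(-L)/32 ≥ κ e^(-L)/50`, `r e^(-L)/8`; otherwise exchange `P` and `Q`. -/
def BTR_stmt : Prop :=
  ∃ C : ℝ, 0 < C ∧ ∀ (P Q : ℂ × ℂ → ℂ) (V : ℂ → ℝ) (E B κ r L γ : ℝ), ND P Q E → ContDiffOn ℝ ∞ V (ball 0 1) → (∀ x ∈ ball (0 : ℂ) 1, 0 ≤ lap V x) → 0 ≤ B →
    (∀ x ∈ ball (0 : ℂ) 1, |V x - Up (sl P 0) (sl Q 0) x| ≤ B) → 0 < κ → κ ≤ 1 → 0 < r → r ≤ 1 → 1 ≤ L → L ≤ E → 0 ≤ γ →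
    ∫⁻ x0 in {x0 : ℂ | x0 ∈ ball (0 : ℂ) (1 / 5) ∧ ¬ ∃ Y : ℂ × ℂ → ℂ, Band P Q (ball 0 1) κ r x0 Y}, ENNReal.ofReal (sph (sl P 0) (sl Q 0) x0) ≤ ENNReal.ofReal γ →
    ∃ Bd : Set ℂ, MeasurableSet Bd ∧
      (∀ x0 ∈ ball (0 : ℂ) (1 / 6), x0 ∉ Bd → ∃ Y : ℂ × ℂ → ℂ, Band P Q (ball 0 1 ∩ ball x0 (1 / 3)) (κ * Real.exp (-L) / 50) (r * Real.exp (-L) / 8) x0 Y) ∧
      ∫ x in Bd ∩ ball 0 (1 / 6), lap V x ≤ C * (γ + (1 + B) * E / L)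

end Pool.Agent.P2B
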