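import Pool.Agent.helper15.P2.SpecC

set_option autoImplicit false

/-!
# Project P2 (MP_063734_an), block BAND, part 3: thin bands, final statement `BND` of the block

Rows `p2:B..`: prove `X_stmt` in `Pool/Agent/<seat>/P2/X.lean`, `import Pool.Agent.helper15.P2.SpecD`, `namespace Pool.Agent.P2B`,
`open Pool.Agent.P2 Pool.Agent.P2I`, auxiliary lemmas prefixed `X_`.

`F` is a holomorphic map of the bidisc to `ℂ³` (a lift of an iterate in tube coordinates), `G` a plurisubharmonic logarithmically homogeneous potential on a cone `Ω` (potential of the finer level), `V = G ∘ F`. `zb F x0 Y` is the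
third coordinate of `F` along a band, in the frame of the base point. `MA (G ∘ F) ((1/2) log nq F)` is the area density of `F` against the finer current. If the area is small then for most points the third coordinate is
nearly constant in `v` along the band.
-/

open scoped ContDiff Topology ComplexConjugate ENNReal
open MeasureTheory Filter Set Metric

namespace Pool.Agent.P2B

open Pool.Agent.P2 Pool.Agent.P2I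

/-- a plurisubharmonic, logarithmically homogeneous potential on a cone -/
structure CD (Ω : Set E3) (G : E3 → ℝ) (C0 α : ℝ) : Prop where
  op : IsOpen Ω
  sc : ∀ Z ∈ Ω, ∀ a : ℂ, a ≠ 0 → a • Z ∈ Ω
  nn : ∀ Z ∈ Ω, 0 < pq Z ∧ nq Z ≤ C0 * pq Z
  sm : ContDiffOn ℝ ∞ G Ω
  ps : ∀ Z ∈ Ω, ∀ X : E3, 0 ≤ lev G Z X
  hg : ∀ Z ∈ Ω, ∀ a : ℂ, a ≠ 0 → G (a • Z) = G Z + Real.log ‖a‖
  bd : ∀ Z ∈ Ω, |G Z - (1 / 2) * Real.log (pq Z)| ≤ C0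
  ho : ∀ Z ∈ Ω, ∀ Z' ∈ Ω, ‖Z - Z'‖ ≤ (1 / 2) * ‖Z‖ → |G Z - G Z'| ≤ C0 * (‖Z - Z'‖ / ‖Z‖) ^ α

/-- norm of the first two components at the base point -/
noncomputable def nr (F : ℂ × ℂ → E3) (x0 : ℂ) : ℝ := Real.sqrt (pq (F (x0, 0)))

/-- the third coordinate along a band, in the frame of the base point -/
noncomputable def zb (F : ℂ × ℂ → E3) (x0 : ℂ) (Y : ℂ × ℂ → ℂ) (p : ℂ × ℂ) : ℂ :=
  F (Y p, p.2) 2 * (nr F x0 : ℂ) / (F (Y p, p.2) 0 * conj (F (x0, 0) 0) + F (Y p, p.2) 1 * conj (F (x0, 0) 1))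

/-- the vector with frame coordinates `1, t, z` -/
noncomputable def fv (F : ℂ × ℂ → E3) (x0 t z : ℂ) : E3 :=
  ![(F (x0, 0) 0 - t * conj (F (x0, 0) 1)) / (nr F x0 : ℂ), (F (x0, 0) 1 + t * conj (F (x0, 0) 0)) / (nr F x0 : ℂ), z]

/-- the local data: `F` holomorphic on the bidisc with values in `Ω`, normalised first two components -/
structure FD (Ω : Set E3) (F : ℂ × ℂ → E3) (E : ℝ) : Prop where
  df : DifferentiableOn ℂ F BI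
  mem : ∀ p ∈ BI, F p ∈ Ω
  nd : ND (fun p => F p 0) (fun p => F p 1) E

/-- area density of `F` against `dd^c (G ∘ F)` -/
noncomputable def ard (G : E3 → ℝ) (F : ℂ × ℂ → E3) (p : ℂ × ℂ) : ℝ := MA (fun q => G (F q)) (fun q => (1 / 2) * Real.log (nq (F q))) p

/-- Row BMP. Proof. (1) Chain rule for the Levi form: `lev (A ∘ Ψ) p a = lev A (Ψ p) (Ψ'(p) a)` (as row `CHN`); `lev A p ·` is a Hermitian form whose matrix is `lev (1,0), lev (0,1), lre + i lim` (polarisation), and the mixed discriminant is multiplied by `|det Ψ'|²`. (2) For Hermitian forms `A, B ≥ 0`: `|A₁₂|² ≤ A₁₁A₂₂`,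
`|B₁₂|² ≤ B₁₁B₂₂`, so `2|A₁₂||B₁₂| ≤ 2 (A₁₁B₂₂ A₂₂B₁₁)^(1/2) ≤ A₁₁B₂₂ + A₂₂B₁₁`. (3) If `B - c|·|² ≥ 0` then by (2) and bilinearity `MA(A,B) ≥ c (A₁₁ + A₂₂)`. (4) for `A ≥ 0`: `lev A p (1, z) ≤ 2 (A₁₁ + |z|² A₂₂)`. (Express everything by the numbers `lev (1,0)`, `lev (0,1)`, `lre`, `lim` and
the identity `lev A p (a₁,a₂) = |a₁|² A₁₁ + |a₂|² A₂₂ + 2 Re(a₁ conj(a₂) A₁₂)`.) -/
def BMP_stmt : Prop :=
  (∀ (O : Set (ℂ × ℂ)) (Ψ : ℂ × ℂ → ℂ × ℂ) (A B : ℂ × ℂ → ℝ) (p : ℂ × ℂ), IsOpen O → DifferentiableOn ℂ Ψ O → p ∈ O → ContDiffAt ℝ 2 A (Ψ p) → ContDiffAt ℝ 2 B (Ψ p) →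
    MA (fun q => A (Ψ q)) (fun q => B (Ψ q)) p =
      Complex.normSq ((fderiv ℂ Ψ p (1, 0)).1 * (fderiv ℂ Ψ p (0, 1)).2 - (fderiv ℂ Ψ p (0, 1)).1 * (fderiv ℂ Ψ p (1, 0)).2) * MA A B (Ψ p)) ∧
  (∀ (A B : ℂ × ℂ → ℝ) (p : ℂ × ℂ), ContDiffAt ℝ 2 A p → ContDiffAt ℝ 2 B p → (∀ a, 0 ≤ lev A p a) → (∀ a, 0 ≤ lev B p a) → 0 ≤ MA A B p) ∧
  (∀ (A B : ℂ × ℂ → ℝ) (p : ℂ × ℂ) (c : ℝ), ContDiffAt ℝ 2 A p → ContDiffAt ℝ 2 B p → 0 ≤ c → (∀ a, 0 ≤ lev A p a) →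
    (∀ a : ℂ × ℂ, c * (Complex.normSq a.1 + Complex.normSq a.2) ≤ lev B p a) → c * (lev A p (1, 0) + lev A p (0, 1)) ≤ MA A B p) ∧
  (∀ (A : ℂ × ℂ → ℝ) (p : ℂ × ℂ) (z : ℂ), ContDiffAt ℝ 2 A p → (∀ a, 0 ≤ lev A p a) → lev A p (1, z) ≤ 2 * (lev A p (1, 0) + Complex.normSq z * lev A p (0, 1)))

/-- Row BZB (from CHN CH1 BSL BUQ): the third coordinate along a band. Notation `P₀, Q₀`: first two components at `(x0,0)`, `n₀ = nr F x0`, `L(p) = (F₀ conj P₀ + F₁ conj Q₀)/n₀` at `(Y p, p.2)`. Proof. The equation of the band and `L ≠ 0` (`BUQ`) give `F(Y p, p.2) = L(p) • fv F x0 p.1 (zb F x0 Y p)` (the vectors `(P₀,Q₀)/n₀` and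
`(-conj Q₀, conj P₀)/n₀` are orthonormal). `pq = |L|²(1+|t|²)`, `nq ≤ C0 pq`: `|zb|² ≤ 2 C0`. So `W = G(fv..) = G(F(Y p, p.2)) - log|L|`: smooth (`fv.. ∈ Ω`), `|W| ≤ C0 + 1` as `pq (fv ..) = 1 + |t|² ∈ [1,2]`. Hoelder: `fv` for `v` and `v'` differ by `|zb - zb'|` in the last component, and `‖fv‖ ≥ 1/2`; if the difference is too large for `ho` the bound by
`2(C0+1)` suffices. `log|L|` is harmonic in `t`, so `lap_t W = lap_t (G∘F)(Y(t,v),v) = |Y_t|² lap(G(F(·,v)))` (`CH1`), and this is `≥ 0` by `ps` (`CHN`). -/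
def BZB_stmt : Prop :=
  ∀ C0 α : ℝ, 1 ≤ C0 → 0 < α → α ≤ 1 → ∃ C1 : ℝ, 1 ≤ C1 ∧ ∀ (Ω : Set E3) (G : E3 → ℝ) (F : ℂ × ℂ → E3) (E κ r : ℝ) (x0 : ℂ) (Y : ℂ × ℂ → ℂ),
    CD Ω G C0 α → FD Ω F E → x0 ∈ ball (0 : ℂ) 1 → 0 < κ → κ ≤ 1 → 0 < r → r ≤ 1 → Band (fun p => F p 0) (fun p => F p 1) (ball 0 1) κ r x0 Y →
    DifferentiableOn ℂ (zb F x0 Y) (ball (0 : ℂ) κ ×ˢ ball (0 : ℂ) r) ∧
    ContDiffOn ℝ ∞ (fun p : ℂ × ℂ => G (fv F x0 p.1 (zb F x0 Y p))) (ball (0 : ℂ) κ ×ˢ ball (0 : ℂ) r) ∧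
    ∀ t ∈ ball (0 : ℂ) κ, ∀ v ∈ ball (0 : ℂ) r, ‖zb F x0 Y (t, v)‖ ≤ C1 ∧ fv F x0 t (zb F x0 Y (t, v)) ∈ Ω ∧
      F (Y (t, v), v) = ((F (Y (t, v), v) 0 * conj (F (x0, 0) 0) + F (Y (t, v), v) 1 * conj (F (x0, 0) 1)) / (nr F x0 : ℂ)) • fv F x0 t (zb F x0 Y (t, v)) ∧
      |G (fv F x0 t (zb F x0 Y (t, v)))| ≤ C1 ∧
      (∀ v' ∈ ball (0 : ℂ) r, |G (fv F x0 t (zb F x0 Y (t, v))) - G (fv F x0 t (zb F x0 Y (t, v')))| ≤ C1 * ‖zb F x0 Y (t, v) - zb F x0 Y (t, v')‖ ^ α) ∧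
      lap (fun s => G (fv F x0 s (zb F x0 Y (s, v)))) t = Complex.normSq (deriv (fun s => Y (s, v)) t) * lap (fun x => G (F (x, v))) (Y (t, v)) ∧
      0 ≤ lap (fun x => G (F (x, v))) (Y (t, v))

/-- Row BZD (from CHN LSE BMP BZB): lower bound of the area on a band. Proof. `Ψ(t,v) = (Y(t,v), v)` has determinant `Y_t`; so by `BMP` (1) the right side is `MA (G∘F∘Ψ) (S∘F∘Ψ)`, `S = (1/2) log nq`. On the band `G∘F∘Ψ = log|L| + ĝ∘Θ` and `S∘F∘Ψ = log|L| + σ∘Θ` with `Θ(t,v) = (t, zb(t,v))`, `ĝ(t,z) = G(fv F x0 t z)`,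
`σ(t,z) = (1/2) log(1+|t|²+|z|²)`; `log|L|` is pluriharmonic (zero Levi form), so it can be dropped, and by `BMP` (1) `MA(ĝ∘Θ, σ∘Θ) = |∂_v zb|² MA(ĝ,σ)(Θ)`. `ĝ` is defined and plurisubharmonic near `Θ` (`Ω` open, `ps`, `fv` is affine in `(t,z)`), the Levi form of `σ` is at least `|a|²/(2(1+|t|²+|z|²)²) ≥ c' |a|²`, `c' = 1/(2(2+C1²)²)` (explicit
formula, Cauchy-Schwarz). `BMP` (3): `MA(ĝ,σ) ≥ c'(ĝ_tt + ĝ_zz)`. And `lap_t (ĝ∘Θ)(·,v) = lev ĝ Θ (1, ∂_t zb) ≤ 2(ĝ_tt + |∂_t zb|² ĝ_zz)` (`BMP` (4)), `|∂_t zb| ≤ C1/(κ/2)` for `|t| < κ/2` (Cauchy), so `ĝ_tt + ĝ_zz ≥ lap_t/(2(1+4C1²/κ²)) ≥ κ² lap_t/(10 C1²)`. -/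
def BZD_stmt : Prop :=
  ∀ C0 α : ℝ, 1 ≤ C0 → 0 < α → α ≤ 1 → ∃ c : ℝ, 0 < c ∧ ∀ (Ω : Set E3) (G : E3 → ℝ) (F : ℂ × ℂ → E3) (E κ r : ℝ) (x0 : ℂ) (Y : ℂ × ℂ → ℂ),
    CD Ω G C0 α → FD Ω F E → x0 ∈ ball (0 : ℂ) 1 → 0 < κ → κ ≤ 1 → 0 < r → r ≤ 1 → Band (fun p => F p 0) (fun p => F p 1) (ball 0 1) κ r x0 Y →
    (∀ p ∈ BI, 0 ≤ ard G F p) ∧ ∀ t ∈ ball (0 : ℂ) (κ / 2), ∀ v ∈ ball (0 : ℂ) r,
      c * κ ^ 2 * (Complex.normSq (deriv (fun w => zb F x0 Y (t, w)) v) * lap (fun s => G (fv F x0 s (zb F x0 Y (s, v)))) t) ≤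
        Complex.normSq (deriv (fun s => Y (s, v)) t) * ard G F (Y (t, v), v)

/-- Row BC2 (from IB1): second cut-off lemma. Proof: `∫ χ S lap v = ∫ v lap(χ S)` and `|lap(χS)| ≤ χ lap S + |S||lap χ| + |∇χ||∇S|`. `∫ χ lap S = ∫ S lap χ ≤ C a`; for a cut-off `χ₁` (`1` on `tsupport χ`, support in `ball 0 (4/5)`) `lap(S²) = 2 S lap S + (1/2)|∇S|²` gives `∫ χ₁|∇S|² ≤ 2∫ |lap χ₁| S² + 4 ∫ χ₁ |S| lap S ≤ C a` (`|S| ≤ 1`), so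
`∫ |∇χ||∇S| ≤ C a^(1/2)` (Cauchy-Schwarz). `a ≤ C a^(1/2)` because one may assume `a ≤ π`. -/
def BC2_stmt : Prop :=
  ∀ χ : ℂ → ℝ, ContDiff ℝ ∞ χ → HasCompactSupport χ → tsupport χ ⊆ ball 0 (4 / 5) → (∀ z, 0 ≤ χ z) → ∃ C : ℝ, 0 < C ∧
    ∀ (S v : ℂ → ℝ) (a B : ℝ), ContDiffOn ℝ ∞ S (ball 0 1) → ContDiffOn ℝ ∞ v (ball 0 1) → (∀ z ∈ ball (0 : ℂ) 1, 0 ≤ lap S z ∧ |S z| ≤ 1 ∧ |v z| ≤ B) →
      0 ≤ B → 0 ≤ a → ∫ z in ball (0 : ℂ) (4 / 5), |S z| ≤ a → |∫ z, χ z * S z * lap v z| ≤ C * B * Real.sqrt a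

/-- Row BTW (from LSE LGA BC2): two constants with a measure. Proof. `χ = 1` on `ball 0 (3/4)`, support in `ball 0 (4/5)`. Suppose `‖φ z₁‖ > e^(-cK)`, `|z₁| < 1/2`. As in `LGW` (twice `LGA` with `M = 0`: first around `z₁` with radius `48/100`, then around a point `z₂`, `|z₂| ≤ 4/100`, with `|log|φ(z₂)|| ≤ C cK`): `∫_(ball 0 (4/5)) |log|φ|| ≤ C₁ c K`. Let
`S = (1/(4K)) (log(e^(-2K) + |φ|²) - log(1 + e^(-2K)))`: smooth, subharmonic (`LSE` at every point after translation, or the explicit formula `lap log(ε+|φ|²) = ε|φ'|²/(ε+|φ|²)²`), `-1 ≤ S ≤ 0`, `|S| ≤ (1/(2K))(|log|φ|| + 1)` (off the zeros), so `∫_(ball 0 (4/5)) |S| ≤ C(c + 1/K)`; and `S ≤ -1/4` where `|φ| ≤ e^(-K)` (`K ≥ 1`). So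
`-∫ χ S lap v ≥ δ/4`, against `BC2`: `≤ C B (c + 1/K)^(1/2)`. Contradiction for small `c` and large `K`. -/
def BTW_stmt : Prop :=
  ∀ B δ : ℝ, 0 < B → 0 < δ → ∃ c K0 : ℝ, 0 < c ∧ ∀ (φ : ℂ → ℂ) (v : ℂ → ℝ) (K : ℝ), DifferentiableOn ℂ φ (ball 0 1) → (∀ z ∈ ball (0 : ℂ) 1, ‖φ z‖ ≤ 1) →
    ContDiffOn ℝ ∞ v (ball 0 1) → (∀ z ∈ ball (0 : ℂ) 1, 0 ≤ lap v z ∧ |v z| ≤ B) → K0 ≤ K →
    δ ≤ ∫ z in ball (0 : ℂ) (3 / 4) ∩ {z | ‖φ z‖ ≤ Real.exp (-K)}, lap v z → ∀ z ∈ ball (0 : ℂ) (1 / 2), ‖φ z‖ ≤ Real.exp (-(c * K))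

/-- Row BT1 (from IB1 BJE BTW): a band of small area is thin (normalised, pure complex analysis). Proof. `Z_v = ∂_v Z`, `|Z_v| ≤ 2M` for `|v| < 1/2`. (1) `θ` a cut-off, `1` on `ball 0 (1/2)`, support in `ball 0 (5/8)`: `m(v) = ∫ θ lap_t W(·,v) = ∫ lap θ W(·,v)`, `|m(v) - m(0)| ≤ C M (2M|v|)^α`, so there is `R₁ ≤ 1/4` (depending on `M, α, δ`) with
`∫_(ball 0 (5/8)) lap W(·,v) ≥ m(v) ≥ δ/2` for `|v| < R₁`. (2) The set of `v ∈ ball 0 R₁` with `J(v) = ∫_(ball 0 (9/10)) |Z_v|² lap_t W dt > η^(1/2)` has area `≤ η^(1/2)`. For the other `v`: the mass of `{t ∈ ball 0 (5/8) : |Z_v| > η^(1/8)}` is `≤ η^(1/4) ≤ δ/4`, so `BTW` with `φ = Z_v(·,v)/(2M)`, `δ/4`, `e^(-K) = η^(1/8)/(2M)`: `|Z_v| ≤ η₁` on `ball 0 (1/2)`,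
`η₁ = 2M e^(-cK) → 0` as `η → 0`. (3) For `|v| < R₁/2`: `|Z_v(t,v)|² ≤` average over `ball v (R₁/2)` `≤ η₁² + 16 M² η^(1/2)/(π R₁²) =: η₂²`. (4) For `|v| < 1/8`: `BJE` on `ball v (1/4)`, which contains `ball 0 (R₁/2)`: `log|Z_v(t,v)| ≤ 4R₁² log η₂ + log(2M)` (if `η₂ < 1`; the fraction of the area is `(R₁/2)²·16 = 4 R₁²`), so `|Z_v| ≤ η₃ → 0`;
integrate from `0` to `v`. Choose `η` with `η₃ ≤ σ`. -/
def BT1_stmt : Prop :=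
  ∀ M α δ σ : ℝ, 1 ≤ M → 0 < α → α ≤ 1 → 0 < δ → 0 < σ → ∃ η : ℝ, 0 < η ∧ ∀ (Z : ℂ × ℂ → ℂ) (W : ℂ × ℂ → ℝ), DifferentiableOn ℂ Z BI → ContDiffOn ℝ ∞ W BI →
    (∀ p ∈ BI, ‖Z p‖ ≤ M ∧ |W p| ≤ M ∧ 0 ≤ lap (fun s => W (s, p.2)) p.1) →
    (∀ t ∈ ball (0 : ℂ) 1, ∀ v ∈ ball (0 : ℂ) 1, ∀ v' ∈ ball (0 : ℂ) 1, |W (t, v) - W (t, v')| ≤ M * ‖Z (t, v) - Z (t, v')‖ ^ α) →
    δ ≤ ∫ t in ball (0 : ℂ) (1 / 2), lap (fun s => W (s, 0)) t →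
    ∫⁻ p in ball (0 : ℂ) (9 / 10) ×ˢ ball (0 : ℂ) (9 / 10), ENNReal.ofReal (Complex.normSq (deriv (fun w => Z (p.1, w)) p.2) * lap (fun s => W (s, p.2)) p.1) ≤ ENNReal.ofReal η →
    ∀ t ∈ ball (0 : ℂ) (1 / 2), ∀ v ∈ ball (0 : ℂ) (1 / 8), ‖Z (t, v) - Z (t, 0)‖ ≤ σ

/-- Row BIC (from BSL BUQ BBS): covering by families of disjoint bands. Proof: choose finitely many points `c_1..c_q` of the sphere such that every point is at tangent distance `< κ/40` from one of them (`q` depends on `κ` only). `T_j` = the points `y = Y_x(t_j, 0)`, `x ∈ N`, where `c_j` has the coordinate `t_j`, `|t_j| < κ/40`, around `(P,Q)(x,0)`: then `(P,Q)(y,0)` is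
a multiple of `c_j`; these points are isolated (`W ≠ 0`), so `T_j` is countable. `BBS` gives bands `Yb y` of radii `(κ/2, r)` (`|s + t_j| < 0.53 κ < κ|1 - conj t_j s|`), with values in `ball 0 1 ∩ ball x (1/3) ⊆ ball 0 (1/2)`, and `x = Yb y (t, 0)` with `|t| < κ/32`. If `Yb y (t,v) = Yb y' (t',v)` for `y, y' ∈ T_j` then (same fibre; the frames differ by a unimodular number) `t' = l t` and
the two bands agree everywhere (closed and open, `BUQ`), so `y = y'`. -/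
def BIC_stmt : Prop :=
  ∀ κ : ℝ, 0 < κ → κ ≤ 1 / 8 → ∃ q : ℕ, ∀ (P Q : ℂ × ℂ → ℂ) (E r : ℝ) (N : Set ℂ), ND P Q E → 0 < r → r ≤ 1 → N ⊆ ball 0 (1 / 6) →
    (∀ x ∈ N, ∃ Y : ℂ × ℂ → ℂ, Band P Q (ball 0 1 ∩ ball x (1 / 3)) κ r x Y) →
    ∃ (T : Fin q → Set ℂ) (Yb : ℂ → ℂ × ℂ → ℂ), (∀ j, (T j).Countable ∧ ∀ y ∈ T j, y ∈ ball (0 : ℂ) (1 / 2) ∧ Band P Q (ball 0 (1 / 2)) (κ / 2) r y (Yb y)) ∧
      (∀ j, ∀ y ∈ T j, ∀ y' ∈ T j, y ≠ y' → ∀ t ∈ ball (0 : ℂ) (κ / 2), ∀ t' ∈ ball (0 : ℂ) (κ / 2), ∀ v ∈ ball (0 : ℂ) r, Yb y (t, v) ≠ Yb y' (t', v)) ∧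
      ∀ x ∈ N, ∃ j, ∃ y ∈ T j, ∃ t ∈ ball (0 : ℂ) (κ / 32), Yb y (t, 0) = x

/-- Row BFI (from CH1 IB1 ISA BSL BUQ BBS BZB BZD BT1 BIC): most bands are thin. Proof. `V = G(F(·,0))`, `B = C0` (`bd`). `N` = the points of `ball 0 (1/6)` with a band as in the hypothesis but without a thin band. `T_j`, `Yb` from `BIC`, `J_y = Yb y (ball 0 (κ/32) × {0})`. CLAIM: if (i) the `V`-mass of `Yb y (ball 0 (κ/8) × {0})` is `≥ δ` and (ii) the integral of `ard` over `Ψ_y(ball 0 (κ/2) × ball 0 r)`, `Ψ_y(t,v) = (Yb y (t,v), v)`, is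
`≤ η₁`, then no point of `J_y` is in `N`. Indeed apply `BT1` (with `σ/4`) to `Z(t',v') = zb F y (Yb y) ((κ/4)t', r v')`, `W(t',v') = G(fv ..)` at the same point, `M = C1` of `BZB`: the mass condition is (i) (change of variables, `BZB`), and the integral of `|∂_(v')Z|² lap_(t')W` is the integral of `|∂_v zb|² lap_t W` over `|t| < κ/4`, `|v| < r`, at most `(4/(cκ²)) η₁` (`BZD` with `κ/2`, change of
variables with Jacobian `|Y_t|²`, `Ψ_y` injective): so `|zb(t,v) - zb(t,0)| ≤ σ/4` for `|t| < κ/8`, `|v| < r/8`. For `x = Yb y (t₀,0)`, `|t₀| < κ/32`, `BBS` gives the band at `x` of radii `(κ/16, r/16)`; its `zb` is the one of `y` times a factor depending only on `t`, of modulus `√(1+|t₀|²)/|1+t conj t₀| ≤ 2`: thin. COUNT: for fixed `j` the sets `Yb y(ball 0 (κ/2) × {0})` are disjoint subsets of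
`ball 0 (1/2)` with `∫ sph = ∫_(|t|<κ/2) (1+|t|²)⁻² ≥ κ²/2` (`BUQ`), and `∫_(ball 0 (1/2)) sph ≤ C E` (`CH1`, `IB1`): at most `2 C E/κ²` elements; those violating (i) have together `V`-mass of the `J_y` at most `2 C E δ/κ²`. Those violating (ii): at most `ηE/η₁` (disjoint `Ψ_y`-images in `ball 0 (1/2) × ball 0 r`), `V(J_y) ≤ C(1+C0)` (`ISA`; slice `v = 0` of the band is a branch). `Bd` = union of the `J_y` for the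
violating `y` (open sets). Choose `δ`, then `η₁`, then `η`. -/
def BFI_stmt : Prop :=
  ∀ C0 α κ r σ ε : ℝ, 1 ≤ C0 → 0 < α → α ≤ 1 → 0 < κ → κ ≤ 1 / 8 → 0 < r → r ≤ 1 → 0 < σ → 0 < ε → ∃ η : ℝ, 0 < η ∧ ∀ (Ω : Set E3) (G : E3 → ℝ) (F : ℂ × ℂ → E3) (E : ℝ),
    CD Ω G C0 α → FD Ω F E → ∫⁻ p in ball (0 : ℂ) (1 / 2) ×ˢ ball (0 : ℂ) r, ENNReal.ofReal (ard G F p) ≤ ENNReal.ofReal (η * E) →
    ∃ Bd : Set ℂ, MeasurableSet Bd ∧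
      (∀ x ∈ ball (0 : ℂ) (1 / 6), x ∉ Bd → (∃ Y : ℂ × ℂ → ℂ, Band (fun p => F p 0) (fun p => F p 1) (ball 0 1 ∩ ball x (1 / 3)) κ r x Y) →
        ∃ Y : ℂ × ℂ → ℂ, Band (fun p => F p 0) (fun p => F p 1) (ball 0 (1 / 2)) (κ / 16) (r / 16) x Y ∧
          ∀ t ∈ ball (0 : ℂ) (κ / 16), ∀ v ∈ ball (0 : ℂ) (r / 16), ‖zb F x Y (t, v) - zb F x Y (t, 0)‖ ≤ σ) ∧
      ∫ x in Bd ∩ ball 0 (1 / 6), lap (fun x => G (F (x, 0))) x ≤ ε * E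

/-- Row BND (from UNUL USNG CHN CH1 BSL BMP BSH BOW BTR BFI): FINAL STATEMENT of the block, in the coordinates of `SpecU` (`|x| < 4`, `|v| < τ`). Proof. `BSH`: the measure of `NN P Q (s/6) ∩ ball 0 (2/5)` is `≤ D(β + C s^α)`, `P, Q` = first two components. Put `F'(x,v) = e^(-D u(0,0)) F(2x, (s/6)v)` on `BI`: `FD Ω F' E` with `E = 3 C0 D` (`Dat`; `D ≥ 1`).
For almost all `x'` (with respect to `sph`) with `x = 2x' ∈ ball 0 (2/5)`, `x ∉ NN P Q (s/6)`, the branch `X̃` of `SpecU` over `ball 0 (s/6)` gives the sheet `X(v) = X̃((s/6)v)/2` (`Sht`): `W ≠ 0` along it, because otherwise `cx = 0` and (differentiating the equation) `cv = 0` at some point, so that the value `P/Q` is critical, which happens for a null set of values (`UNUL`, `USNG`;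
preimage under the slice map, where its derivative is not `0`). So by `BOW` the `sph`-measure of the `x' ∈ ball 0 (1/5)` without a band of radii `(κ/4, 1/4)` is at most `γ = D(β + C s^α) + C E κ² + 4`. `BTR` (`V = G(F'(·,0))`, `B = C0` by `bd`, `V` smooth subharmonic by `CHN`; `L ≤ E`): outside `Bd₁` of `V`-mass `≤ C(γ + (1+C0)E/L)` there are bands of radii `(κe^(-L)/200, e^(-L)/32)` with values in
`ball 0 1 ∩ ball x (1/3)`. `BFI` with these radii, `σ` and `ε/(3C0)`: thin bands of radii `(κe^(-L)/3200, e^(-L)/512)` outside `Bd₁ ∪ Bd₂`. Area: `ard G F'` at `(x,v)` is `|2 s/6|² ard G F` at `(2x, (s/6)v)` (`BMP` (1); the factor `e^(-Du)` only adds constants to both functions), so its integral over `ball 0 (1/2) × ball 0 r` is the integral of `ard G F` over the image, which is in `TB 1 s`. Go back: `Y_real(t,v) = 2 Y(t,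 6v/s)`,
`(s/6)e^(-L)/512 ≥ s e^(-L)/3200`; `zb` does not change (the constant factor cancels); `∫ lap` over discs is invariant under `x = 2x'`. `D0` large: `4 ≤ ε D`, `L ≤ D`. -/
def BND_stmt : Prop :=
  ∀ C0 α : ℝ, 1 ≤ C0 → 0 < α → α ≤ 1 → ∃ C : ℝ, 0 < C ∧ ∀ κ L s σ ε : ℝ, 0 < κ → κ ≤ 1 / 4 → 1 ≤ L → 0 < s → s ≤ 1 / 40 → 0 < σ → 0 < ε →
    ∃ η D0 : ℝ, 0 < η ∧ 0 < D0 ∧ ∀ (Ω : Set E3) (G : E3 → ℝ) (F : ℂ × ℂ → E3) (u : ℂ × ℂ → ℝ) (D τ β : ℝ) (b : ℂ), CD Ω G C0 α →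
      (∀ p ∈ P2U.TB 4 τ, F p ∈ Ω) → DifferentiableOn ℂ F (P2U.TB 4 τ) → P2U.Dat (fun p => F p 0) (fun p => F p 1) u D C0 α τ → τ ≤ 1 → s ≤ τ / 4 → 1 / s ≤ D → D0 ≤ D →
      0 ≤ β → ‖b‖ < s ^ 2 → MeasurableSet (P2U.NN (P2U.sh b (fun p => F p 0)) (P2U.sh b (fun p => F p 1)) (s / 4)) →
      ∫⁻ x in P2U.NN (P2U.sh b (fun p => F p 0)) (P2U.sh b (fun p => F p 1)) (s / 4),
        ENNReal.ofReal (‖P2U.cx (P2U.sh b (fun p => F p 0)) (P2U.sh b (fun p => F p 1)) (x, 0)‖ ^ 2 * P2U.om (P2U.sh b (fun p => F p 0)) (P2U.sh b (fun p => F p 1)) (x, 0)) ≤ ENNReal.ofReal (D * β) →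
      ∫⁻ p in P2U.TB 1 s, ENNReal.ofReal (ard G F p) ≤ ENNReal.ofReal (η * D) →
      ∃ Bd : Set ℂ, MeasurableSet Bd ∧
        (∀ x ∈ ball (0 : ℂ) (1 / 3), x ∉ Bd → ∃ Y : ℂ × ℂ → ℂ,
          Band (fun p => F p 0) (fun p => F p 1) (ball 0 1) (κ * Real.exp (-L) / 3200) (s * Real.exp (-L) / 3200) x Y ∧
          ∀ t ∈ ball (0 : ℂ) (κ * Real.exp (-L) / 3200), ∀ v ∈ ball (0 : ℂ) (s * Real.exp (-L) / 3200), ‖zb F x Y (t, v) - zb F x Y (t, 0)‖ ≤ σ) ∧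
        ∫ x in Bd ∩ ball 0 (1 / 3), lap (fun x => G (F (x, 0))) x ≤ C * D * (β + s ^ α + κ ^ 2 + 1 / L + ε)

end Pool.Agent.P2B
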