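import Pool.Agent.helper37.P2.SpecA

set_option autoImplicit false

/-!
# Project P2 (MP_063734_an), block ISL: islands of holomorphic maps of the disc to the sphere (one complex variable)

Rows `p2:I..`: prove `X_stmt` in `Pool/Agent/<seat>/P2/X.lean`, `import Pool.Agent.helper15.P2.SpecI`, namespace `Pool.Agent.P2I` (with `open Pool.Agent.P2`),
auxiliary lemmas prefixed `X_`. The theorem has the rows listed after the word from as hypotheses, in this order.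

`P, Q` are holomorphic on the unit disc without common zero, `h = P/Q` is a map to the sphere. The sphere carries the tangent coordinate
around the point `(P z : Q z)`: `t` stands for the point `(P z - t conj(Q z) : Q z + t conj(P z))`. `Hz P Q z x` is the coordinate of
`(P x : Q x)` around `(P z : Q z)`. An inverse branch through `z` of radius `τ` is a holomorphic `X` on `|t| < τ` with `X 0 = z` and
`Hz P Q z (X t) = t`. `rh P Q z` is the supremum of the radii `τ ≤ 1` of inverse branches through `z` with values in the unit disc.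
Main results: `IS1`, `IS2`, `IS3`, `IS4`.
-/

open scoped ContDiff Topology ComplexConjugate
open MeasureTheory Filter Set Metric

namespace Pool.Agent.P2I

open Pool.Agent.P2

/-- `W = Q P' - P Q'` -/
noncomputable def Wr (P Q : ℂ → ℂ) (z : ℂ) : ℂ := Q z * deriv P z - P z * deriv Q z

/-- `(1/2) log(|P|²+|Q|²)` -/
noncomputable def Up (P Q : ℂ → ℂ) (z : ℂ) : ℝ := (1 / 2) * Real.log (Complex.normSq (P z) + Complex.normSq (Q z))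

/-- square of the spherical derivative of `P/Q` -/
noncomputable def sph (P Q : ℂ → ℂ) (z : ℂ) : ℝ :=
  Complex.normSq (Wr P Q z) / (Complex.normSq (P z) + Complex.normSq (Q z)) ^ 2

/-- tangent coordinate of `(P x : Q x)` around `(P z : Q z)` -/
noncomputable def Hz (P Q : ℂ → ℂ) (z x : ℂ) : ℂ := (Q x * P z - P x * Q z) / (P x * conj (P z) + Q x * conj (Q z))

/-- `X` is an inverse branch through `z`, of radius `τ`, with values in `S` -/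
def Br (P Q : ℂ → ℂ) (S : Set ℂ) (z : ℂ) (τ : ℝ) (X : ℂ → ℂ) : Prop :=
  DifferentiableOn ℂ X (ball 0 τ) ∧ X 0 = z ∧
    ∀ t ∈ ball (0 : ℂ) τ, X t ∈ S ∧ P (X t) * (Q z + t * conj (P z)) = Q (X t) * (P z - t * conj (Q z))

/-- univalence radius -/
noncomputable def rh (P Q : ℂ → ℂ) (z : ℂ) : ℝ := sSup {τ : ℝ | 0 ≤ τ ∧ τ ≤ 1 ∧ ∃ X : ℂ → ℂ, Br P Q (ball 0 1) z τ X}

/-- admissible data: `P, Q` holomorphic on the unit disc, no common zero -/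
def Adm (P Q : ℂ → ℂ) : Prop :=
  DifferentiableOn ℂ P (ball 0 1) ∧ DifferentiableOn ℂ Q (ball 0 1) ∧ ∀ z ∈ ball (0 : ℂ) 1, P z ≠ 0 ∨ Q z ≠ 0

/-- the function `-log ρ + (1/4) log(1 + r²/ρ²) + 4 log|W|` -/
noncomputable def Gr (P Q : ℂ → ℂ) (r : ℝ) (z : ℂ) : ℝ :=
  -Real.log (rh P Q z) + (1 / 4) * Real.log (1 + r ^ 2 / rh P Q z ^ 2) + 4 * Real.log ‖Wr P Q z‖

/-! ### Tools -/

/-- Row QOM (quantitative inverse function theorem). Proof: `A R ≤ M` by the Cauchy estimate. On `|x - z| < R/2` one has `|f''| ≤ 8M/R²`, so for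
`|x - z| < s := A R²/(16 M) ≤ R/16`: `|f'(x) - f'(z)| ≤ A/2`: `f` approximates the linear map `f'(z)` on `ball z s` with constant `A/2`
(`ApproximatesLinearOn`), hence it is injective there and `f(ball z s)` contains `ball (f z) (A s/2)`; the inverse of an injective holomorphic map is
holomorphic (`f' ≠ 0` there). -/
def QOM_stmt : Prop :=
  ∀ (f : ℂ → ℂ) (z : ℂ) (R M : ℝ), 0 < R → 0 < M → DifferentiableOn ℂ f (ball z R) → (∀ x ∈ ball z R, ‖f x - f z‖ ≤ M) →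
    deriv f z ≠ 0 → ∃ g : ℂ → ℂ, DifferentiableOn ℂ g (ball (f z) (‖deriv f z‖ ^ 2 * R ^ 2 / (32 * M))) ∧ g (f z) = z ∧
      ∀ y ∈ ball (f z) (‖deriv f z‖ ^ 2 * R ^ 2 / (32 * M)), g y ∈ ball z (R / 16) ∧ f (g y) = y

/-- Row AVG. Proof: (1) for `0 < s < δ` put `m(s) = ∫ θ in 0..2π, T(z + s e^(iθ))`; then `(s m')' = s ∫ ΔT(z + s e^(iθ)) dθ ≥ 0` (polar form of the
Laplacian, `∫ T_θθ = 0`), and `s m' → 0` for `s → 0`: so `m' ≥ 0`, `m(s) ≥ 2π T(z)`; integrate in polar coordinates. (2) Taylor of order two at `z`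
(uniformly small remainder `o(|x-z|²)`): odd terms and the trace free part of the second derivative have average `0`, and the average of
`|x - z|²` over the disc is `s²/2`. (3) Same with uniform continuity of the second derivative of `χ` (compact support). -/
def AVG_stmt : Prop :=
  (∀ (T : ℂ → ℝ) (z : ℂ) (δ : ℝ), ContDiffOn ℝ ∞ T (ball z δ) → (∀ x ∈ ball z δ, 0 ≤ lap T x) →
    ∀ s : ℝ, 0 < s → s < δ → T z ≤ ⨍ x in ball z s, T x) ∧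
  (∀ (T : ℂ → ℝ) (z : ℂ) (δ : ℝ), 0 < δ → ContDiffOn ℝ ∞ T (ball z δ) →
    ∀ ε : ℝ, 0 < ε → ∃ s0 : ℝ, 0 < s0 ∧ ∀ s : ℝ, 0 < s → s < s0 → |(⨍ x in ball z s, T x) - T z - s ^ 2 / 2 * lap T z| ≤ ε * s ^ 2) ∧
  (∀ χ : ℂ → ℝ, ContDiff ℝ ∞ χ → HasCompactSupport χ →
    ∀ ε : ℝ, 0 < ε → ∃ s0 : ℝ, 0 < s0 ∧ ∀ s : ℝ, 0 < s → s < s0 → ∀ z : ℂ, |(⨍ x in ball z s, χ x) - χ z - s ^ 2 / 2 * lap χ z| ≤ ε * s ^ 2)

/-- Row FAT (from AVG). Proof: for small `s` (smaller than the distance of `tsupport χ` to the complement of `Ω`, and than the `δ` of the compact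
set `tsupport χ`): `∫ χ(z) ((⨍_(ball z s) φ) - φ z) dz = ∫ φ(x) ((⨍_(ball x s) χ) - χ x) dx` (Fubini, `φ` bounded on a compact neighbourhood; both integrals only
involve points of `Ω`). Multiply by `2/s²` and let `s → 0`: the right side tends to `∫ φ lap χ` by part (3) of `AVG` (the integrand vanishes outside a
fixed compact neighbourhood of `tsupport χ`, where it converges uniformly); the left side has a nonnegative integrand whose lower limit is `≥ χ g`: Fatou. -/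
def FAT_stmt : Prop :=
  ∀ (Ω : Set ℂ) (φ g : ℂ → ℝ) (M : ℝ), IsOpen Ω → Measurable φ → Measurable g → (∀ z ∈ Ω, |φ z| ≤ M) → (∀ z ∈ Ω, 0 ≤ g z) →
    (∀ K : Set ℂ, IsCompact K → K ⊆ Ω → ∃ δ : ℝ, 0 < δ ∧ ∀ z ∈ K, ∀ s : ℝ, 0 < s → s < δ → φ z ≤ ⨍ x in ball z s, φ x) →
    (∀ z ∈ Ω, ∀ ε : ℝ, 0 < ε → ∃ s0 : ℝ, 0 < s0 ∧ ∀ s : ℝ, 0 < s → s < s0 → φ z + (g z - ε) * s ^ 2 / 2 ≤ ⨍ x in ball z s, φ x) →
    ∀ χ : ℂ → ℝ, ContDiff ℝ ∞ χ → HasCompactSupport χ → tsupport χ ⊆ Ω → (∀ z, 0 ≤ χ z) →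
      ∫⁻ z, ENNReal.ofReal (χ z * g z) ≤ ENNReal.ofReal (∫ z, lap χ z * φ z)

/-- Row IB1. Proof: multiply `T` by a cut-off which is `1` near `tsupport χ`; integrate by parts twice in each real direction. -/
def IB1_stmt : Prop :=
  ∀ (Ω : Set ℂ) (χ T : ℂ → ℝ), IsOpen Ω → ContDiff ℝ ∞ χ → HasCompactSupport χ → tsupport χ ⊆ Ω → ContDiffOn ℝ ∞ T Ω →
    ∫ z, χ z * lap T z = ∫ z, lap χ z * T z

/-- Row CH1 (chain rule). Proof: `X' ` is complex linear, so the Laplacian is multiplied by `|X'|²`, and the terms with `X''` cancel (`v = 1`, `v = i`: `X''·1 + X''·i² = 0`). Second part: `|W|²` and `(|P|²+|Q|²)²`: with `v = (P,Q)`,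
`∂∂bar log ‖v‖² = |v ∧ v'|²/‖v‖⁴`; smoothness because `‖v‖ ≠ 0`. -/
def CH1_stmt : Prop :=
  (∀ (Ω : Set ℂ) (X : ℂ → ℂ) (g : ℂ → ℝ) (t : ℂ), IsOpen Ω → DifferentiableOn ℂ X Ω → t ∈ Ω → ContDiffAt ℝ 2 g (X t) →
    lap (fun s => g (X s)) t = Complex.normSq (deriv X t) * lap g (X t)) ∧
  (∀ (Ω : Set ℂ) (P Q : ℂ → ℂ), IsOpen Ω → DifferentiableOn ℂ P Ω → DifferentiableOn ℂ Q Ω → (∀ z ∈ Ω, P z ≠ 0 ∨ Q z ≠ 0) →
    ContDiffOn ℝ ∞ (Up P Q) Ω ∧ ∀ z ∈ Ω, lap (Up P Q) z = sph P Q z / 2)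

/-- Row LGA. Proof: for `0 < s ≤ R` Jensen's formula gives `log‖f c‖ ≤` circle average of `log‖f‖` over `|z - c| = s`
(Mathlib: `circleAverage_log_norm`, circle integrability of `log‖f‖`), and `|log‖f‖| = 2 log⁺‖f‖ - log‖f‖ ≤ 2M - log‖f‖`; so every
circle average of `|log‖f‖|` is at most `2M - log‖f c‖`. Integrate in polar coordinates (Tonelli). -/
def LGA_stmt : Prop :=
  ∀ (f : ℂ → ℂ) (c : ℂ) (R R' M : ℝ), 0 < R → R < R' → 0 ≤ M → DifferentiableOn ℂ f (ball c R') → (∀ z ∈ ball c R', ‖f z‖ ≤ Real.exp M) →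
    f c ≠ 0 → ∫⁻ z in ball c R, ENNReal.ofReal |Real.log ‖f z‖| ≤ ENNReal.ofReal (Real.pi * R ^ 2 * (2 * M - Real.log ‖f c‖))

/-- Row LGW (from LGA). Proof: `|W| ≤ 2 e^E · e^E/δ` at distance `δ` from the unit circle (Cauchy estimates; `|P|, |Q| ≤ e^E`), so `|W| ≤ e^(6E)` on `ball 0 (19/20)` and `|W| ≤ e^(8E)` on `ball 0 (99/100)`. The area of
`ball 0 (1/2)` is `< 4`, so there is `z0` in it with `sph z0 ≥ 1`, i.e. `|W(z0)| ≥ |P|²+|Q|² ≥ e^(-2E)`. `LGA` with `c = z0`, `R = 48/100`, `R' = 49/100`: `∫_(ball z0 R) |log|W|| ≤ 18 π E`. This ball contains `ball y (1/100)` with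
`y = (3/100) z0/|z0|` (or `y = 0` if `|z0| < 3/100`), so there is `z1` with `|z1| ≤ 4/100`, `W z1 ≠ 0` and `|log|W(z1)|| ≤ 18·10⁴ E`. `LGA` with `c = z1`, `R = 86/100`, `R' = 9/10` (inside `ball 0 (19/20)`); its ball `ball z1 R` contains `ball 0 (4/5)`. -/
def LGW_stmt : Prop :=
  ∃ C : ℝ, 0 < C ∧ ∀ (P Q : ℂ → ℂ) (E : ℝ), Adm P Q → 1 ≤ E → (∀ z ∈ ball (0 : ℂ) 1, |Up P Q z| ≤ E) →
    4 ≤ ∫ z in ball (0 : ℂ) (1 / 2), sph P Q z →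
    (∀ z ∈ ball (0 : ℂ) (19 / 20), ‖Wr P Q z‖ ≤ Real.exp (6 * E)) ∧
    IntegrableOn (fun z => Real.log ‖Wr P Q z‖) (ball 0 (4 / 5)) ∧ ∫ z in ball (0 : ℂ) (4 / 5), |Real.log ‖Wr P Q z‖| ≤ C * E

/-! ### Inverse branches -/

/-- Row BRA. Proof. Write `a = (P z, Q z)`, `|a|² = |P z|²+|Q z|²`. The equation of `Br` is `t · (P x conj(P z) + Q x conj(Q z)) = Q x P z - P x Q z` for `x = X t`; if the
bracket vanished then both would vanish, i.e. `(P x, Q x)` would be orthogonal and parallel to `a`, hence zero. So `Hz P Q z (X t) = t`. Differentiating, `Hz' (X t) X'(t) = 1`. For every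
`x` with nonzero bracket `Hz'(x) = -W(x) |a|²/(P x conj(P z) + Q x conj(Q z))²` (quotient rule) and `1 + |Hz x|² = (|P x|²+|Q x|²)|a|²/|P x conj(P z) + Q x conj(Q z)|²`
(Lagrange), so `|Hz'|²/(1+|Hz|²)² = sph`: this gives `W(X t) ≠ 0` and the formula. Uniqueness: `Hz` is injective near `z` (nonzero derivative), so two
branches agree near `0`, and then on the smaller ball (identity theorem). -/
def BRA_stmt : Prop :=
  ∀ (P Q : ℂ → ℂ), Adm P Q → ∀ z ∈ ball (0 : ℂ) 1,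
    (∀ x ∈ ball (0 : ℂ) 1, P x * conj (P z) + Q x * conj (Q z) ≠ 0 →
      DifferentiableAt ℂ (Hz P Q z) x ∧ Complex.normSq (deriv (Hz P Q z) x) = sph P Q x * (1 + Complex.normSq (Hz P Q z x)) ^ 2) ∧
    (∀ (τ : ℝ) (X : ℂ → ℂ), 0 < τ → Br P Q (ball 0 1) z τ X → Wr P Q z ≠ 0 ∧ InjOn X (ball 0 τ) ∧
      ∀ t ∈ ball (0 : ℂ) τ, P (X t) * conj (P z) + Q (X t) * conj (Q z) ≠ 0 ∧ Hz P Q z (X t) = t ∧ Wr P Q (X t) ≠ 0 ∧
        Complex.normSq (deriv X t) * sph P Q (X t) * (1 + Complex.normSq t) ^ 2 = 1) ∧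
    (∀ (τ τ' : ℝ) (X X' : ℂ → ℂ), Br P Q (ball 0 1) z τ X → Br P Q (ball 0 1) z τ' X' → ∀ t ∈ ball (0 : ℂ) τ, t ∈ ball (0 : ℂ) τ' → X t = X' t)

/-- Row BRC (from BRA). Proof: the set in the definition of `rh` contains `0` and is bounded by `1`; take branches with radii tending to the supremum; by
uniqueness they fit together to one branch of radius `rh`. -/
def BRC_stmt : Prop :=
  ∀ (P Q : ℂ → ℂ), Adm P Q → ∀ z ∈ ball (0 : ℂ) 1, 0 ≤ rh P Q z ∧ rh P Q z ≤ 1 ∧ (∃ X : ℂ → ℂ, Br P Q (ball 0 1) z (rh P Q z) X) ∧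
    (Wr P Q z = 0 → rh P Q z = 0) ∧ ∀ (τ : ℝ) (X : ℂ → ℂ), τ ≤ 1 → Br P Q (ball 0 1) z τ X → τ ≤ rh P Q z

/-- Row BRS (from BRA): change of the base point. Proof: `(P z', Q z')` is a multiple of `(P z - t₀ conj(Q z), Q z + t₀ conj(P z))`; a point with coordinate `t` around `z` has coordinate
`conj(λ) (t - t₀)/(1 + conj(t₀) t)` around `z'` for some `λ` with `|λ| = 1` (both coordinates are quotients of linear forms; the sphere is rotated by a unitary map). So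
`X'(s) = X((λ s + t₀)/(1 - conj(t₀) λ s))` is a branch through `z'`. It remains to see that the fraction is in `ball 0 τ`: apply the hypothesis to `λ s`. -/
def BRS_stmt : Prop :=
  ∀ (P Q : ℂ → ℂ), Adm P Q → ∀ z ∈ ball (0 : ℂ) 1, ∀ (S : Set ℂ) (τ : ℝ) (X : ℂ → ℂ), S ⊆ ball 0 1 → τ ≤ 1 → Br P Q S z τ X → ∀ t₀ ∈ ball (0 : ℂ) τ,
    ∃ l : ℂ, ‖l‖ = 1 ∧ ∀ τ' : ℝ, (∀ s ∈ ball (0 : ℂ) τ', ‖s + t₀‖ < τ * ‖1 - conj t₀ * s‖) →
      Br P Q S (X t₀) τ' (fun s => X ((l * s + t₀) / (1 - conj t₀ * (l * s))))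

/-- Row BRO (from BRA BRC BRS). Proof: let `c < rh z`, `c ≥ 0`; take a branch `X` of radius `τ > c`. For `t₀` near `0` the hypothesis of `BRS` holds with any
`τ' < τ`, so `rh (X t₀) ≥ τ'`; and `X(t₀)` runs over a neighbourhood of `z` (open mapping, `X' ≠ 0`). For `c < 0` nothing is to be proved. The last part follows
(`rh` is lower semicontinuous on the disc). -/
def BRO_stmt : Prop :=
  ∀ (P Q : ℂ → ℂ), Adm P Q → (∀ c : ℝ, IsOpen {z : ℂ | z ∈ ball (0 : ℂ) 1 ∧ c < rh P Q z}) ∧ Measurable (fun z => (ball (0 : ℂ) 1).indicator (rh P Q) z)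

/-- Row EXT: an inverse branch that is locally extendable at every boundary point extends to a larger disc. Proof: for every `t` on the circle
`|t| = ρ` choose `δ_t` and `Y_t`. Two of the discs `ball t δ_t`, `ball t' δ_(t')` which intersect have a common point in `ball 0 ρ` (a point of the open segment from `t` to `t'`), so
`Y_t = Y_(t')` on the (convex) intersection by the identity theorem. By compactness finitely many of the discs `ball t (δ_t/2)` cover the circle, and with `ball 0 ρ` they cover `ball 0 ρ'` for some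
`ρ' > ρ`; the functions glue. -/
def EXT_stmt : Prop :=
  ∀ (ρ : ℝ) (X : ℂ → ℂ), 0 < ρ → DifferentiableOn ℂ X (ball 0 ρ) →
    (∀ t : ℂ, ‖t‖ = ρ → ∃ (δ : ℝ) (Y : ℂ → ℂ), 0 < δ ∧ DifferentiableOn ℂ Y (ball t δ) ∧ (∀ s ∈ ball t δ, Y s ∈ ball (0 : ℂ) 1) ∧
      ∀ s ∈ ball t δ, s ∈ ball (0 : ℂ) ρ → Y s = X s) →
    ∃ (ρ' : ℝ) (Z : ℂ → ℂ), ρ < ρ' ∧ DifferentiableOn ℂ Z (ball 0 ρ') ∧ (∀ s ∈ ball (0 : ℂ) ρ, Z s = X s) ∧
      ∀ s ∈ ball (0 : ℂ) ρ', s ∉ ball (0 : ℂ) ρ → Z s ∈ ball (0 : ℂ) 1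

/-- Row TCH (from BRA BRC BRS EXT): the obstruction point. Proof: suppose that for every `u` with `‖u‖ = ρ := rh z < 1` there is `t₀ ∈ ball 0 ρ` with `z' = X t₀` and
`ρ(z') > ‖t₀ - u‖/‖1 + conj u t₀‖` (spherical tangent distance from `t₀` to `u`; note `‖1 + conj u t₀‖ = ‖1 + conj t₀ u‖ > 0`). Take the branch `X'` through `z'` of radius `ρ(z')`, written in the coordinate around `z`:
`Y(t) = X'(conj(l)(t - t₀)/(1 + conj(t₀) t))` with the unimodular number `l` of `BRS`; it is defined and holomorphic on the disc or half plane or complement of a disc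
`G = {t : ‖t - t₀‖ < ρ(z') ‖1 + conj t₀ t‖}` which contains `t₀` and `u`; because `ρ(z') ≤ 1` the set `G` is convex (a disc or a half plane). `Y` is a local inverse of `Hz P Q z` on `G`, `Y(t₀) = X(t₀)`, so
`Y = X` on the convex set `G ∩ ball 0 ρ` (identity theorem). So `X` is extendable at `u`. By `EXT` there is an extension `Z` to `ball 0 ρ'`, `ρ' > ρ`, with values in the unit disc; it satisfies the equation of `Br` by the identity theorem;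
so `rh z ≥ min(ρ', 1) > ρ`: contradiction. -/
def TCH_stmt : Prop :=
  ∀ (P Q : ℂ → ℂ), Adm P Q → ∀ z ∈ ball (0 : ℂ) 1, ∀ X : ℂ → ℂ, Br P Q (ball 0 1) z (rh P Q z) X → 0 < rh P Q z → rh P Q z < 1 →
    ∃ u : ℂ, ‖u‖ = rh P Q z ∧ ∀ t ∈ ball (0 : ℂ) (rh P Q z), rh P Q (X t) ≤ ‖t - u‖ / ‖1 + conj u * t‖

/-- Row IFT (from QOM BRA BRC). Proof: `δ = 1 - |z|`, `|P|, |Q| ≤ e^E`, `|a|² = |P z|²+|Q z|² ≥ e^(-2E)`; `|P'|, |Q'| ≤ 2e^E/δ` on `|x - z| < δ/2`. For `|x - z| < δ₁ := δ e^(-4E)/16` the denominator of `Hz P Q z x` differs from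
`|a|²` by at most `4 e^(2E) δ₁/δ ≤ |a|²/2`, and the numerator is at most `|(P x,Q x)||a|`: so `|Hz| ≤ 4 e^(2E) =: M` on `ball z δ₁`. `Hz(z) = 0`, `|Hz'(z)|² = sph z ≥ |W|² e^(-4E)`. `QOM` gives a branch of radius
`|W|² e^(-4E) δ₁²/(32 M) = |W|² δ² e^(-14E)/32768 ≥ e^(-40E) δ² |W|²` (`E ≥ 1`; `32768 < e^11`), and this number is `≤ 1` since `|W| ≤ 4 e^(2E)/δ`. If `W z = 0` the inequality is `rh ≥ 0`. -/
def IFT_stmt : Prop :=
  ∀ (P Q : ℂ → ℂ) (E : ℝ), Adm P Q → 1 ≤ E → (∀ z ∈ ball (0 : ℂ) 1, |Up P Q z| ≤ E) → ∀ z ∈ ball (0 : ℂ) 1,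
    Real.exp (-(40 * E)) * (1 - ‖z‖) ^ 2 * ‖Wr P Q z‖ ^ 2 ≤ rh P Q z

/-- Row GB (from BRC IFT). Proof: with `ρ = rh z ∈ (0,1]` and `r ≤ 1`: `1 + r²/ρ² ≤ 2/ρ²`, so `Gr ≤ -(3/2) log ρ + 1 + 4 log|W|`, and `-log ρ ≤ 40E - 2 log(1-|z|) - 2 log|W|`. Lower bound: `-log ρ ≥ 0` and
`log(1 + ..) ≥ 0`. -/
def GB_stmt : Prop :=
  ∀ (P Q : ℂ → ℂ) (E r : ℝ), Adm P Q → 1 ≤ E → (∀ z ∈ ball (0 : ℂ) 1, |Up P Q z| ≤ E) → 0 < r → r ≤ 1 → ∀ z ∈ ball (0 : ℂ) 1, Wr P Q z ≠ 0 →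
    0 < rh P Q z ∧ 4 * Real.log ‖Wr P Q z‖ ≤ Gr P Q r z ∧ Gr P Q r z ≤ 60 * E - 3 * Real.log (1 - ‖z‖) + 1 + Real.log ‖Wr P Q z‖

/-- Row GT (from QOM BRA BRC TCH GB): `Gr` is touched from below by smooth subharmonic functions on discs of uniform radius. Proof: if `z ∈ ball 0 R` and `Gr z > -K` then `|W z| ≥ c > 0` by `GB`, so `ρ = rh z ≥ ρ₁ > 0` (`IFT` is contained in
`GB`: or apply the upper bound of `GB`: `-log ρ ≤ Gr - 4 log|W|`, bounded), `c` and `ρ₁` depend on `R, K, E` only. Let `X` be the branch of radius `ρ`; `|X'(0)|² = 1/sph z ≥ c₁` (`BRA`). `QOM` for `X` on `ball 0 ρ`, `M = 2`: `X(ball 0 ρ) ⊇ ball z δ`,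
`δ = c₁ ρ₁²/64`, also take `δ ≤ (1-R)/2`. If `ρ < 1` let `u` be the point of `TCH` and `m(x) = (Hz x - u)/(1 + conj u Hz x)` on `ball z δ`; for `x = X t` one has `Hz x = t`, `m` is holomorphic and nonzero, `rh x ≤ |m(x)|`, `|m(z)| = ρ`. Put
`T(x) = -log|m(x)| + (1/4) log(1 + r²/|m(x)|²) + 4 log|W(x)|`. As `ρ ↦ -log ρ + (1/4) log(1+r²/ρ²)` is decreasing, `T ≤ Gr`, with equality at `z`. `log|m|`, `log|W|` are harmonic, and with the holomorphic function `k = 1/m`: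
`lap (1/4) log(1+r²|k|²) = (1/4) r²|k'|²/(1+r²|k|²)² ≥ 0`; here `|k'| = |m'|/|m|²` and `|m'|² = sph (1+|m|²)²` (`m` is `Hz` followed by a rotation of the sphere), so at `z` this is
`(1/4) r² sph (1+ρ²)²/(ρ²+r²)² ≥ sph/(16 r²)` if `ρ ≤ r`. If `ρ = 1`: `T = (1/4) log(1+r²) + 4 log|W|` (here `rh ≤ 1` gives `T ≤ Gr`); `rh z ≤ r` is only possible for `r = 1`: this is excluded by `r < 1`. -/
def GT_stmt : Prop :=
  ∀ (P Q : ℂ → ℂ) (E r R K : ℝ), Adm P Q → 1 ≤ E → (∀ z ∈ ball (0 : ℂ) 1, |Up P Q z| ≤ E) → 0 < r → r < 1 → 0 < R → R < 1 →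
    ∃ δ : ℝ, 0 < δ ∧ R + δ < 1 ∧ ∀ z ∈ ball (0 : ℂ) R, Wr P Q z ≠ 0 → -K < Gr P Q r z →
      ∃ T : ℂ → ℝ, ContDiffOn ℝ ∞ T (ball z δ) ∧ T z = Gr P Q r z ∧ (∀ x ∈ ball z δ, Wr P Q x ≠ 0 ∧ T x ≤ Gr P Q r x ∧ 0 ≤ lap T x) ∧
        (rh P Q z ≤ r → sph P Q z ≤ 16 * r ^ 2 * lap T z)

/-- Row IG (from AVG FAT LGA BRO GB GT). Proof: `Gr` is measurable on the disc (`BRO`), and integrable on `ball 0 R`, `R < 1`: by `GB` `|Gr| ≤ C + 4|log|W||` off the (countable) zero set of `W`; `log|W|` is integrable on `ball 0 R`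
by `LGA` with a centre `c` near `0`, `W c ≠ 0` (identity theorem), on `ball c (1-2|c|)`, where `W` is bounded after shrinking. Let `φ_K = max(Gr, -K)` where `W ≠ 0`, and `φ_K = -K` on the zeros of `W`, and outside the disc; `g_K = sph/(16 r²)` on
`{rh ≤ r} ∩ {W ≠ 0} ∩ {Gr > -K}`, `0` elsewhere. On every smaller disc `φ_K` is bounded (`GB`). The hypotheses of `FAT` hold with `Ω = ball 0 R`: at points with `W = 0` or `Gr ≤ -K` one has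
`φ_K z = -K ≤ average`, `g_K = 0`; at the other points `average of φ_K ≥ average of T ≥ T z = φ_K z` and `≥ T z + (lap T z) s²/2 - ε s²` (`GT`, `AVG`). So `∫ χ g_K ≤ ∫ lap χ φ_K`; let `K → ∞`
(monotone convergence on the left, dominated on the right, `|φ_K| ≤ |Gr|` up to a constant). -/
def IG_stmt : Prop :=
  ∀ (P Q : ℂ → ℂ) (E r : ℝ), Adm P Q → 1 ≤ E → (∀ z ∈ ball (0 : ℂ) 1, |Up P Q z| ≤ E) → 0 < r → r < 1 → (∃ z ∈ ball (0 : ℂ) 1, Wr P Q z ≠ 0) →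
    (∀ R : ℝ, R < 1 → IntegrableOn (Gr P Q r) (ball 0 R)) ∧
    ∀ χ : ℂ → ℝ, ContDiff ℝ ∞ χ → HasCompactSupport χ → tsupport χ ⊆ ball 0 1 → (∀ z, 0 ≤ χ z) →
      ∫ z in {z : ℂ | z ∈ ball (0 : ℂ) 1 ∧ rh P Q z ≤ r}, χ z * sph P Q z ≤ 16 * r ^ 2 * ∫ z, lap χ z * Gr P Q r z

/-! ### Main results -/

/-- Row IS1 (from LGW GB IG). Proof: fix a smooth `χ`, `0 ≤ χ ≤ 1`, `1` on `ball 0 (3/4)`, support in `ball 0 (4/5)`. By `GB` `|Gr| ≤ 60E + 3 log 5 + 1 + 4|log|W||` on `ball 0 (4/5)` (off the zeros of `W`, a null set), so `∫_(ball 0 (4/5)) |Gr| ≤ C E` by `LGW` (second claim) and `IG` gives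
`∫_(ball 0 (3/4) ∩ {rh ≤ r}) sph ≤ 16 r² sup|lap χ| C E`. For `r ≥ 1`... only `r < 1` is claimed. -/
def IS1_stmt : Prop :=
  ∃ C : ℝ, 0 < C ∧ ∀ (P Q : ℂ → ℂ) (E r : ℝ), Adm P Q → 1 ≤ E → (∀ z ∈ ball (0 : ℂ) 1, |Up P Q z| ≤ E) →
    4 ≤ ∫ z in ball (0 : ℂ) (1 / 2), sph P Q z → 0 < r → r < 1 →
    (∫ z in ball (0 : ℂ) (3 / 4) ∩ {z | rh P Q z ≤ r}, sph P Q z) ≤ C * E * r ^ 2 ∧
    IntegrableOn (Gr P Q r) (ball 0 (4 / 5)) ∧ ∫ z in ball (0 : ℂ) (4 / 5), |Gr P Q r z| ≤ C * E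

/-- Row CUT (cut-off lemma). `S₁, S₂` are integrable and weakly subharmonic, `H = λ(S₁ - S₂) ∈ [0,1]`. Proof: all in `ball 0 (4/5)`; `χ` has support in `ball 0 ρ`, `ρ < 4/5`. Let `S_i^ε = S_i * φ_ε` (smooth radial mollifier, `ε` small): smooth near `tsupport χ`,
`lap S_i^ε ≥ 0` there, `H^ε = λ(S₁^ε - S₂^ε) ∈ [0,1]`, `H^ε → H` in `L¹`. (a) For smooth `χ₁ ≥ 0` with support in `ball 0 (4/5)`, `∫ χ₁ |lap H^ε| ≤ λ ∫ χ₁ lap(S₁^ε + S₂^ε) = λ ∫ lap χ₁ (S₁^ε + S₂^ε) ≤ C λ A`. (b) `lap(H²) = 2 H lap H + (1/2)|∇H|²`, so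
`∫ χ₁|∇H^ε|² ≤ 2|∫ lap χ₁ (H^ε)²| + 4 ∫ χ₁ |lap H^ε| ≤ C(1 + λA)`. (c) `∫ χ H^ε lap v = ∫ v lap(χ H^ε)`, and `|lap(χ H^ε)| ≤ χ|lap H^ε| + |lap χ| + |∇χ||∇H^ε|`; with `χ₁ = 1` on `tsupport χ` and Cauchy-Schwarz the integral of this is at most
`C(λA + 1 + (1+λA)^(1/2))`. Let `ε → 0`. -/
def CUT_stmt : Prop :=
  ∀ χ : ℂ → ℝ, ContDiff ℝ ∞ χ → HasCompactSupport χ → tsupport χ ⊆ ball 0 (4 / 5) → (∀ z, 0 ≤ χ z) → ∃ C : ℝ, 0 < C ∧
    ∀ (S₁ S₂ v : ℂ → ℝ) (l A B : ℝ), 0 < l → 0 < A → 0 ≤ B → IntegrableOn S₁ (ball 0 (4 / 5)) → IntegrableOn S₂ (ball 0 (4 / 5)) →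
      ∫ z in ball (0 : ℂ) (4 / 5), |S₁ z| ≤ A → ∫ z in ball (0 : ℂ) (4 / 5), |S₂ z| ≤ A →
      (∀ κ : ℂ → ℝ, ContDiff ℝ ∞ κ → HasCompactSupport κ → tsupport κ ⊆ ball 0 (4 / 5) → (∀ z, 0 ≤ κ z) →
        0 ≤ (∫ z, lap κ z * S₁ z) ∧ 0 ≤ ∫ z, lap κ z * S₂ z) →
      (∀ᵐ z, z ∈ ball (0 : ℂ) (4 / 5) → 0 ≤ l * (S₁ z - S₂ z) ∧ l * (S₁ z - S₂ z) ≤ 1) →
      ContDiffOn ℝ ∞ v (ball 0 1) → (∀ z ∈ ball (0 : ℂ) 1, |v z| ≤ B) →
      |∫ z, χ z * (l * (S₁ z - S₂ z)) * lap v z| ≤ C * B * (1 + l * A)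

/-- Row IS2 (from CH1 IB1 IG IS1 CUT): finer level. Proof: `χ` as in `IS1`, `L = log(1/r)`, `r₁ = r^(1/2)`, `S₁ = Gr P Q r₁`, `S₂ = Gr P Q r`, `λ = 4/L`: `H = λ(S₁ - S₂) = (1/L) log((1 + r/ρ²)/(1 + r²/ρ²)) ∈ [0,1]` (`ρ = rh z`; the quotient is between `1` and `1/r`), decreasing in `ρ`,
and for `ρ ≤ r` it is at least `(1/L) log(1/(2r)) ≥ 1/2` (`r ≤ 1/4`). `∫ χ H lap V = ∫ χ H lap Up + ∫ χ H lap (V - Up)`; the second integral is at most `C B (1 + E/L)` by `CUT` (`A = C E`, `IS1`; weak subharmonicity: `IG`). First: `lap Up = sph/2`; where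
`ρ > r^(1/4)` one has `H ≤ (1/L) r^(1/2)`, and where `ρ ≤ r^(1/4)` use `IS1` (`≤ C E r^(1/2)`; on `tsupport χ` apply `IG` directly with a slightly larger cut-off supported in `ball 0 (4/5)`, or choose `χ` supported in `ball 0 (4/5)` and `χ₁ ≥ χ` likewise); total mass `∫ χ sph ≤ C E`. So it is at most
`C E r^(1/2) ≤ C E/L`. Finally `1 ≤ E/L`. -/
def IS2_stmt : Prop :=
  ∃ C : ℝ, 0 < C ∧ ∀ (P Q : ℂ → ℂ) (V : ℂ → ℝ) (E B r : ℝ), Adm P Q → 1 ≤ E → (∀ z ∈ ball (0 : ℂ) 1, |Up P Q z| ≤ E) →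
    4 ≤ ∫ z in ball (0 : ℂ) (1 / 2), sph P Q z → ContDiffOn ℝ ∞ V (ball 0 1) → (∀ z ∈ ball (0 : ℂ) 1, 0 ≤ lap V z) → 0 ≤ B →
    (∀ z ∈ ball (0 : ℂ) 1, |V z - Up P Q z| ≤ B) → 0 < r → r ≤ 1 / 4 → Real.log (1 / r) ≤ E →
    (∫ z in ball (0 : ℂ) (3 / 4) ∩ {z | rh P Q z ≤ r}, lap V z) ≤ C * (1 + B) * E / Real.log (1 / r)

/-- Row IS3 (from LSE CH1 IB1 LGW CUT): small spherical derivative. Proof: `S_c = log(c (|P|²+|Q|²)² + |W|²) = 4 Up + log(c + sph)` for `0 < c ≤ E`: smooth on the disc and subharmonic (`LSE` with `n = 1`, `G = W`, `e^(2B) = c(|P|²+|Q|²)²`, `B = (1/2) log c + 2 Up`, `lap B = 2 lap Up = sph ≥ 0`;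
apply it after a translation at every point), `|S_c| ≤ C E + 2|log|W||` on `ball 0 (4/5)` (`log|W|² ≤ S_c ≤ log(E e^(4E) + e^(12E))`). With `L = log(1/η)`, `c₁ = η^(1/2) E`, `c₂ = η E`, `λ = 2/L`: `H = λ(S_(c₁) - S_(c₂)) = (2/L) log((c₁+sph)/(c₂+sph)) ∈ [0,1]`, and
`H ≥ 1/2` where `sph ≤ η E` (`η ≤ 1/16`). `CUT`: `|∫ χ H lap(V-Up)| ≤ C B (1 + E/L)`; own level: where `sph ≤ η^(1/4) E` the integral of `χ H sph` is at most `C η^(1/4) E`; elsewhere `H ≤ (2/L) c₁/sph ≤ η^(1/4)` and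
`∫ χ sph ≤ C E` (integrate `lap Up = sph/2` by parts). -/
def IS3_stmt : Prop :=
  ∃ C : ℝ, 0 < C ∧ ∀ (P Q : ℂ → ℂ) (V : ℂ → ℝ) (E B η : ℝ), Adm P Q → 1 ≤ E → (∀ z ∈ ball (0 : ℂ) 1, |Up P Q z| ≤ E) →
    4 ≤ ∫ z in ball (0 : ℂ) (1 / 2), sph P Q z → ContDiffOn ℝ ∞ V (ball 0 1) → (∀ z ∈ ball (0 : ℂ) 1, 0 ≤ lap V z) → 0 ≤ B →
    (∀ z ∈ ball (0 : ℂ) 1, |V z - Up P Q z| ≤ B) → 0 < η → η ≤ 1 / 16 → Real.log (1 / η) ≤ E →
    (∫ z in ball (0 : ℂ) (3 / 4) ∩ {z | sph P Q z ≤ η * E}, lap V z) ≤ C * (1 + B) * E / Real.log (1 / η)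

/-- Row ISA (from CH1 IB1 BRA): mass of one island. Proof: `θ` a fixed smooth cut-off, `1` on `ball 0 (1/2)`, support in `ball 0 1`, `θ_r(t) = θ(t/r)`. Change of variables (`X` injective, `BRA`) and `CH1`: the left side is
`∫_(ball 0 (r/2)) lap(V∘X) ≤ ∫ θ_r lap(V∘X) = ∫ θ_r lap(Up∘X) + ∫ lap θ_r (V-Up)∘X` (`IB1`; first with the branch on a slightly smaller disc), `lap(Up∘X) = sph(X)|X'|²/2 = (1/2)(1+|t|²)⁻²` (`BRA`), so the first term is at most `π/2`, and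
`∫ |lap θ_r| = ∫ |lap θ|` does not depend on `r`. -/
def ISA_stmt : Prop :=
  ∃ C : ℝ, 0 < C ∧ ∀ (P Q : ℂ → ℂ) (V : ℂ → ℝ) (B r : ℝ) (z : ℂ) (X : ℂ → ℂ), Adm P Q → ContDiffOn ℝ ∞ V (ball 0 1) →
    (∀ z ∈ ball (0 : ℂ) 1, 0 ≤ lap V z) → 0 ≤ B → (∀ z ∈ ball (0 : ℂ) 1, |V z - Up P Q z| ≤ B) → z ∈ ball (0 : ℂ) 1 → 0 < r → r ≤ 1 →
    Br P Q (ball 0 1) z r X → (∫ z in X '' ball 0 (r / 2), lap V z) ≤ C * (1 + B)

/-- Row IS4 (from BRA BRC BRS IS2 ISA): small islands. Proof: choose finitely many points `c_1..c_q` of the sphere (`q` depends on `r`) such that every point is at tangent distance `< r/8` from one of them (compactness). Points with `rh z ≤ 2r` are handled by `IS2`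
(`2r ≤ 1/4`; `log(1/(2r)) ≥ (1/2) log(1/r)`). Let `rh z > 2r`, `X` the branch, `c_j` a centre with coordinate `t_j` around `z`, `|t_j| < r/8`, `x = X(t_j)`. By `BRS` there is a branch `X_x` through `x` of radius `3r/2`, and `X(ball 0 r) ⊆ X_x(ball 0 (5r/4))`, `z ∈ X_x(ball 0 (r/8))`.
For fixed `j` the sets `I(x) = X_x(ball 0 (3r/2))`, `x` in the fibre over `c_j`, are pairwise disjoint (equal values have equal coordinates up to a fixed unimodular factor; then the two branches agree by uniqueness of branches through a point, `BRS` `BRA`), so the sum of their areas is at most `π`. On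
`ball 0 (5r/4)`: `|X_x'|² ≤ area(I(x))/(π (r/4)²)` (mean value property of `X_x'` and Cauchy-Schwarz; `∫|X_x'|²` is the area of the image of the injective `X_x`), so the diameter of `X_x(ball 0 (5r/4))` is at most `6 area(I(x))^(1/2)`. If `X(ball 0 r)` is not in `ball z t` then
`area(I(x)) ≥ t²/36`: there are at most `36π/t²` such `x` for each `j`, and the mass of each `X_x(ball 0 (r/8))` is at most `C(1+B)` by `ISA`. -/
def IS4_stmt : Prop :=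
  ∃ C0 : ℝ, 0 < C0 ∧ ∀ r : ℝ, 0 < r → r ≤ 1 / 8 → ∃ C : ℝ, 0 < C ∧ ∀ (P Q : ℂ → ℂ) (V : ℂ → ℝ) (E B t : ℝ), Adm P Q → 1 ≤ E →
    (∀ z ∈ ball (0 : ℂ) 1, |Up P Q z| ≤ E) → 4 ≤ ∫ z in ball (0 : ℂ) (1 / 2), sph P Q z → ContDiffOn ℝ ∞ V (ball 0 1) →
    (∀ z ∈ ball (0 : ℂ) 1, 0 ≤ lap V z) → 0 ≤ B → (∀ z ∈ ball (0 : ℂ) 1, |V z - Up P Q z| ≤ B) → Real.log (1 / r) ≤ E → 0 < t →
    (∫ z in ball (0 : ℂ) (3 / 4) ∩ {z | ¬ ∃ X : ℂ → ℂ, Br P Q (ball 0 1 ∩ ball z t) z r X}, lap V z) ≤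
      C0 * (1 + B) * E / Real.log (1 / r) + C * (1 + B) / t ^ 2

end Pool.Agent.P2I
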