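import Pool.Agent.helper15.P2.SpecI
import Pool.Agent.helper37.P2.DefsC

set_option autoImplicit false

/-!
# Project P2 (MP_063734_an), block C: nodes (`NOD_stmt` of `helper37/P2/DefsC.lean`)

Rows `p2:..`: prove `X_stmt` in `Pool/Agent/<seat>/P2/X.lean`, `import Pool.Agent.helper15.P2.SpecN`, `namespace Pool.Agent.P2N`,
`open Pool.Agent.P2 Pool.Agent.P2I`, auxiliary lemmas prefixed `X_`. (`Adm`, `Gr` exist in both opened namespaces: write `P2I.Adm`, `P2I.Gr`.)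

The rows `LGX, IX1, IX2, IX4` are the rows `LGW, IS1, IS2, IS4` of `SpecI` with two changes: the mass hypothesis is on `ball 0 (4/5)` instead of `ball 0 (1/2)`, and the conclusion on `ball 0 (791/1000)` instead of `ball 0 (3/4)`
(the support of the cut-off `eta` is `|z|² ≤ 5/8`). The landed proofs can be copied: `helper80/P2/LGW.lean`, `helper82/P2/IS1.lean`, `helper82/P2/IS2.lean`, `helper30/P2/IS4.lean`.
-/

open scoped ContDiff Topology ComplexConjugate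
open MeasureTheory Filter Set Metric MvPolynomial Pool.Agent.helper37.QA

namespace Pool.Agent.P2N

open Pool.Agent.P2 Pool.Agent.P2I

/-- Row LGX (from LGA). Proof: as `LGW`. `|W| ≤ 2 e^(2E)/δ` at distance `δ` from the circle. The area of `ball 0 (4/5)` is `< 4`, so there is `z0` in it with `sph z0 ≥ 1`, `|W(z0)| ≥ e^(-2E)`. STEP: if `|z| ≤ 4/5` and `|log|W(z)|| ≤ K E` (`K ≥ 1`) then `LGA` with centre `z`, `R = 18/100`, `R' = 19/100` gives `∫_(ball z R) |log|W|| ≤ C(K) E`, so every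
`ball y (1/100) ⊆ ball z R` contains a point with `|log|W|| ≤ K' E`. Take `y` on the segment from `z` to `0` at distance `15/100` from `z` (or `y = 0` if `|z| ≤ 15/100`): after at most 7 steps one has `z1` with `|z1| ≤ 4/100`. Last step as in `LGW`: `LGA` with `c = z1`, `R = 86/100`, `R' = 9/10`. -/
def LGX_stmt : Prop :=
  ∃ C : ℝ, 0 < C ∧ ∀ (P Q : ℂ → ℂ) (E : ℝ), P2I.Adm P Q → 1 ≤ E → (∀ z ∈ ball (0 : ℂ) 1, |Up P Q z| ≤ E) →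
    4 ≤ ∫ z in ball (0 : ℂ) (4 / 5), sph P Q z →
    (∀ z ∈ ball (0 : ℂ) (19 / 20), ‖Wr P Q z‖ ≤ Real.exp (6 * E)) ∧
    IntegrableOn (fun z => Real.log ‖Wr P Q z‖) (ball 0 (4 / 5)) ∧ ∫ z in ball (0 : ℂ) (4 / 5), |Real.log ‖Wr P Q z‖| ≤ C * E

/-- Row IX1 (from LGX GB IG). Proof: as `IS1`, with a cut-off which is `1` on `ball 0 (791/1000)` with support in `ball 0 (4/5)`. -/
def IX1_stmt : Prop :=
  ∃ C : ℝ, 0 < C ∧ ∀ (P Q : ℂ → ℂ) (E r : ℝ), P2I.Adm P Q → 1 ≤ E → (∀ z ∈ ball (0 : ℂ) 1, |Up P Q z| ≤ E) →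
    4 ≤ ∫ z in ball (0 : ℂ) (4 / 5), sph P Q z → 0 < r → r < 1 →
    (∫ z in ball (0 : ℂ) (791 / 1000) ∩ {z | rh P Q z ≤ r}, sph P Q z) ≤ C * E * r ^ 2 ∧
    IntegrableOn (P2I.Gr P Q r) (ball 0 (4 / 5)) ∧ ∫ z in ball (0 : ℂ) (4 / 5), |P2I.Gr P Q r z| ≤ C * E

/-- Row IX2 (from CH1 IB1 IG IX1 CUT). Proof: as `IS2`. -/
def IX2_stmt : Prop :=
  ∃ C : ℝ, 0 < C ∧ ∀ (P Q : ℂ → ℂ) (V : ℂ → ℝ) (E B r : ℝ), P2I.Adm P Q → 1 ≤ E → (∀ z ∈ ball (0 : ℂ) 1, |Up P Q z| ≤ E) →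
    4 ≤ ∫ z in ball (0 : ℂ) (4 / 5), sph P Q z → ContDiffOn ℝ ∞ V (ball 0 1) → (∀ z ∈ ball (0 : ℂ) 1, 0 ≤ lap V z) → 0 ≤ B →
    (∀ z ∈ ball (0 : ℂ) 1, |V z - Up P Q z| ≤ B) → 0 < r → r ≤ 1 / 4 → Real.log (1 / r) ≤ E →
    (∫ z in ball (0 : ℂ) (791 / 1000) ∩ {z | rh P Q z ≤ r}, lap V z) ≤ C * (1 + B) * E / Real.log (1 / r)

/-- Row IX4 (from BRA BRC BRS IX2 ISA). Proof: as `IS4`. -/
def IX4_stmt : Prop :=
  ∃ C0 : ℝ, 0 < C0 ∧ ∀ r : ℝ, 0 < r → r ≤ 1 / 8 → ∃ C : ℝ, 0 < C ∧ ∀ (P Q : ℂ → ℂ) (V : ℂ → ℝ) (E B t : ℝ), P2I.Adm P Q → 1 ≤ E →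
    (∀ z ∈ ball (0 : ℂ) 1, |Up P Q z| ≤ E) → 4 ≤ ∫ z in ball (0 : ℂ) (4 / 5), sph P Q z → ContDiffOn ℝ ∞ V (ball 0 1) →
    (∀ z ∈ ball (0 : ℂ) 1, 0 ≤ lap V z) → 0 ≤ B → (∀ z ∈ ball (0 : ℂ) 1, |V z - Up P Q z| ≤ B) → Real.log (1 / r) ≤ E → 0 < t →
    (∫ z in ball (0 : ℂ) (791 / 1000) ∩ {z | ¬ ∃ X : ℂ → ℂ, Br P Q (ball 0 1 ∩ ball z t) z r X}, lap V z) ≤
      C0 * (1 + B) * E / Real.log (1 / r) + C * (1 + B) / t ^ 2

/-- Row NCV (from BRA BRS): covering by islands. Proof: choose finitely many points `c_1..c_q` of the sphere such that every point is at tangent distance `< r/40` from one of them (`q` depends on `r` only). `T_j` = the points `y = X_x(t_j)`, `x ∈ N`, where `c_j` has the coordinate `t_j`, `|t_j| < r/40`, around `(P,Q)(x)`; `(P,Q)(y)` is a multiple of `c_j`, these points are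
isolated (`W ≠ 0`), so `T_j` is countable. `BRS` gives branches `Xb y` of radius `r/2` with values in `ball 0 1 ∩ ball x t ⊆ ball 0 (9/10)`, and `x = Xb y s` with `|s| < r/32`. Disjointness: if `Xb y s = Xb y' s'` then `s' = l s` with a unimodular `l` depending on `y, y'`, and the branches `Xb y (s)`, `Xb y' (l s)` agree at one point, hence everywhere (both are local
inverses of the same coordinate; the set where they agree is open and closed), so `y = y'`. -/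
def NCV_stmt : Prop :=
  ∀ r : ℝ, 0 < r → r ≤ 1 / 8 → ∃ q : ℕ, ∀ (P Q : ℂ → ℂ) (N : Set ℂ), P2I.Adm P Q → N ⊆ ball 0 (4 / 5) →
    (∀ x ∈ N, ∃ X : ℂ → ℂ, Br P Q (ball 0 1 ∩ ball x (1 / 20)) x r X) →
    ∃ (T : Fin q → Set ℂ) (Xb : ℂ → ℂ → ℂ), (∀ j, (T j).Countable ∧ ∀ y ∈ T j, y ∈ ball (0 : ℂ) (9 / 10) ∧ Br P Q (ball 0 (9 / 10)) y (r / 2) (Xb y)) ∧
      (∀ j, ∀ y ∈ T j, ∀ y' ∈ T j, y ≠ y' → ∀ s ∈ ball (0 : ℂ) (r / 2), ∀ s' ∈ ball (0 : ℂ) (r / 2), Xb y s ≠ Xb y' s') ∧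
      ∀ x ∈ N, ∃ j, ∃ y ∈ T j, ∃ s ∈ ball (0 : ℂ) (r / 32), Xb y s = x

/-- Row NSM (from CH1 IB1 BRA BRS NCV): the points in islands of small mass. Proof: `T_j`, `Xb` from `NCV`; keep only the `y ∈ T_j` for which `J_y = Xb y (ball 0 (r/32))` contains some `x ∈ N`; then `J_y ⊆ X_x(ball 0 (r/2))` (`BRS`, uniqueness of branches, tangent distances add up to less than `r/8`), so its `V`-mass is `≤ δ`. The sets
`Xb y (ball 0 (r/2))`, `y ∈ T_j`, are disjoint in `ball 0 (9/10)` and have `sph`-mass `∫_(|s| < r/2) (1+|s|²)⁻² ≥ r²/2`; and `∫_(ball 0 (9/10)) sph ≤ C E` (`CH1`: `sph = 2 lap Up`, `IB1` with a cut-off). So at most `2CE/r²` elements in each `T_j`. `Bd` = union of these `J_y` (open sets). -/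
def NSM_stmt : Prop :=
  ∀ r : ℝ, 0 < r → r ≤ 1 / 8 → ∃ C : ℝ, 0 < C ∧ ∀ (P Q : ℂ → ℂ) (V : ℂ → ℝ) (E δ : ℝ) (N : Set ℂ), P2I.Adm P Q → 1 ≤ E → (∀ z ∈ ball (0 : ℂ) 1, |Up P Q z| ≤ E) →
    ContDiffOn ℝ ∞ V (ball 0 1) → (∀ z ∈ ball (0 : ℂ) 1, 0 ≤ lap V z) → 0 ≤ δ → N ⊆ ball 0 (4 / 5) →
    (∀ x ∈ N, ∃ X : ℂ → ℂ, Br P Q (ball 0 1 ∩ ball x (1 / 20)) x r X ∧ ∫ z in X '' ball 0 (r / 2), lap V z ≤ δ) →
    ∃ Bd : Set ℂ, MeasurableSet Bd ∧ Bd ⊆ ball 0 (9 / 10) ∧ N ⊆ Bd ∧ ∫ z in Bd, lap V z ≤ C * E * δ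

/-- Row NIS (from UN1 MSS CH1 BRA): a branch gives islands over all near chart discs. Proof. `P z = It f k (Z z) 0`, `Q z = It f k (Z z) 1`, no common zero (`UN1`). Chart `ι = 1`: `x = P/Q`, `|x| ≤ 2 + κ/32`; the point with chart coordinate `c + κ ξ` has the tangent coordinate `t(ξ)` around `(P z : Q z)` with `-q t = ζ'/(1 + |x|² + ζ' conj x)`, `ζ' = c + κξ - x`,
`|ζ'| ≤ (33/32) κ`, `q` unimodular: `|t(ξ)| ≤ 2κ ≤ r`; it is holomorphic in `ξ`. Put `g(ξ) = X(t(ξ))`, `γ(ξ)` = third coordinate of `It f k (Z (g ξ))` divided by the second one (which is not `0`): `Isl`. `g((x-c)/κ) = z`. Chart `ι = 0`: exchange the coordinates. Mass: `gt f (N-k) ι c κ γ (ξ,0) = lap_ξ` of `un f (N-k) (gp (ξ,0))` (one variable formula for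
`(1/2)log(|P|²+|Q|²)` along the slice), and `un f (N-k)(gp ι c κ γ (ξ,0)) = d^k un f N (Z(g ξ)) - log|a(ξ)|` with the nonvanishing holomorphic factor `a`; so it is `d^k |g'|² tau f N Z (g ξ)` (`MSS`, `CH1`), and since `eta = 1` for `|ξ|² ≤ 1/2` and the tangent disc of radius `κ/10` around `(P z : Q z)` corresponds to points with `|ξ| ≤ 7/10`
(`|ζ'| ≤ |t|(1+|x|²)/(1-|t||x|) ≤ 6|t|`), the change of variables gives the last inequality. -/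
def NIS_stmt : Prop :=
  ∀ (d : ℕ) (f : Endo 2 d) (U : Set (PP 2)), 2 ≤ d → Good0 f U → ∀ r κ : ℝ, 0 < κ → κ ≤ r / 4 → r ≤ 1 / 8 →
    ∀ (k N : ℕ) (Z : ℂ → E3) (z : ℂ) (X : ℂ → ℂ), k ≤ N → Dsc U Z → z ∈ ball (0 : ℂ) 1 →
      Br (fun w => It f k (Z w) 0) (fun w => It f k (Z w) 1) (ball 0 1) z r X →
      ∀ (ι : Fin 2) (c : ℂ), ‖c‖ ≤ 2 → (∃ (x y a : ℂ), a ≠ 0 ∧ It f k (Z z) = a • cht ι x y ∧ ‖x - c‖ ≤ κ / 32) →
        ∃ g γ : ℂ → ℂ, Isl f Z k ι c κ g γ ∧ (∃ ξ : ℂ, ‖ξ‖ ≤ 1 / 32 ∧ g ξ = z) ∧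
          (d : ℝ) ^ k * (∫ w in X '' ball 0 (κ / 10), tau f N Z w) ≤ gms f (N - k) ι c κ γ

/-- Row NOD (from UN1 MSS RAD DMS CH1 IX4 NSM NIS). The statement `NOD_stmt` is the one of `DefsC`. Proof. `P, Q` as in `NIS`, `Up P Q = d^k un f k ∘ Z`, `V = d^k un f N ∘ Z` (smooth, `lap V = d^k tau f N Z ≥ 0` by `MSS`), `|V - Up| ≤ C₁ =: B` (`UN1`), `E = 2 Kb d^k mass` with `mass = mass f N Z` (`≥` the bounds needed when `mass ≥ C`). `∫_(ball 0 (4/5)) sph ≥ 2 ∫ η² lap Up =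
2 d^k mass f k Z ≥ 2 d^k (mass - C₁) ≥ 4` (`DMS`, with an `r` from `RAD`; `η²` has support in `|z|² ≤ 5/8`). Choose `r ≤ 1/8` with `C0(1+B) 2Kb/log(1/r) ≤ ε/4`, `κ0 = r/4` (and `≤ 1/10`). Given `κ ≤ κ0`: `IX4` with `t = 1/20`: outside a set `Bd₁` (inside `ball 0 (791/1000)`; `Bd₁` need not be measurable a priori: take a measurable hull with respect to the finite measure
`lap V` on the ball) of `V`-mass `≤ C0(1+B)E/log(1/r) + 400 C(1+B) ≤ (ε/2) d^k mass` there is a branch `X` of radius `r` with values in `ball z (1/20)`. `NSM` with radius `κ/5 ≤ r` and `δ`: `N` = the points of `ball 0 (791/1000)`, not in `Bd₁`, with `∫_(X '' ball 0 (κ/10)) lap V ≤ δ`: `V`-mass of `Bd₂ ≤ C_κ E δ ≤ (ε/2) d^k mass` for small `δ = δ(κ)`.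
Outside `Bd = Bd₁ ∪ Bd₂` (cut to `ball 0 (9/10)`) `NIS` gives the island, `gms ≥ d^k ∫ tau = ∫ lap V > δ`. `∫_Bd η² tau ≤ d^(-k) V(Bd)`. -/
def NODdoc : Prop := NOD_stmt

end Pool.Agent.P2N
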