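import Pool.Agent.helper37.P2.SpecA

set_option autoImplicit false

/-! Project P2, row UN1: the potentials converge geometrically. -/

open scoped ContDiff Topology
open MeasureTheory Filter Set Metric MvPolynomial Pool.Agent.helper37.QA

namespace Pool.Agent.P2

theorem UN1_nq_le (Z : E3) : nq Z ≤ 3 * ‖Z‖ ^ 2 := by
  have h : ∀ i, Complex.normSq (Z i) ≤ ‖Z‖ ^ 2 := fun i => by
    rw [Complex.normSq_eq_norm_sq]
    exact pow_le_pow_left₀ (norm_nonneg _) (norm_le_pi_norm Z i) 2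
  unfold nq
  calc ∑ i, Complex.normSq (Z i) ≤ ∑ _i : Fin 3, ‖Z‖ ^ 2 := Finset.sum_le_sum fun i _ => h i
    _ = 3 * ‖Z‖ ^ 2 := by simp

theorem UN1_nq_ge (Z : E3) : ‖Z‖ ^ 2 ≤ nq Z := by
  have hp : ∀ i, Complex.normSq (Z i) ≤ nq Z := fun i =>
    Finset.single_le_sum (f := fun i => Complex.normSq (Z i)) (fun j _ => Complex.normSq_nonneg _) (Finset.mem_univ i)
  have h0 : 0 ≤ nq Z := Finset.sum_nonneg fun i _ => Complex.normSq_nonneg _
  have h1 : ‖Z‖ ≤ Real.sqrt (nq Z) := by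
    refine (pi_norm_le_iff_of_nonneg (Real.sqrt_nonneg _)).2 fun i => ?_
    refine Real.le_sqrt_of_sq_le ?_
    rw [← Complex.normSq_eq_norm_sq]
    exact hp i
  calc ‖Z‖ ^ 2 ≤ Real.sqrt (nq Z) ^ 2 := pow_le_pow_left₀ (norm_nonneg _) h1 2
    _ = nq Z := Real.sq_sqrt h0

theorem UN1_pq_le (Z : E3) : pq Z ≤ nq Z := by
  unfold pq nq
  rw [Fin.sum_univ_three]
  linarith [Complex.normSq_nonneg (Z 2)]

theorem UN1_pq_smul (a : ℝ) (Z : E3) : pq ((a : ℂ) • Z) = a ^ 2 * pq Z := by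
  unfold pq
  simp only [Pi.smul_apply, smul_eq_mul, Complex.normSq_mul, Complex.normSq_ofReal]
  ring

theorem UN1_pq_cont : Continuous (pq : E3 → ℝ) := by
  unfold pq
  exact (Complex.continuous_normSq.comp (continuous_apply 0)).add (Complex.continuous_normSq.comp (continuous_apply 1))

theorem UN1_step {d : ℕ} {f : Endo 2 d} {U : Set (PP 2)} (hU : IsTrapping f U) {Z : E3} (hZ : Z ∈ cone (closure U)) :
    pmap f.F Z ∈ cone (closure U) := by
  obtain ⟨h, hc⟩ := hZ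
  refine ⟨pmap_ne f.nondeg h, ?_⟩
  rw [← map_toPP f h]
  exact subset_closure (hU.2.2 ⟨_, hc, rfl⟩)

theorem UN1_mem {d : ℕ} {f : Endo 2 d} {U : Set (PP 2)} (hU : IsTrapping f U) {Z : E3} (hZ : Z ∈ cone (closure U)) (n : ℕ) :
    It f n Z ∈ cone (closure U) := by
  induction n with
  | zero =>
    change pmap (iter f.F 0) Z ∈ _
    rw [pmap_iter_zero]
    exact hZ
  | succ n ih =>
    change pmap (iter f.F (n + 1)) Z ∈ _
    rw [pmap_iter_succ]
    exact UN1_step hU ih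

/-- lower bound of `pq` on the cone -/
theorem UN1_low {d : ℕ} {f : Endo 2 d} {U : Set (PP 2)} (hG : Good0 f U) :
    ∃ m : ℝ, 0 < m ∧ m ≤ 1 ∧ ∀ Z ∈ cone (closure U), m * ‖Z‖ ^ 2 ≤ pq Z := by
  set K : Set E3 := sphere (0 : E3) 1 ∩ cone (closure U) with hK
  have hne0 : ∀ Z ∈ K, Z ≠ 0 := fun Z hZ => hZ.2.1
  have hcl : IsClosed K := by
    refine isClosed_of_closure_subset fun a ha => ?_
    obtain ⟨z, hz, hlim⟩ := mem_closure_iff_seq_limit.1 ha
    have ha1 : a ∈ sphere (0 : E3) 1 := isClosed_sphere.mem_of_tendsto hlim (Eventually.of_forall fun n => (hz n).1)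
    have ha0 : a ≠ 0 := by
      rintro rfl
      simp at ha1
    exact ⟨ha1, ha0, mem_closed isClosed_closure (fun n => hne0 _ (hz n)) ha0 hlim fun n => (hz n).2.2⟩
  have hcomp : IsCompact K := (isCompact_sphere (0 : E3) 1).of_isClosed_subset hcl inter_subset_left
  have hred : ∀ Z ∈ cone (closure U), ∃ Y ∈ K, Z = ((‖Z‖ : ℝ) : ℂ) • Y := by
    intro Z hZ
    have hn : ‖Z‖ ≠ 0 := norm_ne_zero_iff.2 hZ.1
    have hn' : ((‖Z‖ : ℝ) : ℂ) ≠ 0 := by exact_mod_cast hn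
    refine ⟨((‖Z‖ : ℝ) : ℂ)⁻¹ • Z, ⟨?_, cone_smul hZ (inv_ne_zero hn')⟩, ?_⟩
    · simp [norm_smul, hn]
    · rw [smul_smul, mul_inv_cancel₀ hn', one_smul]
  rcases K.eq_empty_or_nonempty with he | hne
  · refine ⟨1, one_pos, le_rfl, fun Z hZ => ?_⟩
    obtain ⟨Y, hY, _⟩ := hred Z hZ
    rw [he] at hY
    exact hY.elim
  · obtain ⟨a, ha, hmin⟩ := hcomp.exists_isMinOn hne UN1_pq_cont.continuousOn
    have hpos : 0 < pq a := by
      have h0 : 0 ≤ pq a := add_nonneg (Complex.normSq_nonneg _) (Complex.normSq_nonneg _)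
      rcases h0.lt_or_eq with h | h
      · exact h
      · exfalso
        have h1 : Complex.normSq (a 0) = 0 := by
          have := Complex.normSq_nonneg (a 0)
          have := Complex.normSq_nonneg (a 1)
          unfold pq at h
          linarith
        have h2 : Complex.normSq (a 1) = 0 := by
          have := Complex.normSq_nonneg (a 0)
          have := Complex.normSq_nonneg (a 1)
          unfold pq at h
          linarith
        exact hG.2 a (hne0 a ha) (Complex.normSq_eq_zero.1 h1) (Complex.normSq_eq_zero.1 h2) ha.2.2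
    refine ⟨min (pq a) 1, lt_min hpos one_pos, min_le_right _ _, fun Z hZ => ?_⟩
    obtain ⟨Y, hY, hZY⟩ := hred Z hZ
    have h1 : pq Z = ‖Z‖ ^ 2 * pq Y := by
      conv_lhs => rw [hZY]
      exact UN1_pq_smul _ _
    rw [h1, mul_comm]
    exact mul_le_mul_of_nonneg_left ((min_le_left _ _).trans (hmin hY)) (sq_nonneg _)

theorem UN1 : UN1_stmt := by
  intro d f U hd hG
  have hU := hG.1
  obtain ⟨m, hm0, hm1, hlow⟩ := UN1_low hG
  obtain ⟨c, C, hc, hC, hb⟩ := pmap_bounds f.hom f.nondeg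
  have hd1 : (1 : ℝ) < (d : ℝ) := by exact_mod_cast (by omega : 1 < d)
  have hd0 : (0 : ℝ) < (d : ℝ) := by linarith
  have hd2 : (2 : ℝ) ≤ (d : ℝ) := by exact_mod_cast hd
  -- constants
  set C1 : ℝ := |Real.log m| + Real.log 3 with hC1
  set C3 : ℝ := |Real.log c| + |Real.log C| with hC3
  have hl3 : 0 < Real.log 3 := Real.log_pos (by norm_num)
  have hC1p : 0 < C1 := by have := abs_nonneg (Real.log m); linarith
  have hC3p : 0 ≤ C3 := by positivity
  have hnorm : ∀ Z ∈ cone (closure U), 0 < ‖Z‖ := fun Z hZ => norm_pos_iff.2 hZ.1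
  -- `(1/2) log nq` and `(1/2) log pq` against `log ‖Z‖`
  have hlog2 : ∀ Z : E3, 0 < ‖Z‖ → (1 / 2) * Real.log (‖Z‖ ^ 2) = Real.log ‖Z‖ := fun Z _ => by
    rw [Real.log_pow]; push_cast; ring
  have hpqpos : ∀ Z ∈ cone (closure U), 0 < pq Z := fun Z hZ =>
    lt_of_lt_of_le (mul_pos hm0 (pow_pos (hnorm Z hZ) 2)) (hlow Z hZ)
  have hnq : ∀ Z ∈ cone (closure U), |(1 / 2) * Real.log (nq Z) - Real.log ‖Z‖| ≤ C1 := by
    intro Z hZ
    have hp := hnorm Z hZ
    have hp2 : 0 < ‖Z‖ ^ 2 := pow_pos hp 2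
    have h1 : Real.log (‖Z‖ ^ 2) ≤ Real.log (nq Z) := Real.log_le_log hp2 (UN1_nq_ge Z)
    have h2 : Real.log (nq Z) ≤ Real.log 3 + Real.log (‖Z‖ ^ 2) := by
      rw [← Real.log_mul (by norm_num) hp2.ne']
      exact Real.log_le_log (hp2.trans_le (UN1_nq_ge Z)) (UN1_nq_le Z)
    have h3 := hlog2 Z hp
    have h4 := abs_nonneg (Real.log m)
    rw [abs_le]
    constructor <;> linarith
  have hpq : ∀ Z ∈ cone (closure U), |(1 / 2) * Real.log (pq Z) - Real.log ‖Z‖| ≤ C1 := by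
    intro Z hZ
    have hp := hnorm Z hZ
    have hp2 : 0 < ‖Z‖ ^ 2 := pow_pos hp 2
    have h1 : Real.log m + Real.log (‖Z‖ ^ 2) ≤ Real.log (pq Z) := by
      rw [← Real.log_mul hm0.ne' hp2.ne']
      exact Real.log_le_log (mul_pos hm0 hp2) (hlow Z hZ)
    have h2 : Real.log (pq Z) ≤ Real.log 3 + Real.log (‖Z‖ ^ 2) := by
      rw [← Real.log_mul (by norm_num) hp2.ne']
      exact Real.log_le_log (hpqpos Z hZ) ((UN1_pq_le Z).trans (UN1_nq_le Z))
    have h3 := hlog2 Z hp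
    have h4 := neg_abs_le (Real.log m)
    have h5 := abs_nonneg (Real.log m)
    rw [abs_le]
    constructor <;> linarith
  -- one step
  have hstep : ∀ Z ∈ cone (closure U), |Real.log ‖pmap f.F Z‖ - d * Real.log ‖Z‖| ≤ C3 := by
    intro Z hZ
    have hp := hnorm Z hZ
    have hpd : 0 < ‖Z‖ ^ d := pow_pos hp d
    obtain ⟨h1, h2⟩ := hb Z hZ.1
    have h3 : Real.log c + d * Real.log ‖Z‖ ≤ Real.log ‖pmap f.F Z‖ := by
      rw [← Real.log_pow, ← Real.log_mul hc.ne' hpd.ne']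
      exact Real.log_le_log (mul_pos hc hpd) h1
    have h4 : Real.log ‖pmap f.F Z‖ ≤ Real.log C + d * Real.log ‖Z‖ := by
      rw [← Real.log_pow, ← Real.log_mul hC.ne' hpd.ne']
      exact Real.log_le_log ((mul_pos hc hpd).trans_le h1) h2
    have h5 := neg_abs_le (Real.log c)
    have h6 := le_abs_self (Real.log C)
    have h7 := abs_nonneg (Real.log c)
    have h8 := abs_nonneg (Real.log C)
    rw [abs_le]
    constructor <;> linarith
  have hsucc : ∀ (n : ℕ) (Z : E3), It f (n + 1) Z = pmap f.F (It f n Z) := fun n Z => pmap_iter_succ f.F n Z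
  have hzero : ∀ Z : E3, It f 0 Z = Z := fun Z => pmap_iter_zero f.F Z
  -- the normalised logarithms
  have hdn : ∀ n : ℕ, (0 : ℝ) < (d : ℝ) ^ n := fun n => pow_pos hd0 n
  have ha : ∀ Z ∈ cone (closure U), ∀ n k : ℕ,
      |Real.log ‖It f (n + k) Z‖ / (d : ℝ) ^ (n + k) - Real.log ‖It f n Z‖ / (d : ℝ) ^ n| ≤
        C3 * (1 / (d : ℝ) ^ n - 1 / (d : ℝ) ^ (n + k)) := by
    intro Z hZ n k
    induction k with
    | zero => simp
    | succ k ih =>
      have h1 := hstep _ (UN1_mem hU hZ (n + k))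
      rw [← hsucc] at h1
      have h2 : |Real.log ‖It f (n + (k + 1)) Z‖ / (d : ℝ) ^ (n + (k + 1)) - Real.log ‖It f (n + k) Z‖ / (d : ℝ) ^ (n + k)| ≤
          C3 * (1 / (d : ℝ) ^ (n + k) - 1 / (d : ℝ) ^ (n + (k + 1))) := by
        have e1 : Real.log ‖It f (n + (k + 1)) Z‖ / (d : ℝ) ^ (n + (k + 1)) - Real.log ‖It f (n + k) Z‖ / (d : ℝ) ^ (n + k) =
            (Real.log ‖It f (n + k + 1) Z‖ - d * Real.log ‖It f (n + k) Z‖) / (d : ℝ) ^ (n + k + 1) := by
          rw [show n + (k + 1) = n + k + 1 by ring, pow_succ]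
          field_simp
        have e2 : 1 / (d : ℝ) ^ (n + k) - 1 / (d : ℝ) ^ (n + (k + 1)) = (d - 1) / (d : ℝ) ^ (n + k + 1) := by
          rw [show n + (k + 1) = n + k + 1 by ring, pow_succ]
          field_simp
        rw [e1, e2, abs_div, abs_of_pos (hdn _), ← mul_div_assoc]
        refine div_le_div_of_nonneg_right ?_ (hdn _).le
        calc _ ≤ C3 := h1
          _ = C3 * 1 := (mul_one _).symm
          _ ≤ C3 * (d - 1) := mul_le_mul_of_nonneg_left (by linarith) hC3p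
      calc _ = |(Real.log ‖It f (n + (k + 1)) Z‖ / (d : ℝ) ^ (n + (k + 1)) - Real.log ‖It f (n + k) Z‖ / (d : ℝ) ^ (n + k)) +
            (Real.log ‖It f (n + k) Z‖ / (d : ℝ) ^ (n + k) - Real.log ‖It f n Z‖ / (d : ℝ) ^ n)| := by congr 1; ring
        _ ≤ _ := abs_add_le _ _
        _ ≤ C3 * (1 / (d : ℝ) ^ (n + k) - 1 / (d : ℝ) ^ (n + (k + 1))) + C3 * (1 / (d : ℝ) ^ n - 1 / (d : ℝ) ^ (n + k)) := add_le_add h2 ih
        _ = _ := by ring
  have hun : ∀ Z ∈ cone (closure U), ∀ n : ℕ, |un f n Z - Real.log ‖It f n Z‖ / (d : ℝ) ^ n| ≤ C1 / (d : ℝ) ^ n := by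
    intro Z hZ n
    have h1 := hpq _ (UN1_mem hU hZ n)
    unfold un
    rw [← sub_div, abs_div, abs_of_pos (hdn n)]
    exact div_le_div_of_nonneg_right h1 (hdn n).le
  have hle : ∀ n k : ℕ, C1 / (d : ℝ) ^ (n + k) ≤ C1 / (d : ℝ) ^ n := fun n k =>
    div_le_div_of_nonneg_left hC1p.le (hdn n) (pow_le_pow_right₀ hd1.le (Nat.le_add_right _ _))
  have hinv : ∀ n : ℕ, (0 : ℝ) < 1 / (d : ℝ) ^ n := fun n => div_pos one_pos (hdn n)
  have hdiff : ∀ Z ∈ cone (closure U), ∀ n k : ℕ, |un f (n + k) Z - un f n Z| ≤ (2 * C1 + C3) / (d : ℝ) ^ n := by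
    intro Z hZ n k
    have h1 := abs_le.1 (hun Z hZ (n + k))
    have h2 := abs_le.1 (hun Z hZ n)
    have h3 := abs_le.1 (ha Z hZ n k)
    have h4 := hle n k
    have h5 : C3 * (1 / (d : ℝ) ^ n - 1 / (d : ℝ) ^ (n + k)) ≤ C3 / (d : ℝ) ^ n := by
      have e : C3 / (d : ℝ) ^ n = C3 * (1 / (d : ℝ) ^ n) := by ring
      rw [e]
      exact mul_le_mul_of_nonneg_left (by linarith [hinv (n + k)]) hC3p
    have h6 : (2 * C1 + C3) / (d : ℝ) ^ n = C1 / (d : ℝ) ^ n + C1 / (d : ℝ) ^ n + C3 / (d : ℝ) ^ n := by ring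
    rw [h6, abs_le]
    constructor <;> linarith [h1.1, h1.2, h2.1, h2.2, h3.1, h3.2]
  refine ⟨2 * C1 + C3 + 2 * C1 + 3 / m, by positivity, ?_, ?_, ?_, ?_⟩
  · intro n N hn Z hZ
    obtain ⟨k, rfl⟩ := Nat.exists_eq_add_of_le hn
    refine (hdiff Z hZ n k).trans (div_le_div_of_nonneg_right ?_ (hdn n).le)
    have : 0 < 3 / m := by positivity
    linarith
  · intro n Z hZ
    have h1 := hdiff Z hZ 0 n
    rw [zero_add, pow_zero, div_one] at h1
    have h2 : |un f 0 Z - (1 / 2) * Real.log (nq Z)| ≤ 2 * C1 := by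
      have h3 := abs_le.1 (hpq Z hZ)
      have h4 := abs_le.1 (hnq Z hZ)
      unfold un
      rw [hzero, pow_zero, div_one, abs_le]
      constructor <;> linarith [h3.1, h3.2, h4.1, h4.2]
    have h5 := abs_le.1 h1
    have h6 := abs_le.1 h2
    have : 0 < 3 / m := by positivity
    rw [abs_le]
    constructor <;> linarith [h5.1, h5.2, h6.1, h6.2]
  · intro n Z hZ
    have hW := UN1_mem hU hZ n
    refine ⟨hpqpos _ hW, ?_⟩
    have h1 := hlow _ hW
    have h2 := UN1_nq_le (It f n Z)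
    have h3 : ‖It f n Z‖ ^ 2 ≤ pq (It f n Z) / m := by
      rw [le_div_iff₀ hm0, mul_comm]
      exact h1
    have h4 : 0 ≤ (2 * C1 + C3 + 2 * C1) * pq (It f n Z) := mul_nonneg (by positivity) (hpqpos _ hW).le
    calc nq (It f n Z) ≤ 3 * (pq (It f n Z) / m) := h2.trans (mul_le_mul_of_nonneg_left h3 (by norm_num))
      _ = 3 / m * pq (It f n Z) := by ring
      _ ≤ (2 * C1 + C3 + 2 * C1 + 3 / m) * pq (It f n Z) := by nlinarith
  · intro n Z hZ
    have hW := UN1_mem hU hZ n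
    have h1 := abs_le.1 (hpq _ hW)
    have h2 := abs_le.1 (hnq _ hW)
    have h3 : (d : ℝ) ^ n * un f n Z = (1 / 2) * Real.log (pq (It f n Z)) := by
      unfold un
      field_simp
    have : 0 < 3 / m := by positivity
    rw [h3, abs_le]
    constructor <;> linarith [h1.1, h1.2, h2.1, h2.2]

end Pool.Agent.P2
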