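import Pool.Agent.helper56.P2.SpecW
import Pool.Agent.helper51.P2.CH1

set_option autoImplicit false

/-! Project P2 (MP_063734_an), row WSB: short bands. -/

open scoped ContDiff Topology ComplexConjugate ENNReal
open MeasureTheory Filter Set Metric MvPolynomial Pool.Agent.helper37.QA

namespace Pool.Agent.P2W

open Pool.Agent.P2

theorem WSB_cov (F : ℂ → ℝ≥0∞) (a : ℝ) (ha : 0 < a) (ξ0 : ℂ) :
    ∫⁻ ξ, F ξ = ENNReal.ofReal (a ^ 2) * ∫⁻ y, F (ξ0 + a * y) := by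
  have h1 : ∫⁻ y : ℂ, F (ξ0 + a * y) = ∫⁻ w, F (ξ0 + w) ∂(Measure.map (a • · : ℂ → ℂ) volume) := by
    have h := lintegral_map_equiv (μ := (volume : Measure ℂ)) (fun w => F (ξ0 + w))
      (Homeomorph.smulOfNeZero (α := ℂ) a ha.ne').toMeasurableEquiv
    have e : ((Homeomorph.smulOfNeZero (α := ℂ) a ha.ne').toMeasurableEquiv : ℂ → ℂ) = (a • · : ℂ → ℂ) := rfl
    rw [e] at h
    rw [h]
    refine lintegral_congr fun y => ?_
    change _ = F (ξ0 + a • y)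
    rw [Complex.real_smul]
  rw [h1, Measure.map_addHaar_smul _ ha.ne', lintegral_smul_measure, Complex.finrank_real_complex,
    lintegral_add_left_eq_self F ξ0, smul_eq_mul, ← mul_assoc, ← ENNReal.ofReal_mul (sq_nonneg a),
    abs_of_pos (inv_pos.2 (pow_pos ha 2)), mul_inv_cancel₀ (pow_pos ha 2).ne', ENNReal.ofReal_one, one_mul]

theorem WSB_lap (g : ℂ → ℝ) (D a : ℝ) (ξ0 y : ℂ) (hg : ContDiffAt ℝ ∞ g (ξ0 + a * y)) :
    lap (fun y => D * g (ξ0 + a * y)) y = D * (a ^ 2 * lap g (ξ0 + a * y)) := by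
  have hX : DifferentiableOn ℂ (fun y : ℂ => ξ0 + a * y) univ := by fun_prop
  have h2 : ContDiffAt ℝ 2 g (ξ0 + a * y) := hg.of_le (WithTop.coe_le_coe.2 le_top)
  have h1 := P2I.CH1.1 univ (fun y : ℂ => ξ0 + a * y) g y isOpen_univ hX (mem_univ _) h2
  have hd : deriv (fun y : ℂ => ξ0 + a * y) y = a := by
    rw [deriv_const_add, deriv_const_mul_field, deriv_id'', mul_one]
  have hn : Complex.normSq (a : ℂ) = a ^ 2 := by rw [Complex.normSq_ofReal]; ring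
  have hc : ContDiffAt ℝ 2 (fun y : ℂ => g (ξ0 + a * y)) y := by
    have h3 : ContDiffAt ℝ 2 (fun y : ℂ => ξ0 + a * y) y := by fun_prop
    exact ContDiffAt.comp y h2 h3
  rw [hd, hn] at h1
  rw [← h1]
  have e : (fun y : ℂ => D * g (ξ0 + a * y)) = fun y : ℂ => D • (fun y : ℂ => g (ξ0 + a * y)) y := rfl
  unfold lap
  rw [e, iteratedFDeriv_const_smul_apply' hc]
  simp only [smul_apply, smul_eq_mul]
  ring

theorem WSB_cov_set (F : ℂ → ℝ≥0∞) (a : ℝ) (ha : 0 < a) (ξ0 : ℂ) (B : Set ℂ) (hB : MeasurableSet B) :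
    ∫⁻ ξ in B, F ξ = ENNReal.ofReal (a ^ 2) * ∫⁻ y in {y : ℂ | ξ0 + a * y ∈ B}, F (ξ0 + a * y) := by
  have hm : MeasurableSet {y : ℂ | ξ0 + a * y ∈ B} := by
    have hc : Continuous fun y : ℂ => ξ0 + a * y := by fun_prop
    exact hc.measurable hB
  rw [← lintegral_indicator hB, ← lintegral_indicator hm, WSB_cov _ a ha ξ0]
  rfl

theorem WSB (hIS4 : P2I.IS4_stmt) (hBRA : P2I.BRA_stmt) (hWHO : WHO_stmt) (hWM1 : WM1_stmt) (hWM2 : WM2_stmt) : WSB_stmt := by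
  intro d f U hd τ κ C0 α hτ hκ hκ1 hW
  obtain ⟨CI, hCI, hIS⟩ := hIS4
  obtain ⟨CM, hCM, hM2⟩ := hWM2 d f U hd τ κ C0 α hτ hκ hκ1 hW
  have hC0 : 0 < C0 := lt_of_lt_of_le one_pos hW.c1
  refine ⟨CI * (1 + C0) * C0, by positivity, fun r hr hr8 => ?_⟩
  obtain ⟨Cr, hCr, hI⟩ := hIS r hr hr8
  refine ⟨16 * Cr * (1 + C0), by positivity, fun ρ μ0 hρ hρ1 hμ0 => ?_⟩
  have hd1 : (1 : ℝ) < (d : ℝ) := by exact_mod_cast (by omega : 1 < d)
  have hd0 : (0 : ℝ) < (d : ℝ) := by linarith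
  obtain ⟨nm, hnm⟩ : ∃ nm : ℕ, (4 + 4 * CM) / (2 * μ0) + |Real.log (1 / r)| < (d : ℝ) ^ nm := pow_unbounded_of_one_lt _ hd1
  refine ⟨nm, fun ι c γ n N ξ0 e hT hn hN hξ0 he hmass => ?_⟩
  set D : ℝ := (d : ℝ) ^ n with hD
  have hD0 : 0 < D := pow_pos hd0 n
  have hDn : (d : ℝ) ^ nm ≤ D := pow_le_pow_right₀ hd1.le hn
  have hDN : D ≤ (d : ℝ) ^ N := pow_le_pow_right₀ hd1.le hN
  have hDa : (4 + 4 * CM) / (2 * μ0) ≤ D := by
    have := abs_nonneg (Real.log (1 / r))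
    linarith
  have hDb : Real.log (1 / r) ≤ D := by
    have h1 := le_abs_self (Real.log (1 / r))
    have h2 : 0 ≤ (4 + 4 * CM) / (2 * μ0) := by positivity
    linarith
  have hD1 : 1 ≤ D := one_le_pow₀ hd1.le
  have hlr : 0 < Real.log (1 / r) := Real.log_pos (by rw [lt_div_iff₀ hr]; linarith)
  set a : ℝ := 4 * ρ with ha
  have ha0 : 0 < a := by positivity
  have hS : ∀ y ∈ ball (0 : ℂ) 1, ξ0 + a * y ∈ ball (0 : ℂ) 1 := by
    intro y hy
    rw [mem_ball_zero_iff] at hy ⊢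
    calc ‖ξ0 + a * y‖ ≤ ‖ξ0‖ + ‖(a : ℂ) * y‖ := norm_add_le _ _
      _ = ‖ξ0‖ + a * ‖y‖ := by rw [norm_mul, Complex.norm_real, Real.norm_of_nonneg ha0.le]
      _ < 1 := by nlinarith [norm_nonneg y]
  have h0τ : (0 : ℂ) ∈ ball (0 : ℂ) τ := mem_ball_self hτ
  -- the functions
  have hL : ∀ M : ℕ, ∀ y ∈ ball (0 : ℂ) 1, lap (fun y => D * un f M (gp ι c κ γ (ξ0 + a * y, 0))) y =
      D * (a ^ 2 * gt f M ι c κ γ (ξ0 + a * y, 0)) := by
    intro M y hy
    obtain ⟨h1, h2, -⟩ := (hWM1 d f U hd τ κ C0 α hτ hκ hκ1 hW ι c γ hT M).1 0 h0τ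
    rw [h1 _ (hS y hy)]
    exact WSB_lap (fun ξ => un f M (gp ι c κ γ (ξ, 0))) D a ξ0 y (h2.contDiffAt (isOpen_ball.mem_nhds (hS y hy)))
  have hgc : ∀ M : ℕ, ContinuousOn (fun y : ℂ => gt f M ι c κ γ (ξ0 + a * y, 0)) (ball (0 : ℂ) 1) := by
    intro M
    have h1 := (hWM1 d f U hd τ κ C0 α hτ hκ hκ1 hW ι c γ hT M).2.2.1
    refine h1.comp (by fun_prop) fun y hy => ⟨?_, ?_⟩
    · have := hS y hy
      rwa [mem_ball_zero_iff] at this
    · simpa using hτ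
  have hgn : ∀ (M : ℕ) (p : ℂ × ℂ), 0 ≤ gt f M ι c κ γ p := fun M =>
    (hWM1 d f U hd τ κ C0 α hτ hκ hκ1 hW ι c γ hT M).2.2.2
  have hmem : ∀ y ∈ ball (0 : ℂ) 1, ((ξ0 + a * y, 0) : ℂ × ℂ) ∈ P2U.TB 1 τ := fun y hy => by
    have := hS y hy
    rw [mem_ball_zero_iff] at this
    exact ⟨this, by simpa using hτ⟩
  set P : ℂ → ℂ := fun y => gP f n ι c κ γ (ξ0 + a * y, 0) with hP
  set Q : ℂ → ℂ := fun y => gQ f n ι c κ γ (ξ0 + a * y, 0) with hQ
  set V : ℂ → ℝ := fun y => D * un f N (gp ι c κ γ (ξ0 + a * y, 0)) with hV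
  have hUp : P2I.Up P Q = fun y => D * un f n (gp ι c κ γ (ξ0 + a * y, 0)) := by
    funext y
    change (1 / 2) * Real.log (Complex.normSq (P y) + Complex.normSq (Q y)) = D * ((1 / 2) * Real.log (pq (It f n (gp ι c κ γ (ξ0 + a * y, 0)))) / (d : ℝ) ^ n)
    have e1 : Complex.normSq (P y) + Complex.normSq (Q y) = pq (It f n (gp ι c κ γ (ξ0 + a * y, 0))) := rfl
    rw [e1, ← hD, mul_div_cancel₀ _ hD0.ne']
  have hAdm : P2I.Adm P Q := by
    have hol := (hWHO d f ι c κ γ n hT.hd).1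
    have hcomp : ∀ i : Fin 3, DifferentiableOn ℂ (fun y => It f n (gp ι c κ γ (ξ0 + a * y, 0)) i) (ball 0 1) := by
      intro i y hy
      have h1 : DifferentiableAt ℂ (fun p : ℂ × ℂ => It f n (gp ι c κ γ p)) (ξ0 + a * y, 0) :=
        (hol _ (by
          have := hS y hy
          rw [mem_ball_zero_iff] at this
          exact this)).differentiableAt
      have h2 : DifferentiableAt ℂ (fun y : ℂ => ((ξ0 + a * y, 0) : ℂ × ℂ)) y := by fun_prop
      have h3 := h1.comp y h2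
      exact ((differentiableAt_pi.1 h3) i).differentiableWithinAt
    refine ⟨hcomp 0, hcomp 1, fun y hy => ?_⟩
    by_contra hcon
    push Not at hcon
    have h4 := (hW.nz ι c γ hT n _ (hmem y hy)).1
    have h5 : pq (It f n (gp ι c κ γ (ξ0 + a * y, 0))) = Complex.normSq (P y) + Complex.normSq (Q y) := rfl
    rw [h5, hcon.1, hcon.2] at h4
    simp at h4
  have hsph : ∀ y ∈ ball (0 : ℂ) 1, P2I.sph P Q y = 2 * (D * (a ^ 2 * gt f n ι c κ γ (ξ0 + a * y, 0))) := by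
    intro y hy
    have h1 := (P2I.CH1.2 (ball 0 1) P Q isOpen_ball hAdm.1 hAdm.2.1 hAdm.2.2).2 y hy
    rw [hUp, hL n y hy] at h1
    linarith
  have hVs : ContDiffOn ℝ ∞ V (ball 0 1) := by
    obtain ⟨-, h2, -⟩ := (hWM1 d f U hd τ κ C0 α hτ hκ hκ1 hW ι c γ hT N).1 0 h0τ
    have h3 : ContDiffOn ℝ ∞ (fun y : ℂ => ξ0 + a * y) (ball 0 1) := by fun_prop
    exact contDiffOn_const.mul (h2.comp h3 fun y hy => hS y hy)
  have hVl : ∀ y ∈ ball (0 : ℂ) 1, lap V y = D * (a ^ 2 * gt f N ι c κ γ (ξ0 + a * y, 0)) := hL N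
  have hV0 : ∀ y ∈ ball (0 : ℂ) 1, 0 ≤ lap V y := fun y hy => by
    rw [hVl y hy]
    exact mul_nonneg hD0.le (mul_nonneg (sq_nonneg _) (hgn _ _))
  have hUpE : ∀ y ∈ ball (0 : ℂ) 1, |P2I.Up P Q y| ≤ C0 * D := by
    intro y hy
    rw [hUp]
    have h1 := (hW.nz ι c γ hT n _ (hmem y hy)).2.2.2
    change |D * un f n (gp ι c κ γ (ξ0 + a * y, 0))| ≤ _
    rw [abs_mul, abs_of_pos hD0, mul_comm]
    exact mul_le_mul_of_nonneg_right h1 hD0.le
  have hVU : ∀ y ∈ ball (0 : ℂ) 1, |V y - P2I.Up P Q y| ≤ C0 := by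
    intro y hy
    rw [hUp]
    have h1 := hW.lv ι c γ hT n N hN _ (hmem y hy)
    change |D * un f N (gp ι c κ γ (ξ0 + a * y, 0)) - D * un f n (gp ι c κ γ (ξ0 + a * y, 0))| ≤ _
    rw [← mul_sub, abs_mul, abs_of_pos hD0]
    calc D * _ ≤ D * (C0 / (d : ℝ) ^ n) := mul_le_mul_of_nonneg_left h1 hD0.le
      _ = C0 := by rw [← hD]; field_simp
  -- integrability
  have hint : ∀ (M : ℕ) (s : Set ℂ), s ⊆ ball 0 (3 / 4) → IntegrableOn (fun y => D * (a ^ 2 * gt f M ι c κ γ (ξ0 + a * y, 0))) s := by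
    intro M s hs
    have h1 : ContinuousOn (fun y => D * (a ^ 2 * gt f M ι c κ γ (ξ0 + a * y, 0))) (closedBall (0 : ℂ) (3 / 4)) :=
      (continuousOn_const.mul (continuousOn_const.mul (hgc M))).mono (closedBall_subset_ball (by norm_num))
    exact (h1.integrableOn_compact (isCompact_closedBall _ _)).mono_set (hs.trans ball_subset_closedBall)
  -- mass
  have hmass4 : 4 ≤ ∫ z in ball (0 : ℂ) (1 / 2), P2I.sph P Q z := by
    have hw := ((hM2 ι c γ hT n N 0 0 (by simpa using hτ) (by simpa using hτ)).1 ξ0 ρ (by linarith) hρ (by linarith)).2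
    have h0α : ‖(0 : ℂ) - 0‖ ^ α = 0 := by
      rw [sub_zero, norm_zero, Real.zero_rpow hW.a0.ne']
    rw [h0α, add_zero, ← hD] at hw
    have hset : {y : ℂ | ξ0 + a * y ∈ ball ξ0 (2 * ρ)} = ball (0 : ℂ) (1 / 2) := by
      ext y
      rw [mem_setOf_eq, mem_ball, mem_ball_zero_iff, dist_eq_norm, add_sub_cancel_left, norm_mul, Complex.norm_real,
        Real.norm_of_nonneg ha0.le, ha]
      constructor
      · intro h
        nlinarith
      · intro h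
        nlinarith
    have h1 : ms f n ι c κ γ 0 (ball ξ0 (2 * ρ)) = ENNReal.ofReal (a ^ 2) * ∫⁻ y in ball (0 : ℂ) (1 / 2), ENNReal.ofReal (gt f n ι c κ γ (ξ0 + a * y, 0)) := by
      unfold ms
      rw [WSB_cov_set (fun ξ => ENNReal.ofReal (gt f n ι c κ γ (ξ, 0))) a ha0 ξ0 _ measurableSet_ball, hset]
    have hsub : ball (0 : ℂ) (1 / 2) ⊆ ball 0 (3 / 4) := ball_subset_ball (by norm_num)
    have hsub1 : ball (0 : ℂ) (1 / 2) ⊆ ball 0 1 := ball_subset_ball (by norm_num)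
    have h2 : ENNReal.ofReal (∫ z in ball (0 : ℂ) (1 / 2), P2I.sph P Q z) = ENNReal.ofReal (2 * D) * ms f n ι c κ γ 0 (ball ξ0 (2 * ρ)) := by
      have e1 : ∫ z in ball (0 : ℂ) (1 / 2), P2I.sph P Q z = ∫ z in ball (0 : ℂ) (1 / 2), 2 * (D * (a ^ 2 * gt f n ι c κ γ (ξ0 + a * z, 0))) :=
        setIntegral_congr_fun measurableSet_ball fun y hy => hsph y (hsub1 hy)
      rw [e1, ofReal_integral_eq_lintegral_ofReal ((hint n _ hsub).const_mul 2)
        (Eventually.of_forall fun y => mul_nonneg (by norm_num) (mul_nonneg hD0.le (mul_nonneg (sq_nonneg _) (hgn _ _)))), h1, ← mul_assoc,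
        ← ENNReal.ofReal_mul (by positivity), ← lintegral_const_mul' _ _ ENNReal.ofReal_ne_top]
      refine lintegral_congr fun y => ?_
      rw [← ENNReal.ofReal_mul (by positivity)]
      congr 1
      ring
    have h3 : ENNReal.ofReal (4 + 4 * CM) ≤ ENNReal.ofReal (2 * D) * ms f n ι c κ γ 0 (ball ξ0 (2 * ρ)) + ENNReal.ofReal (4 * CM) := by
      have h4 : ENNReal.ofReal (CM * (1 / D + 1 / (d : ℝ) ^ N)) ≤ ENNReal.ofReal (2 * CM / D) := by
        refine ENNReal.ofReal_le_ofReal ?_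
        have : 1 / (d : ℝ) ^ N ≤ 1 / D := one_div_le_one_div_of_le hD0 hDN
        calc CM * (1 / D + 1 / (d : ℝ) ^ N) ≤ CM * (1 / D + 1 / D) := mul_le_mul_of_nonneg_left (by linarith) hCM.le
          _ = 2 * CM / D := by ring
      have h5 : ENNReal.ofReal (4 + 4 * CM) ≤ ENNReal.ofReal (2 * D) * ENNReal.ofReal μ0 := by
        rw [← ENNReal.ofReal_mul (by positivity)]
        refine ENNReal.ofReal_le_ofReal ?_
        rw [div_le_iff₀ (by positivity)] at hDa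
        linarith
      calc _ ≤ _ := h5
        _ ≤ ENNReal.ofReal (2 * D) * (ms f n ι c κ γ 0 (ball ξ0 (2 * ρ)) + ENNReal.ofReal (2 * CM / D)) :=
          mul_le_mul' le_rfl ((hmass.trans hw).trans (add_le_add le_rfl h4))
        _ = _ := by
          rw [mul_add, ← ENNReal.ofReal_mul (by positivity)]
          congr 2
          field_simp
          ring
    rw [← h2, ENNReal.ofReal_add (by norm_num) (by positivity)] at h3
    have h6 := (ENNReal.add_le_add_iff_right ENNReal.ofReal_ne_top).1 h3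
    have h7 : (0 : ℝ) ≤ ∫ z in ball (0 : ℂ) (1 / 2), P2I.sph P Q z :=
      setIntegral_nonneg measurableSet_ball fun y hy => by
        rw [hsph y (hsub1 hy)]
        exact mul_nonneg (by norm_num) (mul_nonneg hD0.le (mul_nonneg (sq_nonneg _) (hgn _ _)))
    exact (ENNReal.ofReal_le_ofReal_iff h7).1 h6
  have hmain := hI P Q V (C0 * D) C0 (e / 4) hAdm (by nlinarith [hW.c1]) hUpE hmass4 hVs hV0 hC0.le hVU
    (hDb.trans (by nlinarith [hW.c1])) (by positivity)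
  set B0 : Set ℂ := ball (0 : ℂ) (3 / 4) ∩ {z | ¬ ∃ X : ℂ → ℂ, P2I.Br P Q (ball 0 1 ∩ ball z (e / 4)) z r X} with hB0
  set T : Set ℂ := toMeasurable volume B0 ∩ ball 0 (3 / 4) with hTd
  have hTm : MeasurableSet T := (measurableSet_toMeasurable _ _).inter measurableSet_ball
  have hB0T : B0 ⊆ T := fun y hy => ⟨subset_toMeasurable _ _ hy, hy.1⟩
  have hB0f : volume B0 ≠ ⊤ := ((measure_mono inter_subset_left).trans_lt measure_ball_lt_top).ne
  have hTint : ∫ z in T, lap V z = ∫ z in B0, lap V z := by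
    have e1 : T =ᵐ[volume] toMeasurable volume B0 :=
      ae_eq_of_subset_of_measure_ge inter_subset_left ((measure_toMeasurable B0).le.trans (measure_mono hB0T))
        hTm.nullMeasurableSet (by rw [measure_toMeasurable]; exact hB0f)
    rw [setIntegral_congr_set e1, Measure.restrict_toMeasurable hB0f]
  have hT34 : T ⊆ ball 0 (3 / 4) := inter_subset_right
  have hT1 : T ⊆ ball 0 1 := hT34.trans (ball_subset_ball (by norm_num))
  have haC : (a : ℂ) ≠ 0 := by exact_mod_cast ha0.ne'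
  refine ⟨{ξ : ℂ | (a : ℂ)⁻¹ * (ξ - ξ0) ∈ T}, ?_, ?_, ?_⟩
  · have hc : Continuous fun ξ : ℂ => (a : ℂ)⁻¹ * (ξ - ξ0) := by fun_prop
    exact hc.measurable hTm
  · intro x hx hxB κ1 h1 Y hκ1' hκr hh1 hh1' hB t ht
    have hy : (a : ℂ)⁻¹ * (ξ0 + ρ * x - ξ0) = x / 4 := by
      rw [add_sub_cancel_left, ha]
      push_cast
      have : (ρ : ℂ) ≠ 0 := by exact_mod_cast hρ.ne'
      field_simp
    rw [mem_setOf_eq, hy] at hxB
    have hx1 : ‖x‖ < 1 := mem_ball_zero_iff.1 hx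
    have hx4 : x / 4 ∈ ball (0 : ℂ) (3 / 4) := by
      rw [mem_ball_zero_iff, norm_div]
      norm_num
      linarith
    have hx4' : x / 4 ∈ ball (0 : ℂ) 1 := ball_subset_ball (by norm_num) hx4
    have hex : ∃ X : ℂ → ℂ, P2I.Br P Q (ball 0 1 ∩ ball (x / 4) (e / 4)) (x / 4) r X := by
      by_contra hcon
      exact hxB (hB0T ⟨hx4, hcon⟩)
    obtain ⟨X, hX1, hX2, hX3⟩ := hex
    have hXb : P2I.Br P Q (ball 0 1) (x / 4) r X := ⟨hX1, hX2, fun t ht => ⟨(hX3 t ht).1.1, (hX3 t ht).2⟩⟩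
    obtain ⟨hY1, hY2, hY3⟩ := hB
    have h0h : (0 : ℂ) ∈ ball (0 : ℂ) h1 := mem_ball_self hh1
    have hPs : ∀ w : ℂ, P (w / 4) = sP f n ι c κ γ ξ0 ρ (w, 0) := fun w => by
      change It f n (gp ι c κ γ (ξ0 + a * (w / 4), 0)) 0 = It f n (gp ι c κ γ (ξ0 + ρ * w, κ * (ρ * 0))) 0
      rw [mul_zero, mul_zero, ha]
      push_cast
      rw [show (4 * (ρ : ℂ)) * (w / 4) = ρ * w by ring]
    have hQs : ∀ w : ℂ, Q (w / 4) = sQ f n ι c κ γ ξ0 ρ (w, 0) := fun w => by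
      change It f n (gp ι c κ γ (ξ0 + a * (w / 4), 0)) 1 = It f n (gp ι c κ γ (ξ0 + ρ * w, κ * (ρ * 0))) 1
      rw [mul_zero, mul_zero, ha]
      push_cast
      rw [show (4 * (ρ : ℂ)) * (w / 4) = ρ * w by ring]
    have hYb : P2I.Br P Q (ball 0 1) (x / 4) κ1 (fun t => Y (t, 0) / 4) := by
      refine ⟨?_, ?_, fun t ht => ⟨?_, ?_⟩⟩
      · have h3 : DifferentiableOn ℂ (fun t : ℂ => ((t, 0) : ℂ × ℂ)) (ball 0 κ1) := by fun_prop
        exact (hY1.comp h3 fun t ht => ⟨ht, h0h⟩).div_const 4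
      · change Y (0, 0) / 4 = x / 4
        rw [hY2]
      · have h4 := (hY3 t ht 0 h0h).1
        rw [mem_ball_zero_iff] at h4
        change Y (t, 0) / 4 ∈ _
        rw [mem_ball_zero_iff, norm_div]
        norm_num
        linarith
      · change P (Y (t, 0) / 4) * (Q (x / 4) + t * conj (P (x / 4))) = Q (Y (t, 0) / 4) * (P (x / 4) - t * conj (Q (x / 4)))
        rw [hPs, hPs, hQs, hQs]
        exact (hY3 t ht 0 h0h).2
    have heq := (hBRA P Q hAdm (x / 4) hx4').2.2 κ1 r _ X hYb hXb t ht (ball_subset_ball hκr ht)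
    have h5 := (hX3 t (ball_subset_ball hκr ht)).1.2
    rw [← heq, mem_ball, dist_eq_norm, ← sub_div, norm_div] at h5
    norm_num at h5
    rw [div_lt_div_iff_of_pos_right (by norm_num)] at h5
    exact h5.le
  · have hpre : {y : ℂ | ξ0 + a * y ∈ {ξ : ℂ | (a : ℂ)⁻¹ * (ξ - ξ0) ∈ T}} = T := by
      ext y
      rw [mem_setOf_eq, mem_setOf_eq, add_sub_cancel_left, ← mul_assoc, inv_mul_cancel₀ haC, one_mul]
    have hBm : MeasurableSet {ξ : ℂ | (a : ℂ)⁻¹ * (ξ - ξ0) ∈ T} := by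
      have hc : Continuous fun ξ : ℂ => (a : ℂ)⁻¹ * (ξ - ξ0) := by fun_prop
      exact hc.measurable hTm
    have h1 : ms f N ι c κ γ 0 ({ξ : ℂ | (a : ℂ)⁻¹ * (ξ - ξ0) ∈ T} ∩ ball ξ0 ρ) ≤
        ENNReal.ofReal (a ^ 2) * ∫⁻ y in T, ENNReal.ofReal (gt f N ι c κ γ (ξ0 + a * y, 0)) := by
      unfold ms
      refine (lintegral_mono_set inter_subset_left).trans ?_
      rw [WSB_cov_set (fun ξ => ENNReal.ofReal (gt f N ι c κ γ (ξ, 0))) a ha0 ξ0 _ hBm, hpre]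
    have h2 : ENNReal.ofReal (∫ z in T, lap V z) = ENNReal.ofReal (D * a ^ 2) * ∫⁻ y in T, ENNReal.ofReal (gt f N ι c κ γ (ξ0 + a * y, 0)) := by
      have e1 : ∫ z in T, lap V z = ∫ z in T, D * (a ^ 2 * gt f N ι c κ γ (ξ0 + a * z, 0)) :=
        setIntegral_congr_fun hTm fun y hy => hVl y (hT1 hy)
      rw [e1, ofReal_integral_eq_lintegral_ofReal (hint N _ hT34)
        (Eventually.of_forall fun y => mul_nonneg hD0.le (mul_nonneg (sq_nonneg _) (hgn _ _))), ← lintegral_const_mul' _ _ ENNReal.ofReal_ne_top]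
      refine lintegral_congr fun y => ?_
      rw [← ENNReal.ofReal_mul (by positivity)]
      congr 1
      ring
    have h3 : ENNReal.ofReal (a ^ 2) * ∫⁻ y in T, ENNReal.ofReal (gt f N ι c κ γ (ξ0 + a * y, 0)) = ENNReal.ofReal (1 / D) * ENNReal.ofReal (∫ z in T, lap V z) := by
      rw [h2, ← mul_assoc, ← ENNReal.ofReal_mul (by positivity)]
      congr 2
      field_simp
    rw [h3, hTint, ← ENNReal.ofReal_mul (by positivity)] at h1
    refine h1.trans (ENNReal.ofReal_le_ofReal ?_)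
    calc 1 / D * ∫ z in B0, lap V z ≤ 1 / D * (CI * (1 + C0) * (C0 * D) / Real.log (1 / r) + Cr * (1 + C0) / (e / 4) ^ 2) :=
          mul_le_mul_of_nonneg_left hmain (by positivity)
      _ = CI * (1 + C0) * C0 / Real.log (1 / r) + 16 * Cr * (1 + C0) / (e ^ 2 * D) := by
          field_simp
          ring

end Pool.Agent.P2W
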